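import Mathlib

set_option autoImplicit false

/-!
The bipartite complement of the Heawood graph (points and lines of the Fano plane, a point and a
line adjacent if they are not incident), its 21 four-cycles, and finite facts about them.
-/

namespace Pool.Agent.H64.Hop

/-- adjacency table -/
def tabA : ℕ := 355549817450301245387264946008161456273927496074377828096

/-- adjacency -/
def adjB (x y : ℕ) : Bool := tabA.testBit (14 * x + y)

theorem adjB_symm : ∀ x y : Fin 14, adjB x y = true → adjB y x = true := by decide +kernel

theorem adjB_irrefl : ∀ x : Fin 14, adjB x x = false := by decide +kernel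

/-- points `0, .., 6` and lines `7, .., 13` of the Fano plane, adjacent if not incident -/
def H14 : SimpleGraph (Fin 14) where
  Adj x y := adjB x y = true
  symm := ⟨fun x y h => adjB_symm x y h⟩
  loopless := ⟨fun x h => by
    have := adjB_irrefl x
    rw [this] at h
    cases h⟩

theorem H14_adj (x y : Fin 14) : H14.Adj x y ↔ adjB x y = true := Iff.rfl

/-- table of the neighbours -/
def tabN : ℕ := 8866497799132873753946024050953175308333160704241231063921854106264

/-- the four neighbours -/
def nb (x : Fin 14) (a : Fin 4) : Fin 14 := Fin.ofNat 14 ((tabN >>> (4 * (4 * x.1 + a.1))) % 16)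

theorem adjB_iff_nb : ∀ x y : Fin 14, adjB x y = true ↔ ∃ a : Fin 4, nb x a = y := by
  decide +kernel

theorem nb_inj : ∀ (x : Fin 14) (a b : Fin 4), nb x a = nb x b → a = b := by decide +kernel

/-- number of the pair `a, b` of points -/
def ix (a b : ℕ) : ℕ := min a b * (13 - min a b) / 2 + (max a b - min a b - 1)

/-- number of the four-cycle `x0 x1 x2 x3` -/
def cyc (x0 x1 x2 x3 : Fin 14) : ℕ := if x0.1 < 7 then ix x0 x2 else ix x1 x3

/-- table of the vertices of the four-cycles -/
def tabV : ℕ := 932566500020215249655039160775227898935988081030926652908949324174371198660297279751683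

/-- vertices of the four-cycle `j` as bits -/
def vm (j : ℕ) : ℕ := (tabV >>> (14 * j)) % 16384

/-- oriented edges of the four-cycle `j` -/
def isDart (j : ℕ) (a b : Fin 14) : Bool := (vm j).testBit a && (vm j).testBit b && adjB a b

theorem card_isDart : ∀ j : Fin 21, (Finset.univ.filter
    (fun p : Fin 14 × Fin 14 => isDart j.1 p.1 p.2 = true)).card ≤ 8 := by decide +kernel

/-- the two opposite pairs of neighbours -/
def opp (c : Fin 3) (a b : Fin 4) : Bool :=
  match c with
  | 0 => (a == 0 && b == 1) || (a == 2 && b == 3)
  | 1 => (a == 0 && b == 2) || (a == 1 && b == 3)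
  | 2 => (a == 0 && b == 3) || (a == 1 && b == 2)

/-- table of the killed four-cycles -/
def tabK : ℕ := 511693610167119770755927445616461245926458819645675646447221692717943668936169519672362755984196623864540799528907573641670192342354655562491904992714742160035455929190804074483365659413308506929170081810701830407602734892166755902699442091135949659812540719300642

/-- the two four-cycles killed at `v` by the matching `c` -/
def mask (v c : ℕ) : ℕ := (tabK >>> (21 * (3 * v + c))) % 2097152

/-- the third vertex -/
def third (j : ℕ) (a b : Fin 14) : Option (Fin 14) :=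
  (List.finRange 14).find? (fun w => isDart j a w && w != b)

/-- facts about a four-cycle -/
def good (x0 x1 x2 x3 : Fin 14) : Bool :=
  let j := cyc x0 x1 x2 x3
  decide (j < 21) && isDart j x0 x1 && (third j x0 x1 == some x3) &&
  (List.finRange 14).all (fun v => (List.finRange 3).all (fun c =>
    !((mask v c).testBit j) ||
      (List.finRange 4).any (fun a => (List.finRange 4).any (fun b => opp c a b &&
        ((v == x0 && ((nb v a == x1 && nb v b == x3) || (nb v a == x3 && nb v b == x1))) ||
         (v == x1 && ((nb v a == x0 && nb v b == x2) || (nb v a == x2 && nb v b == x0))) ||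
         (v == x2 && ((nb v a == x1 && nb v b == x3) || (nb v a == x3 && nb v b == x1))) ||
         (v == x3 && ((nb v a == x0 && nb v b == x2) || (nb v a == x2 && nb v b == x0))))))))

/-- all four-cycles are good -/
def allGood : Bool :=
  (List.finRange 14).all (fun x0 => (List.finRange 4).all (fun a => (List.finRange 4).all (fun b =>
    (List.finRange 4).all (fun c =>
      let x1 := nb x0 a
      let x2 := nb x1 b
      let x3 := nb x2 c
      (x2 == x0) || (x3 == x1) || !(adjB x3 x0) || good x0 x1 x2 x3))))

theorem allGood_true : allGood = true := by decide +kernel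

theorem good_of (x0 x1 x2 x3 : Fin 14) (h0 : adjB x0 x1 = true) (h1 : adjB x1 x2 = true)
    (h2 : adjB x2 x3 = true) (h3 : adjB x3 x0 = true) (h02 : x2 ≠ x0) (h13 : x3 ≠ x1) :
    good x0 x1 x2 x3 = true := by
  obtain ⟨a, rfl⟩ := (adjB_iff_nb _ _).1 h0
  obtain ⟨b, rfl⟩ := (adjB_iff_nb _ _).1 h1
  obtain ⟨c, rfl⟩ := (adjB_iff_nb _ _).1 h2
  have h := allGood_true
  unfold allGood at h
  rw [List.all_eq_true] at h
  have h4 := h x0 (List.mem_finRange _)
  rw [List.all_eq_true] at h4
  have h5 := h4 a (List.mem_finRange _)
  rw [List.all_eq_true] at h5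
  have h6 := h5 b (List.mem_finRange _)
  rw [List.all_eq_true] at h6
  have h7 := h6 c (List.mem_finRange _)
  simp only [Bool.or_eq_true, beq_iff_eq, Bool.not_eq_true'] at h7
  rcases h7 with ((h7 | h7) | h7) | h7
  · exact absurd h7 h02
  · exact absurd h7 h13
  · rw [h7] at h3
    cases h3
  · exact h7

/-- number of ones among the first `k` bits -/
def pop : ℕ → ℕ → ℕ
  | 0, _ => 0
  | k + 1, n => n % 2 + pop k (n / 2)

theorem pop_eq (k : ℕ) : ∀ n, pop k n = ((Finset.range k).filter (fun j => n.testBit j)).card := by
  induction k with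
  | zero => intro n; rfl
  | succ k ih =>
    intro n
    rw [pop, ih, Finset.card_filter, Finset.card_filter, Finset.sum_range_succ', add_comm]
    congr 1
    · refine Finset.sum_congr rfl (fun j _ => ?_)
      rw [Nat.testBit_succ]
    · rw [Nat.testBit_zero]
      rcases Nat.mod_two_eq_zero_or_one n with h | h <;> simp [h]

theorem pop_mono (k s t : ℕ) : pop k s ≤ pop k (s ||| t) := by
  rw [pop_eq, pop_eq]
  refine Finset.card_le_card (fun j hj => ?_)
  rw [Finset.mem_filter] at hj ⊢
  exact ⟨hj.1, by rw [Nat.testBit_or, hj.2, Bool.true_or]⟩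

/-- the search over all choices of matchings -/
def chk : List ℕ → ℕ → Bool
  | [], s => Nat.ble 11 (pop 21 s)
  | v :: L, s => Nat.ble 11 (pop 21 s) ||
      (chk L (s ||| mask v 0) && chk L (s ||| mask v 1) && chk L (s ||| mask v 2))

/-- union of the killed four-cycles -/
def killed (c : ℕ → ℕ) : List ℕ → ℕ → ℕ
  | [], s => s
  | v :: L, s => killed c L (s ||| mask v (c v))

theorem le_killed (c : ℕ → ℕ) (L : List ℕ) : ∀ s, pop 21 s ≤ pop 21 (killed c L s) := by
  induction L with
  | nil => intro s; exact le_rfl
  | cons v L ih => intro s; exact (pop_mono _ _ _).trans (ih _)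

theorem chk_sound (c : ℕ → ℕ) (L : List ℕ) (hc : ∀ v ∈ L, c v < 3) :
    ∀ s, chk L s = true → 11 ≤ pop 21 (killed c L s) := by
  induction L with
  | nil =>
    intro s h
    exact Nat.le_of_ble_eq_true h
  | cons v L ih =>
    intro s h
    unfold chk at h
    rw [Bool.or_eq_true, Bool.and_eq_true, Bool.and_eq_true] at h
    rcases h with h | ⟨⟨h1, h2⟩, h3⟩
    · exact (Nat.le_of_ble_eq_true h).trans (le_killed c (v :: L) s)
    · have h4 := hc v List.mem_cons_self
      have ih' := ih (fun w hw => hc w (List.mem_cons_of_mem _ hw))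
      unfold killed
      have h5 : c v = 0 ∨ c v = 1 ∨ c v = 2 := by omega
      rcases h5 with h5 | h5 | h5 <;> rw [h5]
      · exact ih' _ h1
      · exact ih' _ h2
      · exact ih' _ h3

theorem chk_true : chk (List.range 14) 0 = true := by decide +kernel

theorem eleven_le (c : ℕ → ℕ) (hc : ∀ v < 14, c v < 3) :
    11 ≤ pop 21 (killed c (List.range 14) 0) :=
  chk_sound c _ (fun v hv => hc v (List.mem_range.1 hv)) _ chk_true

theorem killed_testBit (c : ℕ → ℕ) (L : List ℕ) (j : ℕ) : ∀ s, (killed c L s).testBit j = true →
    s.testBit j = true ∨ ∃ v ∈ L, (mask v (c v)).testBit j = true := by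
  induction L with
  | nil => intro s h; exact Or.inl h
  | cons v L ih =>
    intro s h
    rcases ih _ h with h | ⟨w, hw, h⟩
    · rw [Nat.testBit_or, Bool.or_eq_true] at h
      rcases h with h | h
      · exact Or.inl h
      · exact Or.inr ⟨v, List.mem_cons_self, h⟩
    · exact Or.inr ⟨w, List.mem_cons_of_mem _ hw, h⟩

end Pool.Agent.H64.Hop
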