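import Mathlib
import Pool.Agent.H20.Hop.FaceB

set_option autoImplicit false

/-!
Schemes of a disjoint union of two graphs, and transport along isomorphisms.
-/

namespace Pool.Agent.H64.Hop

open SimpleGraph Pool.Agent.H20.Hop

variable {V W : Type*} {A : SimpleGraph V} {B : SimpleGraph W}

instance flagFinite {V : Type*} [Finite V] (G : SimpleGraph V) : Finite (Flag G) := by
  classical
  have : Finite G.Dart := by
    refine Finite.of_injective (fun e : G.Dart => e.toProd) ?_
    intro a b hab
    exact SimpleGraph.Dart.ext _ _ hab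
  infer_instance

/-- a left flag -/
def fl (A : SimpleGraph V) (B : SimpleGraph W) (f : Flag A) : Flag (A ⊕g B) :=
  (⟨(Sum.inl f.1.fst, Sum.inl f.1.snd), sum_adj_inl.2 f.1.adj⟩, f.2)

/-- a right flag -/
def fr (A : SimpleGraph V) (B : SimpleGraph W) (f : Flag B) : Flag (A ⊕g B) :=
  (⟨(Sum.inr f.1.fst, Sum.inr f.1.snd), sum_adj_inr.2 f.1.adj⟩, f.2)

theorem fl_injective : Function.Injective (fl A B) := by
  rintro ⟨⟨⟨a, b⟩, h⟩, s⟩ ⟨⟨⟨a', b'⟩, h'⟩, s'⟩ e
  have h1 := congrArg (fun f : Flag (A ⊕g B) => f.1.fst) e
  have h2 := congrArg (fun f : Flag (A ⊕g B) => f.1.snd) e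
  have h3 := congrArg (fun f : Flag (A ⊕g B) => f.2) e
  simp only [fl] at h1 h2 h3
  cases Sum.inl.inj h1
  cases Sum.inl.inj h2
  cases h3
  rfl

theorem fr_injective : Function.Injective (fr A B) := by
  rintro ⟨⟨⟨a, b⟩, h⟩, s⟩ ⟨⟨⟨a', b'⟩, h'⟩, s'⟩ e
  have h1 := congrArg (fun f : Flag (A ⊕g B) => f.1.fst) e
  have h2 := congrArg (fun f : Flag (A ⊕g B) => f.1.snd) e
  have h3 := congrArg (fun f : Flag (A ⊕g B) => f.2) e
  simp only [fr] at h1 h2 h3
  cases Sum.inr.inj h1
  cases Sum.inr.inj h2
  cases h3
  rfl

theorem exists_fl {f : Flag (A ⊕g B)} {v : V} (h : f.1.fst = Sum.inl v) : ∃ f', fl A B f' = f := by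
  obtain ⟨⟨⟨a, b⟩, hab⟩, s⟩ := f
  change a = Sum.inl v at h
  subst h
  rcases b with b | b
  · exact ⟨(⟨(v, b), sum_adj_inl.1 hab⟩, s), rfl⟩
  · exact absurd hab (by simp)

theorem exists_fr {f : Flag (A ⊕g B)} {v : W} (h : f.1.fst = Sum.inr v) : ∃ f', fr A B f' = f := by
  obtain ⟨⟨⟨a, b⟩, hab⟩, s⟩ := f
  change a = Sum.inr v at h
  subst h
  rcases b with b | b
  · exact absurd hab (by simp)
  · exact ⟨(⟨(v, b), sum_adj_inr.1 hab⟩, s), rfl⟩

/-- the flags of the union -/
noncomputable def flagSum (A : SimpleGraph V) (B : SimpleGraph W) :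
    Flag A ⊕ Flag B ≃ Flag (A ⊕g B) :=
  Equiv.ofBijective (Sum.elim (fl A B) (fr A B)) (by
    constructor
    · rintro (x | x) (y | y) h
      · exact congrArg Sum.inl (fl_injective h)
      · have := congrArg (fun f : Flag (A ⊕g B) => f.1.fst) h
        simp [fl, fr] at this
      · have := congrArg (fun f : Flag (A ⊕g B) => f.1.fst) h
        simp [fl, fr] at this
      · exact congrArg Sum.inr (fr_injective h)
    · intro f
      rcases h : f.1.fst with v | v
      · obtain ⟨f', hf⟩ := exists_fl h
        exact ⟨Sum.inl f', hf⟩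
      · obtain ⟨f', hf⟩ := exists_fr h
        exact ⟨Sum.inr f', hf⟩)

theorem flagSum_inl (f : Flag A) : flagSum A B (Sum.inl f) = fl A B f := rfl
theorem flagSum_inr (f : Flag B) : flagSum A B (Sum.inr f) = fr A B f := rfl

/-- every scheme of the union is the union of two schemes -/
theorem scheme_split (S : Scheme (A ⊕g B)) :
    ∃ (SA : Scheme A) (SB : Scheme B), (∀ f, S.corner (fl A B f) = fl A B (SA.corner f)) ∧
      ∀ f, S.corner (fr A B f) = fr A B (SB.corner f) := by
  have hl : ∀ f : Flag A, ∃ f', fl A B f' = S.corner (fl A B f) := fun f =>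
    exists_fl (v := f.1.fst) (S.fst _)
  have hr : ∀ f : Flag B, ∃ f', fr A B f' = S.corner (fr A B f) := fun f =>
    exists_fr (v := f.1.fst) (S.fst _)
  choose cl hcl using hl
  choose cr hcr using hr
  have key : ∀ x y : Flag (A ⊕g B),
      Relation.EqvGen (fun x y => y = Flag.across x ∨ y = S.corner x) x y →
      ∀ p q : Flag A ⊕ Flag B, flagSum A B p = x → flagSum A B q = y →
      Relation.EqvGen (fun x y => y = Sum.map Flag.across Flag.across x ∨ y = Sum.map cl cr x)
        p q := by
    intro x y h
    induction h with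
    | rel x y h =>
      rintro p q rfl rfl
      rcases h with h | h
      · refine Relation.EqvGen.rel _ _ (Or.inl ?_)
        apply (flagSum A B).injective
        rw [h]
        rcases p with p | p <;> rfl
      · refine Relation.EqvGen.rel _ _ (Or.inr ?_)
        apply (flagSum A B).injective
        rw [h]
        rcases p with p | p
        · exact (hcl p).symm
        · exact (hcr p).symm
    | refl x =>
      rintro p q rfl h
      rw [(flagSum A B).injective h]
      exact Relation.EqvGen.refl _
    | symm x y _ ih =>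
      intro p q hp hq
      exact (ih q p hq hp).symm
    | trans x y z _ _ ih1 ih2 =>
      intro p q hp hq
      obtain ⟨r, hr⟩ := (flagSum A B).surjective y
      exact (ih1 p r hp hr).trans _ _ _ (ih2 r q hr hq)
  have keyl : ∀ p q : Flag A ⊕ Flag B,
      Relation.EqvGen (fun x y => y = Sum.map Flag.across Flag.across x ∨ y = Sum.map cl cr x)
        p q → ∀ f g : Flag A, p = Sum.inl f → q = Sum.inl g →
      Relation.EqvGen (fun x y => y = Flag.across x ∨ y = cl x) f g := by
    have hside : ∀ p q : Flag A ⊕ Flag B,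
      Relation.EqvGen (fun x y => y = Sum.map Flag.across Flag.across x ∨ y = Sum.map cl cr x)
        p q → p.isLeft = q.isLeft := by
      intro p q h
      induction h with
      | rel x y h =>
        rcases h with h | h <;> subst h <;> rcases x with x | x <;> rfl
      | refl x => rfl
      | symm x y _ ih => exact ih.symm
      | trans x y z _ _ ih1 ih2 => exact ih1.trans ih2
    intro p q h
    induction h with
    | rel x y h =>
      rintro f g rfl rfl
      rcases h with h | h
      · exact Relation.EqvGen.rel _ _ (Or.inl (Sum.inl.inj h))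
      · exact Relation.EqvGen.rel _ _ (Or.inr (Sum.inl.inj h))
    | refl x =>
      rintro f g rfl h
      rw [Sum.inl.inj h]
      exact Relation.EqvGen.refl _
    | symm x y _ ih =>
      intro f g hf hg
      exact (ih g f hg hf).symm
    | trans x y z hxy _ ih1 ih2 =>
      intro f g hf hg
      rcases y with y | y
      · exact (ih1 f y hf rfl).trans _ _ _ (ih2 y g rfl hg)
      · have := hside _ _ hxy
        rw [hf] at this
        simp at this
  have keyr : ∀ p q : Flag A ⊕ Flag B,
      Relation.EqvGen (fun x y => y = Sum.map Flag.across Flag.across x ∨ y = Sum.map cl cr x)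
        p q → ∀ f g : Flag B, p = Sum.inr f → q = Sum.inr g →
      Relation.EqvGen (fun x y => y = Flag.across x ∨ y = cr x) f g := by
    have hside : ∀ p q : Flag A ⊕ Flag B,
      Relation.EqvGen (fun x y => y = Sum.map Flag.across Flag.across x ∨ y = Sum.map cl cr x)
        p q → p.isLeft = q.isLeft := by
      intro p q h
      induction h with
      | rel x y h =>
        rcases h with h | h <;> subst h <;> rcases x with x | x <;> rfl
      | refl x => rfl
      | symm x y _ ih => exact ih.symm
      | trans x y z _ _ ih1 ih2 => exact ih1.trans ih2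
    intro p q h
    induction h with
    | rel x y h =>
      rintro f g rfl rfl
      rcases h with h | h
      · exact Relation.EqvGen.rel _ _ (Or.inl (Sum.inr.inj h))
      · exact Relation.EqvGen.rel _ _ (Or.inr (Sum.inr.inj h))
    | refl x =>
      rintro f g rfl h
      rw [Sum.inr.inj h]
      exact Relation.EqvGen.refl _
    | symm x y _ ih =>
      intro f g hf hg
      exact (ih g f hg hf).symm
    | trans x y z hxy _ ih1 ih2 =>
      intro f g hf hg
      rcases y with y | y
      · have := hside _ _ hxy
        rw [hf] at this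
        simp at this
      · exact (ih1 f y hf rfl).trans _ _ _ (ih2 y g rfl hg)
  refine ⟨⟨cl, fun f => ?_, fun f hf => ?_, fun f => ?_, fun f g hfg => ?_⟩,
    ⟨cr, fun f => ?_, fun f hf => ?_, fun f => ?_, fun f g hfg => ?_⟩,
    fun f => (hcl f).symm, fun f => (hcr f).symm⟩
  · apply fl_injective (A := A) (B := B)
    rw [hcl, hcl, S.invol]
  · apply S.ne (fl A B f)
    rw [← hcl, hf]
  · have h := S.fst (fl A B f)
    rw [← hcl] at h
    exact Sum.inl.inj h
  · refine keyl _ _ (key _ _ (S.cyclic (fl A B f) (fl A B g) (congrArg Sum.inl hfg))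
      (Sum.inl f) (Sum.inl g) rfl rfl) f g rfl rfl
  · apply fr_injective (A := A) (B := B)
    rw [hcr, hcr, S.invol]
  · apply S.ne (fr A B f)
    rw [← hcr, hf]
  · have h := S.fst (fr A B f)
    rw [← hcr] at h
    exact Sum.inr.inj h
  · refine keyr _ _ (key _ _ (S.cyclic (fr A B f) (fr A B g) (congrArg Sum.inr hfg))
      (Sum.inr f) (Sum.inr g) rfl rfl) f g rfl rfl

/-- faces of a scheme of the union -/
theorem norb_split [Finite V] [Finite W] (S : Scheme (A ⊕g B)) {SA : Scheme A} {SB : Scheme B}
    (hl : ∀ f, S.corner (fl A B f) = fl A B (SA.corner f))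
    (hr : ∀ f, S.corner (fr A B f) = fr A B (SB.corner f)) :
    norb Flag.along S.corner = norb Flag.along SA.corner + norb Flag.along SB.corner := by
  rw [← norb_sum]
  refine (norb_equiv (flagSum A B) (fun x => ?_) (fun x => ?_)).symm
  · rcases x with x | x <;> rfl
  · rcases x with x | x
    · exact (hl x).symm
    · exact (hr x).symm

/-- two schemes give a scheme of the union -/
theorem scheme_join (SA : Scheme A) (SB : Scheme B) :
    ∃ S : Scheme (A ⊕g B), (∀ f, S.corner (fl A B f) = fl A B (SA.corner f)) ∧
      ∀ f, S.corner (fr A B f) = fr A B (SB.corner f) := by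
  let e := flagSum A B
  let c : Flag (A ⊕g B) → Flag (A ⊕g B) := fun f => e (Sum.map SA.corner SB.corner (e.symm f))
  have hc : ∀ p, c (e p) = e (Sum.map SA.corner SB.corner p) := fun p => by
    change e (Sum.map SA.corner SB.corner (e.symm (e p))) = _
    rw [Equiv.symm_apply_apply]
  have hl : ∀ f, c (fl A B f) = fl A B (SA.corner f) := fun f => hc (Sum.inl f)
  have hr : ∀ f, c (fr A B f) = fr A B (SB.corner f) := fun f => hc (Sum.inr f)
  have hall : ∀ P : Flag (A ⊕g B) → Prop, (∀ f, P (fl A B f)) → (∀ f, P (fr A B f)) → ∀ f, P f := by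
    intro P h1 h2 f
    obtain ⟨p, rfl⟩ := e.surjective f
    rcases p with p | p
    · exact h1 p
    · exact h2 p
  have el : ∀ f g : Flag A, Relation.EqvGen (fun x y => y = Flag.across x ∨ y = SA.corner x) f g →
      Relation.EqvGen (fun x y => y = Flag.across x ∨ y = c x) (fl A B f) (fl A B g) := by
    intro f g h
    induction h with
    | rel x y h =>
      rcases h with h | h
      · exact Relation.EqvGen.rel _ _ (Or.inl (by rw [h]; rfl))
      · exact Relation.EqvGen.rel _ _ (Or.inr (by rw [h, hl]))
    | refl x => exact Relation.EqvGen.refl _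
    | symm x y _ ih => exact ih.symm
    | trans x y z _ _ ih1 ih2 => exact ih1.trans _ _ _ ih2
  have er : ∀ f g : Flag B, Relation.EqvGen (fun x y => y = Flag.across x ∨ y = SB.corner x) f g →
      Relation.EqvGen (fun x y => y = Flag.across x ∨ y = c x) (fr A B f) (fr A B g) := by
    intro f g h
    induction h with
    | rel x y h =>
      rcases h with h | h
      · exact Relation.EqvGen.rel _ _ (Or.inl (by rw [h]; rfl))
      · exact Relation.EqvGen.rel _ _ (Or.inr (by rw [h, hr]))
    | refl x => exact Relation.EqvGen.refl _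
    | symm x y _ ih => exact ih.symm
    | trans x y z _ _ ih1 ih2 => exact ih1.trans _ _ _ ih2
  refine ⟨⟨c, ?_, ?_, ?_, ?_⟩, hl, hr⟩
  · refine hall _ (fun f => ?_) (fun f => ?_)
    · rw [hl, hl, SA.invol]
    · rw [hr, hr, SB.invol]
  · refine hall _ (fun f h => ?_) (fun f h => ?_)
    · rw [hl] at h
      exact SA.ne f (fl_injective h)
    · rw [hr] at h
      exact SB.ne f (fr_injective h)
  · refine hall _ (fun f => ?_) (fun f => ?_)
    · rw [hl]
      exact congrArg Sum.inl (SA.fst f)
    · rw [hr]
      exact congrArg Sum.inr (SB.fst f)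
  · refine hall _ (fun f => hall _ (fun g h => ?_) (fun g h => ?_))
      (fun f => hall _ (fun g h => ?_) (fun g h => ?_))
    · exact el _ _ (SA.cyclic f g (Sum.inl.inj h))
    · cases h
    · cases h
    · exact er _ _ (SB.cyclic f g (Sum.inr.inj h))

end Pool.Agent.H64.Hop
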