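import Mathlib
import Pool.Agent.H64.Hop.Sum

set_option autoImplicit false

/-!
Upper and lower bounds for the Euler genus, disjoint unions and isomorphisms.
-/

namespace Pool.Agent.H64.Hop

open SimpleGraph Pool.Agent.H20.Hop

variable {V W : Type*} {A : SimpleGraph V} {B : SimpleGraph W}

theorem card_edge_sum [Finite V] [Finite W] :
    Nat.card (A ⊕g B).edgeSet = Nat.card A.edgeSet + Nat.card B.edgeSet := by
  have h1 := card_flag (H := A)
  have h2 := card_flag (H := B)
  have h3 := card_flag (H := A ⊕g B)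
  have h4 := Nat.card_congr (flagSum A B)
  rw [Nat.card_sum] at h4
  omega

theorem reach_inl {x y : V} (h : A.Reachable x y) :
    (A ⊕g B).Reachable (Sum.inl x) (Sum.inl y) := by
  obtain ⟨p⟩ := h
  induction p with
  | nil => exact Reachable.refl _
  | cons h p ih => exact (Adj.reachable (sum_adj_inl.2 h)).trans ih

theorem reach_inr {x y : W} (h : B.Reachable x y) :
    (A ⊕g B).Reachable (Sum.inr x) (Sum.inr y) := by
  obtain ⟨p⟩ := h
  induction p with
  | nil => exact Reachable.refl _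
  | cons h p ih => exact (Adj.reachable (sum_adj_inr.2 h)).trans ih

theorem reach_sum {x y : V ⊕ W} (h : (A ⊕g B).Reachable x y) :
    (∃ a b, x = Sum.inl a ∧ y = Sum.inl b ∧ A.Reachable a b) ∨
      ∃ a b, x = Sum.inr a ∧ y = Sum.inr b ∧ B.Reachable a b := by
  obtain ⟨p⟩ := h
  induction p with
  | @nil u =>
    rcases u with u | u
    · exact Or.inl ⟨u, u, rfl, rfl, Reachable.refl _⟩
    · exact Or.inr ⟨u, u, rfl, rfl, Reachable.refl _⟩
  | @cons u v w h p ih =>
    rcases ih with ⟨a, b, rfl, rfl, hab⟩ | ⟨a, b, rfl, rfl, hab⟩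
    · rcases u with u | u
      · exact Or.inl ⟨u, b, rfl, rfl, (Adj.reachable (sum_adj_inl.1 h)).trans hab⟩
      · exact absurd h (by simp)
    · rcases u with u | u
      · exact absurd h (by simp)
      · exact Or.inr ⟨u, b, rfl, rfl, (Adj.reachable (sum_adj_inr.1 h)).trans hab⟩

theorem card_comp_sum [Finite V] [Finite W] :
    Nat.card (A ⊕g B).ConnectedComponent =
      Nat.card A.ConnectedComponent + Nat.card B.ConnectedComponent := by
  have f1 : Finite A.ConnectedComponent := Quot.finite _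
  have f2 : Finite B.ConnectedComponent := Quot.finite _
  rw [← Nat.card_sum]
  refine (Nat.card_eq_of_bijective (Sum.elim
    (Quot.lift (fun x => (A ⊕g B).connectedComponentMk (Sum.inl x))
      (fun x y h => ConnectedComponent.eq.2 (reach_inl h)))
    (Quot.lift (fun x => (A ⊕g B).connectedComponentMk (Sum.inr x))
      (fun x y h => ConnectedComponent.eq.2 (reach_inr h)))) ⟨?_, ?_⟩).symm
  · rintro (a | a) (b | b)
    · refine Quot.inductionOn a (fun x => Quot.inductionOn b (fun y h => ?_))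
      have h1 : (A ⊕g B).Reachable (Sum.inl x) (Sum.inl y) := ConnectedComponent.eq.1 h
      rcases reach_sum h1 with ⟨a, b, e1, e2, hab⟩ | ⟨a, b, e1, e2, hab⟩
      · cases e1
        cases e2
        exact congrArg Sum.inl (ConnectedComponent.eq.2 hab)
      · cases e1
    · refine Quot.inductionOn a (fun x => Quot.inductionOn b (fun y h => ?_))
      have h1 : (A ⊕g B).Reachable (Sum.inl x) (Sum.inr y) := ConnectedComponent.eq.1 h
      rcases reach_sum h1 with ⟨a, b, e1, e2, hab⟩ | ⟨a, b, e1, e2, hab⟩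
      · cases e2
      · cases e1
    · refine Quot.inductionOn a (fun x => Quot.inductionOn b (fun y h => ?_))
      have h1 : (A ⊕g B).Reachable (Sum.inr x) (Sum.inl y) := ConnectedComponent.eq.1 h
      rcases reach_sum h1 with ⟨a, b, e1, e2, hab⟩ | ⟨a, b, e1, e2, hab⟩
      · cases e1
      · cases e2
    · refine Quot.inductionOn a (fun x => Quot.inductionOn b (fun y h => ?_))
      have h1 : (A ⊕g B).Reachable (Sum.inr x) (Sum.inr y) := ConnectedComponent.eq.1 h
      rcases reach_sum h1 with ⟨a, b, e1, e2, hab⟩ | ⟨a, b, e1, e2, hab⟩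
      · cases e1
      · cases e1
        cases e2
        exact congrArg Sum.inr (ConnectedComponent.eq.2 hab)
  · intro b
    refine Quot.inductionOn b (fun y => ?_)
    rcases y with y | y
    · exact ⟨Sum.inl (Quot.mk _ y), rfl⟩
    · exact ⟨Sum.inr (Quot.mk _ y), rfl⟩

theorem card_iso_sum [Finite V] [Finite W] :
    Nat.card {v : V ⊕ W // ∀ w, ¬ (A ⊕g B).Adj v w} =
      Nat.card {v : V // ∀ w, ¬ A.Adj v w} + Nat.card {v : W // ∀ w, ¬ B.Adj v w} := by
  rw [← Nat.card_sum]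
  refine (Nat.card_eq_of_bijective (Sum.elim
    (fun x => (⟨Sum.inl x.1, fun w => by
      rcases w with w | w
      · exact fun h => x.2 w (sum_adj_inl.1 h)
      · simp⟩ : {v : V ⊕ W // ∀ w, ¬ (A ⊕g B).Adj v w}))
    (fun x => (⟨Sum.inr x.1, fun w => by
      rcases w with w | w
      · simp
      · exact fun h => x.2 w (sum_adj_inr.1 h)⟩ : {v : V ⊕ W // ∀ w, ¬ (A ⊕g B).Adj v w})))
    ⟨?_, ?_⟩).symm
  · rintro (x | x) (y | y) h
    · exact congrArg Sum.inl (Subtype.ext (Sum.inl.inj (congrArg Subtype.val h)))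
    · exact absurd (congrArg Subtype.val h) (by simp)
    · exact absurd (congrArg Subtype.val h) (by simp)
    · exact congrArg Sum.inr (Subtype.ext (Sum.inr.inj (congrArg Subtype.val h)))
  · rintro ⟨v | v, h⟩
    · exact ⟨Sum.inl ⟨v, fun w hw => h (Sum.inl w) (sum_adj_inl.2 hw)⟩, rfl⟩
    · exact ⟨Sum.inr ⟨v, fun w hw => h (Sum.inr w) (sum_adj_inr.2 hw)⟩, rfl⟩

/-- all schemes have Euler genus at least `g` -/
def Low {V : Type*} (G : SimpleGraph V) (g : ℕ) : Prop :=
  ∀ S : Scheme G, (Nat.card V : ℤ) - Nat.card G.edgeSet + S.numFaces ≤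
    2 * (Nat.card G.ConnectedComponent : ℤ) - g

/-- some scheme has Euler genus at most `g` -/
def Up {V : Type*} (G : SimpleGraph V) (g : ℕ) : Prop := ∃ S : Scheme G, S.EulerGenusLE g

/-- some scheme which is not orientable has Euler genus at most `g` -/
def UpN {V : Type*} (G : SimpleGraph V) (g : ℕ) : Prop :=
  ∃ S : Scheme G, S.EulerGenusLE g ∧ ¬ S.Orientable

theorem Low.not_embeds {G : SimpleGraph V} {g k : ℕ} (h : Low G g) (hk : k < g) :
    ¬ EmbedsN G k := by
  rintro ⟨S, h1 | ⟨h1, _⟩⟩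
  · have h2 := h S
    unfold Scheme.EulerGenusLE at h1
    omega
  · have h2 := h S
    unfold Scheme.EulerGenusLE at h1
    omega

theorem UpN.embeds {G : SimpleGraph V} {g : ℕ} (h : UpN G g) : EmbedsN G g := by
  obtain ⟨S, h1, h2⟩ := h
  exact ⟨S, Or.inr ⟨h1, h2⟩⟩

theorem UpN.up {G : SimpleGraph V} {g : ℕ} (h : UpN G g) : Up G g := by
  obtain ⟨S, h1, _⟩ := h
  exact ⟨S, h1⟩

theorem UpN.mono {G : SimpleGraph V} {g g' : ℕ} (h : UpN G g) (hg : g ≤ g') : UpN G g' := by
  obtain ⟨S, h1, h2⟩ := h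
  refine ⟨S, ?_, h2⟩
  unfold Scheme.EulerGenusLE at h1 ⊢
  omega

theorem Low.sum [Finite V] [Finite W] {a b : ℕ} (hA : Low A a) (hB : Low B b) :
    Low (A ⊕g B) (a + b) := by
  intro S
  obtain ⟨SA, SB, h1, h2⟩ := scheme_split S
  have h3 := norb_split S h1 h2
  have h4 := hA SA
  have h5 := hB SB
  rw [Scheme.numFaces_eq] at h4 h5 ⊢
  rw [h3, card_edge_sum, card_comp_sum, card_iso_sum, Nat.card_sum]
  push_cast at h4 h5 ⊢
  linarith

theorem orient_left {S : Scheme (A ⊕g B)} {SA : Scheme A}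
    (hl : ∀ f, S.corner (fl A B f) = fl A B (SA.corner f)) (h : S.Orientable) :
    SA.Orientable := by
  obtain ⟨o, ho⟩ := h
  refine ⟨fun f => o (fl A B f), fun f => ?_⟩
  obtain ⟨h1, h2, h3⟩ := ho (fl A B f)
  rw [hl] at h3
  exact ⟨h1, h2, h3⟩

theorem orient_right {S : Scheme (A ⊕g B)} {SB : Scheme B}
    (hr : ∀ f, S.corner (fr A B f) = fr A B (SB.corner f)) (h : S.Orientable) :
    SB.Orientable := by
  obtain ⟨o, ho⟩ := h
  refine ⟨fun f => o (fr A B f), fun f => ?_⟩
  obtain ⟨h1, h2, h3⟩ := ho (fr A B f)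
  rw [hr] at h3
  exact ⟨h1, h2, h3⟩

theorem join_genus [Finite V] [Finite W] {a b : ℕ} {SA : Scheme A} {SB : Scheme B}
    (hA : SA.EulerGenusLE a) (hB : SB.EulerGenusLE b) {S : Scheme (A ⊕g B)}
    (hl : ∀ f, S.corner (fl A B f) = fl A B (SA.corner f))
    (hr : ∀ f, S.corner (fr A B f) = fr A B (SB.corner f)) : S.EulerGenusLE (a + b) := by
  have h3 := norb_split S hl hr
  unfold Scheme.EulerGenusLE at hA hB ⊢
  rw [Scheme.numFaces_eq] at hA hB ⊢
  rw [h3, card_edge_sum, card_comp_sum, card_iso_sum, Nat.card_sum]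
  push_cast at hA hB ⊢
  linarith

theorem Up.sum [Finite V] [Finite W] {a b : ℕ} (hA : Up A a) (hB : Up B b) :
    Up (A ⊕g B) (a + b) := by
  obtain ⟨SA, hA⟩ := hA
  obtain ⟨SB, hB⟩ := hB
  obtain ⟨S, hl, hr⟩ := scheme_join SA SB
  exact ⟨S, join_genus hA hB hl hr⟩

theorem UpN.sum_left [Finite V] [Finite W] {a b : ℕ} (hA : UpN A a) (hB : Up B b) :
    UpN (A ⊕g B) (a + b) := by
  obtain ⟨SA, hA, hA'⟩ := hA
  obtain ⟨SB, hB⟩ := hB
  obtain ⟨S, hl, hr⟩ := scheme_join SA SB
  exact ⟨S, join_genus hA hB hl hr, fun h => hA' (orient_left hl h)⟩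

theorem UpN.sum_right [Finite V] [Finite W] {a b : ℕ} (hA : Up A a) (hB : UpN B b) :
    UpN (A ⊕g B) (a + b) := by
  obtain ⟨SA, hA⟩ := hA
  obtain ⟨SB, hB, hB'⟩ := hB
  obtain ⟨S, hl, hr⟩ := scheme_join SA SB
  exact ⟨S, join_genus hA hB hl hr, fun h => hB' (orient_right hr h)⟩

/-- flags under an isomorphism -/
def flagIso (φ : A ≃g B) : Flag B ≃ Flag A where
  toFun f := (⟨(φ.symm f.1.fst, φ.symm f.1.snd), φ.symm.map_adj_iff.2 f.1.adj⟩, f.2)
  invFun f := (⟨(φ f.1.fst, φ f.1.snd), φ.map_adj_iff.2 f.1.adj⟩, f.2)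
  left_inv f := by
    refine Prod.ext (SimpleGraph.Dart.ext _ _ ?_) rfl
    exact Prod.ext (φ.apply_symm_apply _) (φ.apply_symm_apply _)
  right_inv f := by
    refine Prod.ext (SimpleGraph.Dart.ext _ _ ?_) rfl
    exact Prod.ext (φ.symm_apply_apply _) (φ.symm_apply_apply _)

theorem scheme_iso [Finite V] [Finite W] (φ : A ≃g B) (S : Scheme A) {g : ℕ}
    (h : S.EulerGenusLE g) :
    ∃ S' : Scheme B, S'.EulerGenusLE g ∧ (S'.Orientable → S.Orientable) := by
  obtain ⟨S', h1, h2⟩ := scheme_of_equiv (G := B) (a' := Flag.along) (g' := Flag.across)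
    (b' := S.corner) (vtx' := fun f => f.1.fst) (flagIso φ) φ.symm φ.symm.injective
    (fun f => rfl) (fun f => rfl) (fun f => rfl) S.abs
  refine ⟨S', ?_, fun h3 => ?_⟩
  · unfold Scheme.EulerGenusLE at h ⊢
    rw [Scheme.numFaces_eq] at h ⊢
    have e1 : Nat.card W = Nat.card V := Nat.card_congr φ.toEquiv.symm
    have e2 : Nat.card B.edgeSet = Nat.card A.edgeSet := by
      have h1 := card_flag (H := A)
      have h2 := card_flag (H := B)
      have h4 := Nat.card_congr (flagIso φ)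
      omega
    have e3 : Nat.card B.ConnectedComponent = Nat.card A.ConnectedComponent :=
      Nat.card_congr φ.connectedComponentEquiv.symm
    have e4 : Nat.card {v : W // ∀ w, ¬ B.Adj v w} = Nat.card {v : V // ∀ w, ¬ A.Adj v w} := by
      refine Nat.card_congr (Equiv.subtypeEquiv φ.toEquiv.symm (fun v => ?_))
      constructor
      · intro h w hw
        apply h (φ w)
        have := φ.map_adj_iff.2 hw
        change B.Adj (φ (φ.symm v)) (φ w) at this
        rwa [φ.apply_symm_apply] at this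
      · intro h w hw
        exact h (φ.symm w) (φ.symm.map_adj_iff.2 hw)
    rw [e1, e2, e3, e4, h1]
    exact h
  · obtain ⟨o, ho1, ho2, ho3⟩ := h2 h3
    exact ⟨o, fun f => ⟨ho1 f, ho2 f, ho3 f⟩⟩

theorem Up.iso [Finite V] [Finite W] (φ : A ≃g B) {g : ℕ} (h : Up A g) : Up B g := by
  obtain ⟨S, h⟩ := h
  obtain ⟨S', h1, _⟩ := scheme_iso φ S h
  exact ⟨S', h1⟩

theorem UpN.iso [Finite V] [Finite W] (φ : A ≃g B) {g : ℕ} (h : UpN A g) : UpN B g := by
  obtain ⟨S, h, h'⟩ := h
  obtain ⟨S', h1, h2⟩ := scheme_iso φ S h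
  exact ⟨S', h1, fun h3 => h' (h2 h3)⟩

end Pool.Agent.H64.Hop
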