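import Mathlib
import Pool.Agent.H64.Hop.Up
import Pool.Agent.H64.Hop.Tab

set_option autoImplicit false

/-!
Every scheme of `H14` has at most twelve faces.
-/

namespace Pool.Agent.H64.Hop

open SimpleGraph Pool.Agent.H20.Hop

theorem nbset (v : Fin 14) : H14.neighborSet v = Set.range (nb v) := by
  ext w
  rw [mem_neighborSet, H14_adj, adjB_iff_nb]
  rfl

theorem nbset_ncard (v : Fin 14) : (H14.neighborSet v).ncard = 4 := by
  rw [nbset, ← Set.image_univ, Set.ncard_image_of_injective _ (fun a b h => nb_inj v a b h),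
    Set.ncard_univ, Nat.card_eq_fintype_card, Fintype.card_fin]

theorem card_edge_H14 : Nat.card H14.edgeSet = 28 := by
  classical
  have h1 : ∑ v, H14.degree v = 2 * H14.edgeFinset.card := H14.sum_degrees_eq_twice_card_edges
  have h2 : ∀ v, H14.degree v = 4 := by
    intro v
    rw [← SimpleGraph.card_neighborSet_eq_degree, ← Nat.card_eq_fintype_card,
      Nat.card_coe_set_eq, nbset_ncard]
  simp only [h2, Finset.sum_const, Finset.card_univ, Fintype.card_fin, smul_eq_mul] at h1
  rw [Nat.card_eq_fintype_card, ← edgeFinset_card]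
  omega

/-- a corner at `v` between `y` and `z` -/
def Cor (S : Scheme H14) (v y z : Fin 14) : Prop :=
  ∃ f : Flag H14, f.1.fst = v ∧ f.1.snd = y ∧ (S.corner f).1.snd = z

theorem Cor.symm {S : Scheme H14} {v y z : Fin 14} (h : Cor S v y z) : Cor S v z y := by
  obtain ⟨f, h1, h2, h3⟩ := h
  exact ⟨S.corner f, (S.fst f).trans h1, h3, by rw [S.invol, h2]⟩

theorem exists_other (v y : Fin 14) : ∃ w, H14.Adj v w ∧ w ≠ y := by
  by_contra hn
  push Not at hn
  have h1 : (H14.neighborSet v).ncard ≤ 1 := by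
    refine le_trans (Set.ncard_le_ncard (t := {y}) (fun z hz => hn z hz)) ?_
    simp
  rw [nbset_ncard] at h1
  omega

theorem Cor.ne {S : Scheme H14} {v y z : Fin 14} (h : Cor S v y z) : y ≠ z := by
  obtain ⟨f, h1, h2, h3⟩ := h
  obtain ⟨w, hw, hwy⟩ := exists_other f.1.fst f.1.snd
  have := S.corner_dart_ne hw hwy
  rw [h2, h3] at this
  exact this.symm

theorem Cor.adj {S : Scheme H14} {v y z : Fin 14} (h : Cor S v y z) : H14.Adj v z := by
  obtain ⟨f, h1, _, h3⟩ := h
  have h4 := (S.corner f).1.adj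
  rw [S.fst, h1, h3] at h4
  exact h4

theorem flag_eq_or {f g : Flag H14} (h1 : f.1.fst = g.1.fst) (h2 : f.1.snd = g.1.snd) :
    f = g ∨ f = Flag.across g := by
  have hd : f.1 = g.1 := SimpleGraph.Dart.ext _ _ (Prod.ext h1 h2)
  rcases hb : f.2 with _ | _ <;> rcases hb' : g.2 with _ | _
  · exact Or.inl (Prod.ext hd (by rw [hb, hb']))
  · exact Or.inr (Prod.ext hd (by simp [Flag.across, hb, hb']))
  · exact Or.inr (Prod.ext hd (by simp [Flag.across, hb, hb']))
  · exact Or.inl (Prod.ext hd (by rw [hb, hb']))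

theorem across_ne (S : Scheme H14) (x : Flag H14) :
    (S.corner x).1.snd ≠ (S.corner x.across).1.snd :=
  S.corner_across_ne (by rw [nbset_ncard]; omega)

theorem flag_eq_of {S : Scheme H14} {f g : Flag H14} (h1 : f.1.fst = g.1.fst)
    (h2 : f.1.snd = g.1.snd) (h3 : (S.corner f).1.snd = (S.corner g).1.snd) : f = g := by
  rcases flag_eq_or h1 h2 with h | h
  · exact h
  · rw [h] at h3
    exact absurd h3.symm (across_ne S g)

theorem cor_two (S : Scheme H14) {v y : Fin 14} (h : H14.Adj v y) :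
    ∃ z1 z2, z1 ≠ z2 ∧ ∀ z, Cor S v y z ↔ (z = z1 ∨ z = z2) := by
  let f : Flag H14 := (⟨(v, y), h⟩, true)
  refine ⟨(S.corner f).1.snd, (S.corner f.across).1.snd, across_ne S f, fun z => ?_⟩
  constructor
  · rintro ⟨g, h1, h2, h3⟩
    rcases flag_eq_or (f := g) (g := f) h1 h2 with hg | hg
    · rw [hg] at h3
      exact Or.inl h3.symm
    · rw [hg] at h3
      exact Or.inr h3.symm
  · rintro (rfl | rfl)
    · exact ⟨f, rfl, rfl, rfl⟩
    · exact ⟨f.across, rfl, rfl, rfl⟩

theorem match3 (q : Fin 4 → Fin 4 → Bool) (hs : ∀ a b, q a b = q b a) (hi : ∀ a, q a a = false)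
    (h2 : ∀ a, ∃ b1 b2 : Fin 4, b1 ≠ b2 ∧ ∀ b, q a b = true ↔ (b = b1 ∨ b = b2)) :
    (q 0 1 = false ∧ q 2 3 = false) ∨ (q 0 2 = false ∧ q 1 3 = false) ∨
      (q 0 3 = false ∧ q 1 2 = false) := by
  have key : ∀ a, (q a 0).toNat + (q a 1).toNat + (q a 2).toNat + (q a 3).toNat = 2 := by
    intro a
    obtain ⟨b1, b2, hb, h⟩ := h2 a
    have e : ∀ b, q a b = decide (b = b1 ∨ b = b2) := by
      intro b
      rw [Bool.eq_iff_iff, h b, decide_eq_true_iff]
    rw [e, e, e, e]
    clear e h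
    revert b1 b2
    decide
  have k0 := key 0
  have k1 := key 1
  have k2 := key 2
  have k3 := key 3
  rw [hi 0] at k0
  rw [hi 1, hs 1 0] at k1
  rw [hi 2, hs 2 0, hs 2 1] at k2
  rw [hi 3, hs 3 0, hs 3 1, hs 3 2] at k3
  revert k0 k1 k2 k3
  cases q 0 1 <;> cases q 0 2 <;> cases q 0 3 <;> cases q 1 2 <;> cases q 1 3 <;>
    cases q 2 3 <;> simp

/-- at every vertex some matching of the neighbours has no corner -/
theorem exists_match (S : Scheme H14) (v : Fin 14) :
    ∃ c : Fin 3, ∀ a b, opp c a b = true → ¬ Cor S v (nb v a) (nb v b) := by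
  classical
  have hadj : ∀ a, H14.Adj v (nb v a) := fun a => (adjB_iff_nb _ _).2 ⟨a, rfl⟩
  have h := match3 (fun a b => decide (Cor S v (nb v a) (nb v b)))
    (fun a b => decide_eq_decide.2 ⟨Cor.symm, Cor.symm⟩)
    (fun a => decide_eq_false (fun h => h.ne rfl))
    (fun a => by
      obtain ⟨z1, z2, hz, h⟩ := cor_two S (hadj a)
      have c1 : Cor S v (nb v a) z1 := (h z1).2 (Or.inl rfl)
      have c2 : Cor S v (nb v a) z2 := (h z2).2 (Or.inr rfl)
      obtain ⟨b1, rfl⟩ := (adjB_iff_nb _ _).1 c1.adj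
      obtain ⟨b2, rfl⟩ := (adjB_iff_nb _ _).1 c2.adj
      refine ⟨b1, b2, fun e => hz (congrArg _ e), fun b => ?_⟩
      rw [decide_eq_true_iff, h]
      constructor
      · rintro (e | e)
        · exact Or.inl (nb_inj _ _ _ e)
        · exact Or.inr (nb_inj _ _ _ e)
      · rintro (rfl | rfl)
        · exact Or.inl rfl
        · exact Or.inr rfl)
  simp only [decide_eq_false_iff_not] at h
  rcases h with ⟨h1, h2⟩ | ⟨h1, h2⟩ | ⟨h1, h2⟩
  · refine ⟨0, fun a b hab => ?_⟩
    simp only [opp, Bool.or_eq_true, Bool.and_eq_true, beq_iff_eq] at hab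
    rcases hab with ⟨rfl, rfl⟩ | ⟨rfl, rfl⟩
    · exact h1
    · exact h2
  · refine ⟨1, fun a b hab => ?_⟩
    simp only [opp, Bool.or_eq_true, Bool.and_eq_true, beq_iff_eq] at hab
    rcases hab with ⟨rfl, rfl⟩ | ⟨rfl, rfl⟩
    · exact h1
    · exact h2
  · refine ⟨2, fun a b hab => ?_⟩
    simp only [opp, Bool.or_eq_true, Bool.and_eq_true, beq_iff_eq] at hab
    rcases hab with ⟨rfl, rfl⟩ | ⟨rfl, rfl⟩
    · exact h1
    · exact h2

section quad

variable (S : Scheme H14)

/-- the vertices of the walk -/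
def x0 (f : Flag H14) : Fin 14 := f.1.fst
def x1 (f : Flag H14) : Fin 14 := f.1.snd
noncomputable def x2 (f : Flag H14) : Fin 14 := (S.next f).1.snd
noncomputable def x3 (f : Flag H14) : Fin 14 := (S.next (S.next f)).1.snd

/-- number of the four-cycle of a flag whose face has length four -/
noncomputable def cyn (f : Flag H14) : ℕ := cyc (x0 f) (x1 f) (x2 S f) (x3 S f)

variable {S}

theorem quad_data {f : Flag H14} (h : S.next^[4] f = f) :
    adjB (x0 f) (x1 f) = true ∧ adjB (x1 f) (x2 S f) = true ∧ adjB (x2 S f) (x3 S f) = true ∧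
      adjB (x3 S f) (x0 f) = true ∧ x2 S f ≠ x0 f ∧ x3 S f ≠ x1 f ∧
      (S.corner f).1.snd = x3 S f := by
  have h' : S.next (S.next (S.next (S.next f))) = f := h
  have e1 := S.next_fst f
  have e2 := S.next_fst (S.next f)
  have e3 := S.next_fst (S.next (S.next f))
  have e4 := S.next_fst (S.next (S.next (S.next f)))
  rw [h'] at e4
  have hc : S.corner f = Flag.along (S.next (S.next (S.next f))) := by
    have h5 : S.corner (Flag.along (S.next (S.next (S.next f)))) = f := h'
    have h6 := S.invol (Flag.along (S.next (S.next (S.next f))))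
    rw [h5] at h6
    exact h6
  have h2 : ∀ v, 2 ≤ (H14.neighborSet v).ncard := fun v => by rw [nbset_ncard]; omega
  refine ⟨f.1.adj, ?_, ?_, ?_, ?_, ?_, ?_⟩
  · have h5 := (S.next f).1.adj
    rw [e1] at h5
    exact h5
  · have h5 := (S.next (S.next f)).1.adj
    rw [e2] at h5
    exact h5
  · have h5 := (S.next (S.next (S.next f))).1.adj
    rw [e3, ← e4] at h5
    exact h5
  · have h5 := S.iter_two_fst_ne h2 f
    have h6 : S.next^[2] f = S.next (S.next f) := rfl
    rw [h6, e2] at h5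
    exact h5
  · have h5 := S.iter_two_fst_ne h2 (S.next f)
    have h6 : S.next^[2] (S.next f) = S.next (S.next (S.next f)) := rfl
    rw [h6, e3, e1] at h5
    exact h5
  · rw [hc]
    change (S.next (S.next (S.next f))).1.fst = _
    rw [e3]
    rfl

theorem quad_cor {f : Flag H14} (h : S.next^[4] f = f) :
    Cor S (x0 f) (x1 f) (x3 S f) ∧ Cor S (x1 f) (x0 f) (x2 S f) ∧
      Cor S (x2 S f) (x1 f) (x3 S f) ∧ Cor S (x3 S f) (x2 S f) (x0 f) := by
  have h' : S.next (S.next (S.next (S.next f))) = f := h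
  have e1 := S.next_fst f
  have e2 := S.next_fst (S.next f)
  have e3 := S.next_fst (S.next (S.next f))
  have e4 := S.next_fst (S.next (S.next (S.next f)))
  rw [h'] at e4
  refine ⟨⟨f, rfl, rfl, (quad_data h).2.2.2.2.2.2⟩, ⟨Flag.along f, rfl, rfl, rfl⟩,
    ⟨Flag.along (S.next f), rfl, ?_, rfl⟩,
    ⟨Flag.along (S.next (S.next f)), rfl, ?_, ?_⟩⟩
  · exact e1
  · exact e2
  · change (S.next (S.next (S.next f))).1.snd = _
    exact e4.symm

/-- the four-cycle of a face of length four is not killed -/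
theorem not_killed {f : Flag H14} (h : S.next^[4] f = f) (c : Fin 14 → Fin 3)
    (hc : ∀ v, ∀ a b, opp (c v) a b = true → ¬ Cor S v (nb v a) (nb v b)) (v : Fin 14) :
    (mask v (c v)).testBit (cyn S f) = false := by
  obtain ⟨a1, a2, a3, a4, n1, n2, _⟩ := quad_data h
  obtain ⟨c1, c2, c3, c4⟩ := quad_cor h
  have hg := good_of _ _ _ _ a1 a2 a3 a4 n1 n2
  unfold good at hg
  simp only [Bool.and_eq_true, List.all_eq_true] at hg
  have h1 := hg.2 v (List.mem_finRange _) (c v) (List.mem_finRange _)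
  rw [Bool.or_eq_true] at h1
  rcases h1 with h1 | h1
  · rw [Bool.not_eq_true'] at h1
    exact h1
  · exfalso
    rw [List.any_eq_true] at h1
    obtain ⟨a, _, h1⟩ := h1
    rw [List.any_eq_true] at h1
    obtain ⟨b, _, h1⟩ := h1
    rw [Bool.and_eq_true] at h1
    obtain ⟨h1, h2⟩ := h1
    apply hc v a b h1
    simp only [Bool.or_eq_true, Bool.and_eq_true, beq_iff_eq] at h2
    rcases h2 with ((⟨rfl, ⟨e1, e2⟩ | ⟨e1, e2⟩⟩ | ⟨rfl, ⟨e1, e2⟩ | ⟨e1, e2⟩⟩) |
      ⟨rfl, ⟨e1, e2⟩ | ⟨e1, e2⟩⟩) | ⟨rfl, ⟨e1, e2⟩ | ⟨e1, e2⟩⟩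
    · rw [e1, e2]; exact c1
    · rw [e1, e2]; exact c1.symm
    · rw [e1, e2]; exact c2
    · rw [e1, e2]; exact c2.symm
    · rw [e1, e2]; exact c3
    · rw [e1, e2]; exact c3.symm
    · rw [e1, e2]; exact c4.symm
    · rw [e1, e2]; exact c4

theorem cyn_facts {f : Flag H14} (h : S.next^[4] f = f) :
    cyn S f < 21 ∧ isDart (cyn S f) (x0 f) (x1 f) = true ∧
      third (cyn S f) (x0 f) (x1 f) = some (x3 S f) := by
  obtain ⟨a1, a2, a3, a4, n1, n2, _⟩ := quad_data h
  have hg := good_of _ _ _ _ a1 a2 a3 a4 n1 n2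
  unfold good at hg
  simp only [Bool.and_eq_true, decide_eq_true_eq, beq_iff_eq] at hg
  exact ⟨hg.1.1.1, hg.1.1.2, hg.1.2⟩

end quad

open Classical in
/-- at most eighty flags are in faces of length four -/
theorem card_quad (S : Scheme H14) [Fintype (Flag H14)] :
    (Finset.univ.filter (fun f : Flag H14 => S.next^[4] f = f)).card ≤ 80 := by
  choose c hc using exists_match S
  have h11 := eleven_le (fun v => if h : v < 14 then (c ⟨v, h⟩).1 else 0) (fun v hv => by
    simp only [hv, dif_pos]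
    exact (c ⟨v, hv⟩).2)
  set K := killed (fun v => if h : v < 14 then (c ⟨v, h⟩).1 else 0) (List.range 14) 0 with hK
  have hnk : ∀ f : Flag H14, S.next^[4] f = f → K.testBit (cyn S f) = false := by
    intro f hf
    by_contra hn
    rw [Bool.not_eq_false] at hn
    rcases killed_testBit _ _ _ _ hn with h | ⟨v, hv, h⟩
    · rw [Nat.zero_testBit] at h
      cases h
    · rw [List.mem_range] at hv
      simp only [hv, dif_pos] at h
      have := not_killed hf c hc ⟨v, hv⟩
      change (mask v _).testBit _ = false at this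
      rw [this] at h
      cases h
  -- the target
  let D : Finset ((_ : Fin 21) × (Fin 14 × Fin 14)) :=
    (Finset.univ.filter (fun j : Fin 21 => K.testBit j.1 = false)).sigma (fun j =>
      Finset.univ.filter (fun p : Fin 14 × Fin 14 => isDart j.1 p.1 p.2 = true))
  have hD : D.card ≤ 80 := by
    rw [Finset.card_sigma]
    have h1 : ∑ j ∈ Finset.univ.filter (fun j : Fin 21 => K.testBit j.1 = false),
        (Finset.univ.filter (fun p : Fin 14 × Fin 14 => isDart j.1 p.1 p.2 = true)).card ≤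
        ∑ j ∈ Finset.univ.filter (fun j : Fin 21 => K.testBit j.1 = false), 8 :=
      Finset.sum_le_sum (fun j _ => card_isDart j)
    rw [Finset.sum_const, smul_eq_mul] at h1
    have h2 : (Finset.univ.filter (fun j : Fin 21 => K.testBit j.1 = false)).card ≤ 10 := by
      have h3 : (Finset.univ.filter (fun j : Fin 21 => K.testBit j.1 = false)).card +
          (Finset.univ.filter (fun j : Fin 21 => ¬ (K.testBit j.1 = false))).card = 21 := by
        rw [Finset.card_filter_add_card_filter_not, Finset.card_univ, Fintype.card_fin]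
      have h4 : (Finset.univ.filter (fun j : Fin 21 => ¬ (K.testBit j.1 = false))).card =
          ((Finset.range 21).filter (fun j => K.testBit j)).card := by
        refine Finset.card_bij (fun j _ => j.1) (fun j hj => ?_) (fun j _ k _ h => Fin.ext h)
          (fun j hj => ?_)
        · rw [Finset.mem_filter] at hj ⊢
          exact ⟨Finset.mem_range.2 j.2, by simpa using hj.2⟩
        · rw [Finset.mem_filter, Finset.mem_range] at hj
          exact ⟨⟨j, hj.1⟩, Finset.mem_filter.2 ⟨Finset.mem_univ _, by simpa using hj.2⟩, rfl⟩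
      rw [← pop_eq] at h4
      omega
    omega
  refine le_trans ?_ hD
  refine Finset.card_le_card_of_injOn
    (fun f => if h : cyn S f < 21 then ⟨⟨cyn S f, h⟩, (x0 f, x1 f)⟩ else ⟨0, (0, 0)⟩)
    (fun f hf => ?_) ?_
  · rw [Finset.mem_coe, Finset.mem_filter] at hf
    obtain ⟨h1, h2, h3⟩ := cyn_facts hf.2
    simp only [h1, dif_pos]
    rw [Finset.mem_coe, Finset.mem_sigma]
    refine ⟨Finset.mem_filter.2 ⟨Finset.mem_univ _, hnk f hf.2⟩,
      Finset.mem_filter.2 ⟨Finset.mem_univ _, h2⟩⟩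
  · intro f hf g hg hfg
    rw [Finset.mem_coe, Finset.mem_filter] at hf hg
    obtain ⟨h1, h2, h3⟩ := cyn_facts hf.2
    obtain ⟨g1, g2, g3⟩ := cyn_facts hg.2
    simp only [h1, g1, dif_pos] at hfg
    rw [Sigma.mk.injEq] at hfg
    obtain ⟨e1, e2⟩ := hfg
    have e3 : cyn S f = cyn S g := congrArg Fin.val e1
    have e4 : (x0 f, x1 f) = (x0 g, x1 g) := eq_of_heq e2
    have e5 : x0 f = x0 g := congrArg Prod.fst e4
    have e6 : x1 f = x1 g := congrArg Prod.snd e4
    rw [e3, e5, e6, g3] at h3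
    have e7 : x3 S g = x3 S f := Option.some.inj h3
    refine flag_eq_of (S := S) e5 e6 ?_
    rw [(quad_data hf.2).2.2.2.2.2.2, (quad_data hg.2).2.2.2.2.2.2, e7]

end Pool.Agent.H64.Hop
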