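import Mathlib
import Pool.Agent.H64.Hop.Low

set_option autoImplicit false

/-!
`H14` has Euler genus at least four.
-/

namespace Pool.Agent.H64.Hop

open SimpleGraph Pool.Agent.H20.Hop

/-- Counting over classes with weights. -/
theorem count_weight' {Ω : Type*} [Fintype Ω] (a b : Ω → Ω) (f : Ω → ℤ) (K m : ℤ)
    (h : ∀ x, K + ∑ y, (open Classical in if Rel a b x y then f y else 0) ≤
      m * (Set.ncard {y | Rel a b x y} : ℤ)) :
    K * (norb a b : ℤ) + ∑ y, f y ≤ m * Fintype.card Ω := by
  classical
  let r : Ω → Ω → Prop := fun x y => y = a x ∨ y = b x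
  have : Fintype (Quot r) := Fintype.ofFinite _
  have hrel : ∀ x y, Quot.mk r x = Quot.mk r y ↔ Rel a b x y := fun x y => Quot.eq
  have h1 : (norb a b : ℤ) = ∑ _q : Quot r, (1 : ℤ) := by
    rw [Finset.sum_const, Finset.card_univ, nsmul_eq_mul, mul_one]
    unfold norb
    rw [Nat.card_eq_fintype_card]
  have h2 : ∑ y, f y = ∑ q : Quot r, ∑ y ∈ Finset.univ.filter (fun y => Quot.mk r y = q), f y := by
    exact (Finset.sum_fiberwise Finset.univ (fun y => Quot.mk r y) f).symm
  have h3 : (Fintype.card Ω : ℤ) =
      ∑ q : Quot r, ((Finset.univ.filter (fun y => Quot.mk r y = q)).card : ℤ) := by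
    have := Finset.card_eq_sum_card_fiberwise (s := (Finset.univ : Finset Ω))
      (t := (Finset.univ : Finset (Quot r))) (f := fun y => Quot.mk r y)
      (fun x _ => Finset.mem_coe.2 (Finset.mem_univ _))
    rw [← Finset.card_univ, this]
    push_cast
    rfl
  rw [h1, h2, h3, Finset.mul_sum, Finset.mul_sum, ← Finset.sum_add_distrib]
  refine Finset.sum_le_sum (fun q _ => ?_)
  obtain ⟨x, rfl⟩ := Quot.exists_rep q
  have hx := h x
  have e1 : ∑ y, (open Classical in if Rel a b x y then f y else 0) =
      ∑ y ∈ Finset.univ.filter (fun y => Quot.mk r y = Quot.mk r x), f y := by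
    rw [Finset.sum_filter]
    refine Finset.sum_congr rfl (fun y _ => ?_)
    have : (Quot.mk r y = Quot.mk r x) ↔ Rel a b x y := by
      rw [hrel]
      exact ⟨Rel.symm, Rel.symm⟩
    simp only [this]
  have e2 : Set.ncard {y | Rel a b x y} =
      (Finset.univ.filter (fun y => Quot.mk r y = Quot.mk r x)).card := by
    rw [← Set.ncard_coe_finset]
    congr 1
    ext y
    simp only [Finset.coe_filter, Finset.mem_univ, true_and, Set.mem_ofPred_eq]
    rw [hrel]
    exact ⟨Rel.symm, Rel.symm⟩
  rw [e1, e2] at hx
  linarith

/-- sides of the bipartition -/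
theorem bip : ∀ x y : Fin 14, adjB x y = true → (x.1 < 7 ↔ ¬ y.1 < 7) := by decide +kernel

theorem next_side (S : Scheme H14) (x : Flag H14) :
    (x.1.fst.1 < 7 ↔ ¬ (S.next x).1.fst.1 < 7) := by
  rw [S.next_fst]
  exact bip _ _ x.1.adj

theorem twelve_le_fsize (S : Scheme H14) {x : Flag H14} (h4 : S.next^[4] x ≠ x) :
    12 ≤ S.fsize x := by
  have h2 : ∀ v, 2 ≤ (H14.neighborSet v).ncard := fun v => by rw [nbset_ncard]; omega
  have s1 := next_side S x
  have s2 := next_side S (S.next x)
  have s3 := next_side S (S.next (S.next x))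
  have s4 := next_side S (S.next (S.next (S.next x)))
  have s5 := next_side S (S.next (S.next (S.next (S.next x))))
  have h := S.two_mul_le_fsize (x := x) (k := 6) (fun j h0 h5 => by
    have hj : j = 1 ∨ j = 2 ∨ j = 3 ∨ j = 4 ∨ j = 5 := by omega
    rcases hj with rfl | rfl | rfl | rfl | rfl
    · exact S.iter_one_ne x
    · exact fun he => S.iter_two_fst_ne h2 x (by rw [he])
    · intro he
      have he' : S.next (S.next (S.next x)) = x := he
      rw [he'] at s3
      tauto
    · exact h4
    · intro he
      have he' : S.next (S.next (S.next (S.next (S.next x)))) = x := he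
      rw [he'] at s5
      tauto)
  omega

theorem eight_le (S : Scheme H14) (x : Flag H14) : 8 ≤ S.fsize x := by
  have h2 : ∀ v, 2 ≤ (H14.neighborSet v).ncard := fun v => by rw [nbset_ncard]; omega
  refine S.eight_le_fsize h2 (fun u v w h1 h2 h3 => ?_) x
  have a1 := bip _ _ h1
  have a2 := bip _ _ h2
  have a3 := bip _ _ h3
  tauto

theorem norb_le (S : Scheme H14) : norb Flag.along S.corner ≤ 12 := by
  classical
  have := Fintype.ofFinite (Flag H14)
  have hq := card_quad S
  have main := count_weight' (Flag.along : Flag H14 → Flag H14) S.corner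
    (fun y => if S.next^[4] y = y then (-1 : ℤ) else 0) 24 2 (fun x => by
      have hsize : Set.ncard {y | Rel Flag.along S.corner x y} = S.fsize x := rfl
      have e1 : ∑ y, (if Rel Flag.along S.corner x y then
          (if S.next^[4] y = y then (-1 : ℤ) else 0) else 0) =
          -((Finset.univ.filter (fun y => Rel Flag.along S.corner x y ∧
            S.next^[4] y = y)).card : ℤ) := by
        rw [Finset.card_filter]
        push_cast
        rw [← Finset.sum_neg_distrib]
        refine Finset.sum_congr rfl (fun y _ => ?_)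
        by_cases h1 : Rel Flag.along S.corner x y
        · rw [if_pos h1]
          by_cases h2 : S.next^[4] y = y
          · rw [if_pos h2, if_pos ⟨h1, h2⟩]
          · rw [if_neg h2, if_neg (fun h => h2 h.2), neg_zero]
        · rw [if_neg h1, if_neg (fun h => h1 h.1), neg_zero]
      rw [hsize, e1]
      by_cases h12 : 12 ≤ S.fsize x
      · have : (0 : ℤ) ≤ ((Finset.univ.filter (fun y => Rel Flag.along S.corner x y ∧
            S.next^[4] y = y)).card : ℤ) := Int.natCast_nonneg _
        have h12' : (12 : ℤ) ≤ S.fsize x := by exact_mod_cast h12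
        linarith
      · have h8 := eight_le S x
        have e2 : (Finset.univ.filter (fun y => Rel Flag.along S.corner x y ∧
            S.next^[4] y = y)).card = S.fsize x := by
          rw [← hsize, ← Set.ncard_coe_finset]
          congr 1
          ext y
          simp only [Finset.coe_filter, Finset.mem_univ, true_and, Set.mem_ofPred_eq]
          refine ⟨fun h => h.1, fun h => ⟨h, ?_⟩⟩
          by_contra hn
          have h3 := twelve_le_fsize S hn
          have hxy : S.fsize x = S.fsize y := by
            unfold Scheme.fsize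
            congr 1
            ext z
            exact ⟨fun hz => h.symm.trans hz, fun hz => h.trans hz⟩
          omega
        rw [e2]
        have h8' : (8 : ℤ) ≤ S.fsize x := by exact_mod_cast h8
        linarith)
  have e3 : ∑ y : Flag H14, (if S.next^[4] y = y then (-1 : ℤ) else 0) =
      -((Finset.univ.filter (fun y : Flag H14 => S.next^[4] y = y)).card : ℤ) := by
    rw [Finset.card_filter]
    push_cast
    rw [← Finset.sum_neg_distrib]
    refine Finset.sum_congr rfl (fun y _ => ?_)
    by_cases h2 : S.next^[4] y = y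
    · rw [if_pos h2, if_pos h2]
    · rw [if_neg h2, if_neg h2, neg_zero]
  rw [e3, ← Nat.card_eq_fintype_card, card_flag, card_edge_H14] at main
  have hq' : ((Finset.univ.filter (fun y : Flag H14 => S.next^[4] y = y)).card : ℤ) ≤ 80 := by
    exact_mod_cast hq
  push_cast at main
  omega

theorem low_H14 : Low H14 4 := by
  intro S
  have h1 := norb_le S
  have h2 : IsEmpty {v : Fin 14 // ∀ w, ¬ H14.Adj v w} := by
    refine ⟨fun v => ?_⟩
    obtain ⟨w, hw, _⟩ := exists_other v.1 v.1
    exact v.2 w hw
  have h3 : 0 < Nat.card H14.ConnectedComponent := by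
    have : Finite H14.ConnectedComponent := Quot.finite _
    have : Nonempty H14.ConnectedComponent := ⟨H14.connectedComponentMk 0⟩
    exact Nat.card_pos
  have e1 : Nat.card (Fin 14) = 14 := by rw [Nat.card_eq_fintype_card, Fintype.card_fin]
  have e2 : Nat.card {v : Fin 14 // ∀ w, ¬ H14.Adj v w} = 0 := Nat.card_of_isEmpty
  rw [Scheme.numFaces_eq, e2, card_edge_H14, e1]
  omega

end Pool.Agent.H64.Hop
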