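import Mathlib
import Pool.Agent.H64.Hop.Up
import Pool.Agent.H20.Hop.Contr

set_option autoImplicit false

/-!
Deletion and contraction of one edge in a disjoint union, and under isomorphisms.
-/

namespace Pool.Agent.H64.Hop

open SimpleGraph Pool.Agent.H20.Hop

variable {V W : Type*} {A : SimpleGraph V} {B : SimpleGraph W}

theorem del_sum_left (u v : V) :
    (A ⊕g B).deleteEdges {s(Sum.inl u, Sum.inl v)} = (A.deleteEdges {s(u, v)}) ⊕g B := by
  ext x y
  rcases x with x | x <;> rcases y with y | y <;> simp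

theorem del_sum_right (u v : W) :
    (A ⊕g B).deleteEdges {s(Sum.inr u, Sum.inr v)} = A ⊕g (B.deleteEdges {s(u, v)}) := by
  ext x y
  rcases x with x | x <;> rcases y with y | y <;> simp

/-- contraction in the left summand -/
def contrSumLeft (A : SimpleGraph V) (B : SimpleGraph W) (u v : V) :
    (contr A u v) ⊕g B ≃g contr (A ⊕g B) (Sum.inl u) (Sum.inl v) where
  toFun x := Sum.elim (fun a => ⟨Sum.inl a.1, fun h => a.2 (Sum.inl.inj h)⟩)
    (fun b => ⟨Sum.inr b, fun h => by cases h⟩) x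
  invFun x := match x with
    | ⟨Sum.inl a, h⟩ => Sum.inl ⟨a, fun e => h (congrArg Sum.inl e)⟩
    | ⟨Sum.inr b, _⟩ => Sum.inr b
  left_inv x := by rcases x with x | x <;> rfl
  right_inv x := by
    obtain ⟨x | x, h⟩ := x <;> rfl
  map_rel_iff' := by
    rintro (x | x) (y | y)
    · simp [contr, Subtype.ext_iff]
    · simp [contr]
    · simp [contr]
    · simp only [contr, Equiv.coe_fn_mk, Sum.elim_inr, ne_eq, Subtype.mk.injEq, Sum.inr.injEq,
        sum_adj_inr, reduceCtorEq, false_and, or_false]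
      constructor
      · exact fun h => h.2
      · exact fun h => ⟨h.ne, h⟩

/-- contraction in the right summand -/
def contrSumRight (A : SimpleGraph V) (B : SimpleGraph W) (u v : W) :
    A ⊕g (contr B u v) ≃g contr (A ⊕g B) (Sum.inr u) (Sum.inr v) where
  toFun x := Sum.elim (fun b => ⟨Sum.inl b, fun h => by cases h⟩)
    (fun a => ⟨Sum.inr a.1, fun h => a.2 (Sum.inr.inj h)⟩) x
  invFun x := match x with
    | ⟨Sum.inr a, h⟩ => Sum.inr ⟨a, fun e => h (congrArg Sum.inr e)⟩
    | ⟨Sum.inl b, _⟩ => Sum.inl b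
  left_inv x := by rcases x with x | x <;> rfl
  right_inv x := by
    obtain ⟨x | x, h⟩ := x <;> rfl
  map_rel_iff' := by
    rintro (x | x) (y | y)
    · simp only [contr, Equiv.coe_fn_mk, Sum.elim_inl, ne_eq, Subtype.mk.injEq, Sum.inl.injEq,
        sum_adj_inl, reduceCtorEq, false_and, or_false]
      constructor
      · exact fun h => h.2
      · exact fun h => ⟨h.ne, h⟩
    · simp [contr]
    · simp [contr]
    · simp [contr, Subtype.ext_iff]

/-- deletion under an isomorphism -/
def delIso (φ : A ≃g B) {u v : V} {u' v' : W} (hu : φ u = u') (hv : φ v = v') :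
    A.deleteEdges {s(u, v)} ≃g B.deleteEdges {s(u', v')} where
  toEquiv := φ.toEquiv
  map_rel_iff' := by
    intro x y
    subst hu
    subst hv
    change (B.deleteEdges {s(φ u, φ v)}).Adj (φ x) (φ y) ↔ _
    rw [del_adj_iff, del_adj_iff, φ.map_adj_iff]
    unfold delE
    rw [φ.injective.eq_iff, φ.injective.eq_iff, φ.injective.eq_iff, φ.injective.eq_iff]

/-- contraction under an isomorphism -/
def contrIso (φ : A ≃g B) {u v : V} {u' v' : W} (hu : φ u = u') (hv : φ v = v') :
    contr A u v ≃g contr B u' v' where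
  toEquiv := Equiv.subtypeEquiv φ.toEquiv (fun x => by
    subst hv
    exact not_congr φ.injective.eq_iff.symm)
  map_rel_iff' := by
    intro x y
    subst hu
    subst hv
    change (_ ≠ _ ∧ (B.Adj (φ x.1) (φ y.1) ∨ (φ x.1 = φ u ∧ B.Adj (φ v) (φ y.1)) ∨
      (φ y.1 = φ u ∧ B.Adj (φ v) (φ x.1)))) ↔ (x ≠ y ∧ (A.Adj x.1 y.1 ∨ (x.1 = u ∧ A.Adj v y.1) ∨
      (y.1 = u ∧ A.Adj v x.1)))
    rw [φ.map_adj_iff, φ.map_adj_iff, φ.map_adj_iff, φ.injective.eq_iff, φ.injective.eq_iff]
    refine and_congr_left (fun _ => ?_)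
    rw [Ne, Ne, Equiv.apply_eq_iff_eq]

end Pool.Agent.H64.Hop
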