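import Mathlib
import Pool.Agent.H64.Hop.Up

set_option autoImplicit false

/-!
Schemes of graphs on `Fin n` from tables.
-/

namespace Pool.Agent.H64.Hop

open SimpleGraph Pool.Agent.H20.Hop

/-- tables of a scheme: adjacency and corners -/
structure Dat (n : ℕ) where
  /-- adjacency -/
  adj : Fin n → Fin n → Bool
  /-- the corner at `v` next to the flag `(v, w, s)` -/
  cor : Fin n → Fin n → Bool → Fin n × Bool

/-- the tables are correct -/
structure Dat.Ok {n : ℕ} (D : Dat n) : Prop where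
  c1 : ∀ v w s, D.adj v w = true → D.adj v (D.cor v w s).1 = true
  c2 : ∀ v w s, D.adj v w = true → D.cor v (D.cor v w s).1 (D.cor v w s).2 = (w, s)
  c3 : ∀ v w s, D.adj v w = true → D.cor v w s ≠ (w, s)
  c4 : ∀ v w w', D.adj v w = true → D.adj v w' = true →
    ∃ k : Fin 7, ((fun x : Fin n × Bool => D.cor v x.1 (!x.2))^[k.1] (w, true)).1 = w'

/-- `S` is the scheme of the tables -/
def Dat.IsOf {n : ℕ} (D : Dat n) {G : SimpleGraph (Fin n)} (S : Scheme G) : Prop :=
  ∀ f : Flag G, (S.corner f).1.fst = f.1.fst ∧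
    (S.corner f).1.snd = (D.cor f.1.fst f.1.snd f.2).1 ∧
    (S.corner f).2 = (D.cor f.1.fst f.1.snd f.2).2

theorem flag_ext {V : Type*} {G : SimpleGraph V} {f g : Flag G} (h1 : f.1.fst = g.1.fst)
    (h2 : f.1.snd = g.1.snd) (h3 : f.2 = g.2) : f = g :=
  Prod.ext (SimpleGraph.Dart.ext _ _ (Prod.ext h1 h2)) h3

theorem Dat.scheme {n : ℕ} (D : Dat n) (hD : D.Ok) (G : SimpleGraph (Fin n))
    (hG : ∀ x y, G.Adj x y ↔ D.adj x y = true) : ∃ S : Scheme G, D.IsOf S := by
  let c : Flag G → Flag G := fun f =>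
    (⟨(f.1.fst, (D.cor f.1.fst f.1.snd f.2).1),
      (hG _ _).2 (hD.c1 _ _ _ ((hG _ _).1 f.1.adj))⟩, (D.cor f.1.fst f.1.snd f.2).2)
  have hinv : ∀ f, c (c f) = f := by
    intro f
    have h := hD.c2 _ _ f.2 ((hG _ _).1 f.1.adj)
    exact flag_ext rfl (congrArg (fun x : Fin n × Bool => x.1) h)
      (congrArg (fun x : Fin n × Bool => x.2) h)
  refine ⟨⟨c, hinv, ?_, fun f => rfl, ?_⟩, fun f => ⟨rfl, rfl, rfl⟩⟩
  · intro f h
    apply hD.c3 _ _ f.2 ((hG _ _).1 f.1.adj)
    exact Prod.ext (congrArg (fun g : Flag G => g.1.snd) h) (congrArg (fun g : Flag G => g.2) h)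
  · have hside : ∀ (f g : Flag G), f.1.fst = g.1.fst → f.1.snd = g.1.snd →
        Relation.EqvGen (fun x y => y = Flag.across x ∨ y = c x) f g := by
      intro f g h1 h2
      by_cases h3 : f.2 = g.2
      · rw [flag_ext h1 h2 h3]
        exact Relation.EqvGen.refl _
      · refine Relation.EqvGen.rel _ _ (Or.inl (flag_ext h1.symm h2.symm ?_))
        change g.2 = !f.2
        rcases hf : f.2 <;> rcases hg : g.2 <;> simp_all
    intro f g hfg
    obtain ⟨k, hk⟩ := hD.c4 _ _ _ ((hG _ _).1 f.1.adj) (hfg ▸ (hG _ _).1 g.1.adj)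
    let f0 : Flag G := (f.1, true)
    have hit : ∀ j : ℕ, Relation.EqvGen (fun x y => y = Flag.across x ∨ y = c x) f0
        ((fun x => c (Flag.across x))^[j] f0) ∧
        ((fun x => c (Flag.across x))^[j] f0).1.fst = f.1.fst ∧
        (((fun x => c (Flag.across x))^[j] f0).1.snd, ((fun x => c (Flag.across x))^[j] f0).2) =
          (fun x : Fin n × Bool => D.cor f.1.fst x.1 (!x.2))^[j] (f.1.snd, true) := by
      intro j
      induction j with
      | zero => exact ⟨Relation.EqvGen.refl _, rfl, rfl⟩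
      | succ j ih =>
        obtain ⟨i1, i2, i3⟩ := ih
        rw [Function.iterate_succ_apply', Function.iterate_succ_apply', ← i3]
        refine ⟨?_, i2, ?_⟩
        · exact (i1.trans _ _ _ (Relation.EqvGen.rel _ _ (Or.inl rfl))).trans _ _ _
            (Relation.EqvGen.rel _ _ (Or.inr rfl))
        · change ((D.cor ((fun x => c (Flag.across x))^[j] f0).1.fst _ _).1, _) = _
          rw [i2]
          change (_, (D.cor ((fun x => c (Flag.across x))^[j] f0).1.fst _ _).2) = _
          rw [i2]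
          rfl
    obtain ⟨i1, i2, i3⟩ := hit k.1
    have i4 := congrArg Prod.fst i3
    rw [hk] at i4
    exact ((hside f f0 rfl rfl).trans _ _ _ i1).trans _ _ _ (hside _ _ (i2.trans hfg) i4)

theorem Dat.faces {n : ℕ} (D : Dat n) {G : SimpleGraph (Fin n)}
    (hG : ∀ x y, G.Adj x y ↔ D.adj x y = true) {S : Scheme G} (hS : D.IsOf S) {F : ℕ}
    (lab : Fin n → Fin n → Bool → Fin F)
    (h5 : ∀ v w s, D.adj v w = true → lab w v s = lab v w s)
    (h6 : ∀ v w s, D.adj v w = true → lab v (D.cor v w s).1 (D.cor v w s).2 = lab v w s)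
    (h7 : ∀ j, ∃ v w, ∃ s, D.adj v w = true ∧ lab v w s = j) :
    F ≤ norb Flag.along S.corner := by
  let q : Quot (fun x y : Flag G => y = Flag.along x ∨ y = S.corner x) → Fin F :=
    Quot.lift (fun f => lab f.1.fst f.1.snd f.2) (by
      rintro f g (h | h)
      · rw [h]
        exact (h5 _ _ _ ((hG _ _).1 f.1.adj)).symm
      · rw [h]
        obtain ⟨e1, e2, e3⟩ := hS f
        rw [e1, e2, e3]
        exact (h6 _ _ _ ((hG _ _).1 f.1.adj)).symm)
  have hq : Function.Surjective q := by
    intro j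
    obtain ⟨v, w, s, h1, h2⟩ := h7 j
    exact ⟨Quot.mk _ (⟨(v, w), (hG _ _).2 h1⟩, s), h2⟩
  have hfin : Finite (Quot (fun x y : Flag G => y = Flag.along x ∨ y = S.corner x)) :=
    Quot.finite _
  have h := Nat.card_le_card_of_surjective q hq
  rw [Nat.card_eq_fintype_card, Fintype.card_fin] at h
  exact h

/-- the three moves -/
def Dat.mv {n : ℕ} (D : Dat n) (x : Fin n × Fin n × Bool) (m : Fin 3) : Fin n × Fin n × Bool :=
  match m with
  | 0 => (x.2.1, x.1, x.2.2)
  | 1 => (x.1, x.2.1, !x.2.2)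
  | 2 => (x.1, D.cor x.1 x.2.1 x.2.2)

theorem Dat.not_orientable {n : ℕ} (D : Dat n) {G : SimpleGraph (Fin n)}
    (hG : ∀ x y, G.Adj x y ↔ D.adj x y = true) {S : Scheme G} (hS : D.IsOf S)
    (v w : Fin n) (s : Bool) (l : List (Fin 3)) (h1 : D.adj v w = true)
    (h2 : l.foldl D.mv (v, w, s) = (v, w, s)) (h3 : l.length % 2 = 1) : ¬ S.Orientable := by
  rintro ⟨o, ho⟩
  let co : Flag G → Fin n × Fin n × Bool := fun f => (f.1.fst, f.1.snd, f.2)
  let mf : Flag G → Fin 3 → Flag G := fun f m =>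
    match m with
    | 0 => Flag.along f
    | 1 => Flag.across f
    | 2 => S.corner f
  have hco : ∀ f m, co (mf f m) = D.mv (co f) m := by
    intro f m
    match m with
    | 0 => rfl
    | 1 => rfl
    | 2 =>
      obtain ⟨e1, e2, e3⟩ := hS f
      change ((S.corner f).1.fst, (S.corner f).1.snd, (S.corner f).2) = _
      rw [e1, e2, e3]
      rfl
  have hsg : ∀ f m, o (mf f m) = !(o f) := by
    intro f m
    match m with
    | 0 => exact (ho f).1
    | 1 => exact (ho f).2.1
    | 2 => exact (ho f).2.2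
  have hcl : ∀ (l : List (Fin 3)) (f : Flag G), co (l.foldl mf f) = l.foldl D.mv (co f) ∧
      (l.length % 2 = 1 → o (l.foldl mf f) = !(o f)) ∧
      (l.length % 2 = 0 → o (l.foldl mf f) = o f) := by
    intro l
    induction l with
    | nil => exact fun f => ⟨rfl, fun h => by simp at h, fun _ => rfl⟩
    | cons m l ih =>
      intro f
      obtain ⟨i1, i2, i3⟩ := ih (mf f m)
      rw [List.foldl_cons, List.foldl_cons, List.length_cons, i1, hco]
      refine ⟨rfl, fun h => ?_, fun h => ?_⟩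
      · rw [i3 (by omega), hsg]
      · rw [i2 (by omega), hsg, Bool.not_not]
  let f0 : Flag G := (⟨(v, w), (hG _ _).2 h1⟩, s)
  obtain ⟨k1, k2, _⟩ := hcl l f0
  have k3 : l.foldl mf f0 = f0 := by
    have : co (l.foldl mf f0) = co f0 := k1.trans h2
    exact flag_ext (congrArg (fun x => x.1) this) (congrArg (fun x => x.2.1) this)
      (congrArg (fun x => x.2.2) this)
  have k4 := k2 h3
  rw [k3] at k4
  cases h : o f0 <;> simp [h] at k4

theorem Dat.conn {n : ℕ} (D : Dat n) {G : SimpleGraph (Fin n)}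
    (hG : ∀ x y, G.Adj x y ↔ D.adj x y = true) (par : Fin n → Fin n) (r : Fin n)
    (h1 : ∀ v, par v = v ∨ D.adj v (par v) = true) (h2 : ∀ v, par^[7] v = r) :
    Nat.card G.ConnectedComponent ≤ 1 := by
  have h3 : ∀ v, G.Reachable v (par v) := by
    intro v
    rcases h1 v with h | h
    · rw [h]
    · exact Adj.reachable ((hG _ _).2 h)
  have h4 : ∀ (k : ℕ) (v : Fin n), G.Reachable v (par^[k] v) := by
    intro k
    induction k with
    | zero => exact fun v => Reachable.refl _
    | succ k ih =>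
      intro v
      rw [Function.iterate_succ_apply]
      exact (h3 v).trans (ih (par v))
  have h5 : ∀ c : G.ConnectedComponent, c = G.connectedComponentMk r := by
    intro c
    refine Quot.inductionOn c (fun v => ?_)
    have := h4 7 v
    rw [h2] at this
    exact ConnectedComponent.eq.2 this
  have : Subsingleton G.ConnectedComponent := ⟨fun a b => (h5 a).trans (h5 b).symm⟩
  exact Finite.card_le_one_iff_subsingleton.2 this

/-- the genus of a connected graph from the tables -/
theorem Dat.up {n : ℕ} {G : SimpleGraph (Fin n)} {S : Scheme G} {F E g : ℕ}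
    (hF : F ≤ norb Flag.along S.corner) (hc : Nat.card G.ConnectedComponent ≤ 1)
    (hE : Nat.card G.edgeSet = E) (h : 2 + E ≤ n + F + g) : S.EulerGenusLE g := by
  unfold Scheme.EulerGenusLE
  rw [Scheme.numFaces_eq, hE, Nat.card_eq_fintype_card (α := Fin n), Fintype.card_fin]
  push_cast
  omega

end Pool.Agent.H64.Hop
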