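import Mathlib
import Pool.Agent.H64.Hop.Rot
import Pool.Agent.H64.Hop.LowB
import Pool.Agent.H64.Hop.Minor

set_option autoImplicit false

/-!
Tables of schemes of `H14` (12 faces, not orientable), of `H14` without the edge `0 8` (13 faces) and
of `H14` with the edge `0 8` contracted (13 faces).
-/

namespace Pool.Agent.H64.Hop

open SimpleGraph Pool.Agent.H20.Hop

/-- reading a corner table -/
def rdC (n : ℕ) [NeZero n] (T : ℕ) (v w : Fin n) (s : Bool) : Fin n × Bool :=
  let c := (T >>> (5 * (2 * (n * v.1 + w.1) + s.toNat))) % 32
  (Fin.ofNat n (c / 2), c.testBit 0)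

/-- reading a label table -/
def rdL (n F : ℕ) [NeZero F] (T : ℕ) (v w : Fin n) (s : Bool) : Fin F :=
  Fin.ofNat F ((T >>> (4 * (2 * (n * v.1 + w.1) + s.toNat))) % 16)

/-- reading a table of parents -/
def rdP (n : ℕ) [NeZero n] (T : ℕ) (v : Fin n) : Fin n := Fin.ofNat n ((T >>> (4 * v.1)) % 16)

/-- corners -/
def tabCA : ℕ := 19071829833675554243771869086514964170157017153274160614697476084053936085521441624728400086437799560179758442778591465053775364629256270029954230120657894217016309363288925489170655396996110382283959087693399415185070143531004013242949651745663757116413520840217489131416896679291395780397626070894063736943116795796573807886424389144370839209411564552598242981002656869412848850488577616349627804622239139781367534891958578713881392581366669595598705131259476815227557223801317941485196795019366537914540139983664486062236148815320193402034564943987995920016867328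

/-- faces -/
def tabLA : ℕ := 329463781685695290295973413266668761372371895658460653955520060170382401564264640092375884448823566233606847526238094431462250460369493312531527035328143186308167184183581410791080090273713219038120369455041802870364984167703070923007635026568333058558671767604492847785425084714872958743022666691404635186489624204016610074598112011651184047684767057512057677157083248039219258092985411607840762641019374939219993300271853946591586795344500230151208960

/-- parents -/
def tabPA : ℕ := 22553184013224608

/-- corners -/
def tabCB : ℕ := 16372662434148916544375357391423081438435659887107863809693905819960249937672098756093941023209874164464979194184059854619869432615588281546440868075462604703372534707127461282954673887347372538428275817988276556786162373947125053716561875669789694262712039096585332178878952400310038215448255057897953141445039370897952669693518033833321680918555635497108137059749802484871320182777268639653400093315929549146941913386782457389949289098075814648111328080183662168558595771894529475087214909591595369199862010216237046189177372233407088142410375635429579391154257920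

/-- faces -/
def tabLB : ℕ := 325216961074971737777800663643327006708970921296988844596357416594270257675553851346063619922533510589457631670437731369786029448417483784036489406284372050270608100445721837128440054864615911229361661167743558995319342867681342293832790233005933312184618851237809159415318716392723014795155447444440370317635188744579426217685303826409002405492800074977507254513617343926500897534562010697251470022963467506953158668369602123053218079433597450404757504

/-- parents -/
def tabPB : ℕ := 4609180286176400

/-- corners -/
def tabCC : ℕ := 8888316810961792870060172965021702395056860783708771368376171471102880393043876970253881188952405811609443451513454867127305266043199753948132463800582170393995076061420631396305025914851552702675001948158768286942638086952919617870625220297071289956435546715475157170651141031126171059639417339865004917769620486376178406156773083009213371336879506253802908417790160003034134974878309744162139130593375031339307967803508622827828341710062489979751627646225487328199361467543254030352384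

/-- faces -/
def tabLC : ℕ := 648929937741128176660619541416726887421413505173621429252004360593287649653629956351434178795507084082947159346076680082627555584629672166135745693055667689761983870566696938945990128342700483020616059190231745534933848502143847654728210824643990749261779011962551427004154477213768219837622305670929145506612009569553261566522722259003643675384018108159148266156731352869610125943499653120

/-- parents -/
def tabPC : ℕ := 851023611235216

/-- `H14` in the surface with 12 faces -/
def datA : Dat 14 := ⟨fun x y => adjB x y, rdC 14 tabCA⟩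

/-- `H14` without the edge `0 8` -/
def datB : Dat 14 :=
  ⟨fun x y => adjB x y && !((x == 0 && y == 8) || (x == 8 && y == 0)), rdC 14 tabCB⟩

/-- the vertices of the contracted graph -/
def up8 (x : Fin 13) : Fin 14 := if x.1 < 8 then Fin.ofNat 14 x.1 else Fin.ofNat 14 (x.1 + 1)

/-- `H14` with the edge `0 8` contracted -/
def datC : Dat 13 :=
  ⟨fun x y => x != y && (adjB (up8 x) (up8 y) || (up8 x == 0 && adjB (8 : Fin 14) (up8 y)) ||
    (up8 y == 0 && adjB (8 : Fin 14) (up8 x))), rdC 13 tabCC⟩

theorem okA : datA.Ok := by
  refine ⟨?_, ?_, ?_, ?_⟩ <;> decide +kernel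

theorem okB : datB.Ok := by
  refine ⟨?_, ?_, ?_, ?_⟩ <;> decide +kernel

theorem okC : datC.Ok := by
  refine ⟨?_, ?_, ?_, ?_⟩ <;> decide +kernel

theorem adjA (x y : Fin 14) : H14.Adj x y ↔ datA.adj x y = true := Iff.rfl

theorem adjBB (x y : Fin 14) : (H14.deleteEdges {s((0 : Fin 14), 8)}).Adj x y ↔
    datB.adj x y = true := by
  rw [SimpleGraph.deleteEdges_adj]
  simp only [datB, Set.mem_singleton_iff, Sym2.eq_iff, H14_adj, Bool.and_eq_true,
    Bool.not_eq_true', Bool.or_eq_false_iff, Bool.and_eq_false_iff, beq_eq_false_iff_ne, not_or,
    not_and_or, ne_eq]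

/-- the contracted graph on `Fin 13` -/
def G13 : SimpleGraph (Fin 13) where
  Adj x y := datC.adj x y = true
  symm := ⟨by decide +kernel⟩
  loopless := ⟨by decide +kernel⟩

theorem up8_ne : ∀ x : Fin 13, up8 x ≠ 8 := by decide +kernel

/-- the inverse -/
def dn8 (x : Fin 14) : Fin 13 := if x.1 < 8 then Fin.ofNat 13 x.1 else Fin.ofNat 13 (x.1 - 1)

theorem dn8_up8 : ∀ x : Fin 13, dn8 (up8 x) = x := by decide +kernel

theorem up8_dn8 : ∀ x : Fin 14, x ≠ 8 → up8 (dn8 x) = x := by decide +kernel

/-- the contracted graph -/
def isoC : G13 ≃g contr H14 0 8 where
  toFun x := ⟨up8 x, up8_ne x⟩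
  invFun x := dn8 x.1
  left_inv x := dn8_up8 x
  right_inv x := Subtype.ext (up8_dn8 x.1 x.2)
  map_rel_iff' := by
    intro x y
    change ((⟨up8 x, up8_ne x⟩ : {z : Fin 14 // z ≠ 8}) ≠ ⟨up8 y, up8_ne y⟩ ∧
      (H14.Adj (up8 x) (up8 y) ∨ (up8 x = 0 ∧ H14.Adj 8 (up8 y)) ∨
      (up8 y = 0 ∧ H14.Adj 8 (up8 x)))) ↔ datC.adj x y = true
    have h1 : (⟨up8 x, up8_ne x⟩ : {z : Fin 14 // z ≠ 8}) ≠ ⟨up8 y, up8_ne y⟩ ↔ x ≠ y := by
      refine not_congr ⟨fun h => ?_, fun h => by rw [h]⟩
      have h2 := congrArg dn8 (congrArg Subtype.val h)
      rwa [dn8_up8, dn8_up8] at h2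
    rw [h1]
    simp only [datC, H14_adj, Bool.and_eq_true, Bool.or_eq_true, bne_iff_ne, ne_eq, beq_iff_eq,
      or_assoc]

theorem no_common_b : ∀ z : Fin 14, adjB (0 : Fin 14) z = true → ¬ adjB (8 : Fin 14) z = true := by
  decide +kernel

theorem no_common (z : Fin 14) (h : H14.Adj 0 z) : ¬ H14.Adj 8 z := no_common_b z h

theorem adj08_b : adjB (0 : Fin 14) (8 : Fin 14) = true := by decide +kernel

theorem adj08 : H14.Adj 0 8 := adj08_b

theorem upN_A : UpN H14 4 := by
  obtain ⟨S, hS⟩ := datA.scheme okA H14 adjA
  have hF : 12 ≤ norb Flag.along S.corner := datA.faces adjA hS (rdL 14 12 tabLA)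
    (by decide +kernel) (by decide +kernel) (by decide +kernel)
  have hc : Nat.card H14.ConnectedComponent ≤ 1 := datA.conn adjA (rdP 14 tabPA) 0
    (by decide +kernel) (by decide +kernel)
  refine ⟨S, Dat.up hF hc card_edge_H14 (by norm_num), ?_⟩
  exact datA.not_orientable adjA hS 0 8 false [0, 2, 1, 2, 0, 2, 1, 2, 0, 2, 0, 2, 1]
    (by decide +kernel) (by decide +kernel) (by decide +kernel)

theorem up_B : Up (H14.deleteEdges {s((0 : Fin 14), 8)}) 2 := by
  obtain ⟨S, hS⟩ := datB.scheme okB (H14.deleteEdges {s((0 : Fin 14), 8)}) adjBB
  have hF : 13 ≤ norb Flag.along S.corner := datB.faces adjBB hS (rdL 14 13 tabLB)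
    (by decide +kernel) (by decide +kernel) (by decide +kernel)
  have hc : Nat.card (H14.deleteEdges {s((0 : Fin 14), 8)}).ConnectedComponent ≤ 1 :=
    datB.conn adjBB (rdP 14 tabPB) 0 (by decide +kernel) (by decide +kernel)
  have hE : Nat.card (H14.deleteEdges {s((0 : Fin 14), 8)}).edgeSet = 27 := by
    have h1 := card_edge_del adj08
    rw [card_edge_H14] at h1
    omega
  exact ⟨S, Dat.up hF hc hE (by norm_num)⟩

theorem upN_C : UpN (contr H14 0 8) 3 := by
  have adjC : ∀ x y, G13.Adj x y ↔ datC.adj x y = true := fun x y => Iff.rfl
  obtain ⟨S, hS⟩ := datC.scheme okC G13 adjC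
  have hF : 13 ≤ norb Flag.along S.corner := datC.faces adjC hS (rdL 13 13 tabLC)
    (by decide +kernel) (by decide +kernel) (by decide +kernel)
  have hc : Nat.card G13.ConnectedComponent ≤ 1 :=
    datC.conn adjC (rdP 13 tabPC) 0 (by decide +kernel) (by decide +kernel)
  have hE : Nat.card G13.edgeSet = 27 := by
    have h1 := card_edge_con adj08 no_common
    rw [card_edge_H14] at h1
    have h2 := card_flag (H := G13)
    have h3 := card_flag (H := contr H14 0 8)
    have h4 := Nat.card_congr (flagIso isoC)
    omega
  refine UpN.iso isoC ⟨S, Dat.up hF hc hE (by norm_num), ?_⟩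
  exact datC.not_orientable adjC hS 0 3 false
    [0, 1, 2, 0, 1, 2, 0, 1, 2, 0, 2, 1, 2, 0, 2, 1, 2]
    (by decide +kernel) (by decide +kernel) (by decide +kernel)

end Pool.Agent.H64.Hop
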