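import Mathlib
import Pool.Agent.H64.Hop.Data

set_option autoImplicit false

/-!
`H14` is arc transitive, so the facts about the edge `0 8` hold for every edge.
-/

namespace Pool.Agent.H64.Hop

open SimpleGraph Pool.Agent.H20.Hop

/-- table of automorphisms -/
def tabAut : ℕ := 1414940529365046464223458092795889831140409469872327796215928845438144080369743093234939924374462866790250977410133872682572123170108072670588900132905844739712292775699675640675283982642868759572476868075918105148357236921669503687034813570886442103821528291232858011272488298813500560961053221097562020994603054214756909687826272289362548199407044040289018246412166762541402079907796376786920143827696908509937753679504165808210631673110357285128261653309364256672076846540679326655436330278379164334108153770066040799552121062170621237558920147625181163870524212810614427063716953728107002583646428087003281546002153767224428807647025156797943019198422459233047094480379098275364362850671110012188646536018393311361103447891743017217804069720677197243045970900607499365610159523673864510111404634872049296389604978548116552245750550341924003976423297492058443863748781931092453549010957041758029034524281979633071238720693542356014408675856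

/-- the automorphism which maps `0` to `u` and `8` to the neighbour `a` of `u` -/
def au (u : Fin 14) (a : Fin 4) (x : Fin 14) : Fin 14 :=
  Fin.ofNat 14 ((tabAut >>> (4 * (14 * (4 * u.1 + a.1) + x.1))) % 16)

theorem au_adj : ∀ (u : Fin 14) (a : Fin 4) (x y : Fin 14),
    adjB (au u a x) (au u a y) = adjB x y := by decide +kernel

theorem au_inj : ∀ (u : Fin 14) (a : Fin 4) (x y : Fin 14), au u a x = au u a y → x = y := by
  decide +kernel

theorem au_zero : ∀ (u : Fin 14) (a : Fin 4), au u a 0 = u := by decide +kernel

theorem au_eight : ∀ (u : Fin 14) (a : Fin 4), au u a 8 = nb u a := by decide +kernel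

/-- the automorphism -/
noncomputable def auIso (u : Fin 14) (a : Fin 4) : H14 ≃g H14 where
  toEquiv := Equiv.ofBijective (au u a)
    (Finite.injective_iff_bijective.1 (fun x y h => au_inj u a x y h))
  map_rel_iff' := by
    intro x y
    change adjB (au u a x) (au u a y) = true ↔ adjB x y = true
    rw [au_adj]

theorem exists_auto {u v : Fin 14} (h : H14.Adj u v) : ∃ φ : H14 ≃g H14, φ 0 = u ∧ φ 8 = v := by
  obtain ⟨a, ha⟩ := (adjB_iff_nb u v).1 h
  exact ⟨auIso u a, au_zero u a, (au_eight u a).trans ha⟩

theorem up_del {u v : Fin 14} (h : H14.Adj u v) : Up (H14.deleteEdges {s(u, v)}) 2 := by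
  obtain ⟨φ, h0, h8⟩ := exists_auto h
  exact Up.iso (delIso φ h0 h8) up_B

theorem upN_contr {u v : Fin 14} (h : H14.Adj u v) : UpN (contr H14 u v) 3 := by
  obtain ⟨φ, h0, h8⟩ := exists_auto h
  exact UpN.iso (contrIso φ h0 h8) upN_C

end Pool.Agent.H64.Hop
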