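import Mathlib
import Pool.Agent.H20.Hop.DelB

set_option autoImplicit false

/-!
Switching corners: values, and removing the flags of one edge.
-/

namespace Pool.Agent.H64.Hop

open SimpleGraph Pool.Agent.H20.Hop

variable {Ω V : Type*}

theorem swv_p (b : Ω → Ω) (p q : Ω) : sw b p q p = q := by simp [sw]

theorem swv_q (b : Ω → Ω) (p q : Ω) : sw b p q q = p := by
  unfold sw
  by_cases h : q = p
  · rw [if_pos h, h]
  · rw [if_neg h, if_pos rfl]

theorem swv_bp {b : Ω → Ω} (hb : IsInv b) {p q : Ω} (hq : q ≠ b p) : sw b p q (b p) = b q := by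
  simp [sw, hb.ne p, hq.symm]

theorem swv_bq {b : Ω → Ω} (hb : IsInv b) {p q : Ω} (hpq : p ≠ q) (hq : q ≠ b p) :
    sw b p q (b q) = b p := by
  have h3 : b q ≠ p := fun h => hq (by rw [← h, hb.inv])
  have h4 : b q ≠ b p := fun h => hpq (by rw [← hb.inv p, ← h, hb.inv])
  simp [sw, hb.ne q, h3, h4]

theorem swv_ne {b : Ω → Ω} {p q x : Ω} (h1 : x ≠ p) (h2 : x ≠ q) (h3 : x ≠ b p)
    (h4 : x ≠ b q) : sw b p q x = b x := by
  simp [sw, h1, h2, h3, h4]

theorem sw_self {b : Ω → Ω} (hb : IsInv b) {p q : Ω} (hq : q = b p) : sw b p q = b := by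
  funext x
  subst hq
  by_cases h1 : x = p
  · rw [h1, swv_p]
  · by_cases h2 : x = b p
    · rw [h2, swv_q, hb.inv]
    · exact swv_ne h1 h2 h2 (by rw [hb.inv]; exact h1)

/-- switching gives an involution in every case -/
theorem sw_inv' {b : Ω → Ω} (hb : IsInv b) {p q : Ω} (hpq : p ≠ q) : IsInv (sw b p q) := by
  by_cases hq : q = b p
  · rw [sw_self hb hq]
    exact hb
  · exact sw_isInv hb hpq hq

theorem rel_sw_step' {a b : Ω → Ω} {p q : Ω} (h : Rel a b p q) (x : Ω) :
    Rel a b x (sw b p q x) := by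
  unfold sw
  split_ifs with h1 h2 h3 h4
  · subst h1; exact h
  · subst h2; exact h.symm
  · subst h3
    exact ((rel_snd a b p).symm.trans h).trans (rel_snd a b q)
  · subst h4
    exact ((rel_snd a b q).symm.trans h.symm).trans (rel_snd a b p)
  · exact rel_snd a b x

theorem rel_of_rel_sw' {a b : Ω → Ω} {p q : Ω} (h : Rel a b p q) {x y : Ω}
    (hxy : Rel a (sw b p q) x y) : Rel a b x y := by
  induction hxy with
  | rel x y h' =>
    rcases h' with h' | h'
    · subst h'; exact rel_fst a b x
    · subst h'; exact rel_sw_step' h x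
  | refl x => exact rel_refl a b x
  | symm x y _ ih => exact ih.symm
  | trans x y z _ _ ih1 ih2 => exact ih1.trans ih2

theorem sw_vtx {b : Ω → Ω} {f : Ω → V} (hb : ∀ x, f (b x) = f x) {p q : Ω}
    (h : f p = f q) (x : Ω) : f (sw b p q x) = f x := by
  unfold sw
  split_ifs with h1 h2 h3 h4
  · rw [h1, h]
  · rw [h2, h]
  · rw [h3, hb, hb, h]
  · rw [h4, hb, hb, h]
  · exact hb x

/-- the number of classes drops by at most one -/
theorem norb_le_sw [Finite Ω] {a b : Ω → Ω} (ha : IsInv a) (hb : IsInv b) (p q : Ω) :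
    norb a b ≤ norb a (sw b p q) + 1 := by
  by_cases hq : q = b p
  · rw [sw_self hb hq]
    omega
  by_cases hpq : p = q
  · subst hpq
    -- both fixed: the classes are finer
    have h1 : ∀ x y, Rel a (sw b p p) x y → Rel a b x y := by
      intro x y h
      exact rel_of_rel_sw' (rel_refl a b p) h
    have h2 : norb a b ≤ norb a (sw b p p) := by
      have hf : Finite (Quot (fun x y : Ω => y = a x ∨ y = sw b p p x)) := Quot.finite _
      refine Nat.card_le_card_of_surjective
        (Quot.lift (fun x => (Quot.mk _ x : Quot (fun x y : Ω => y = a x ∨ y = b x)))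
          (fun x y h => Quot.eqvGen_sound (h1 x y (Relation.EqvGen.rel _ _ h)))) ?_
      intro y
      obtain ⟨x, rfl⟩ := Quot.exists_rep y
      exact ⟨Quot.mk _ x, rfl⟩
    omega
  by_cases h : Rel a b p q
  · obtain ⟨s, hsa, hsb⟩ := exists_sign ha hb
    by_cases hs : s p = s q
    · have := norb_sw_same ha hb hsa hsb hpq hs h
      omega
    · have := norb_sw_split ha hb hsa hsb hq hs h
      omega
  · have := norb_sw_diff ha hb h
    omega

/-- Signs for a map before the switch. -/
theorem flips_of_sw' {b : Ω → Ω} (hb : IsInv b) {p q : Ω} (hpq : p ≠ q)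
    {o : Ω → Bool} (ho : Flips o (sw b p q)) (h : o (b q) = !(o q)) : Flips o b := by
  by_cases hq : q = b p
  · rw [sw_self hb hq] at ho
    exact ho
  · exact SurgAdd.flips_of_sw hb hpq hq ho h

/-- a map which is the given one on the right summand is a sum -/
theorem exists_map {N : Type*} {b : Ω ⊕ N → Ω ⊕ N} (hb : IsInv b) {c : N → N}
    (h : ∀ n, b (Sum.inr n) = Sum.inr (c n)) :
    ∃ b0 : Ω → Ω, b = Sum.map b0 c ∧ IsInv b0 := by
  have h1 : ∀ x : Ω, ∃ y : Ω, b (Sum.inl x) = Sum.inl y := by
    intro x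
    rcases hx : b (Sum.inl x) with y | n
    · exact ⟨y, rfl⟩
    · have h2 := hb.inv (Sum.inl x)
      rw [hx, h] at h2
      cases h2
  choose b0 hb0 using h1
  refine ⟨b0, ?_, ?_, ?_⟩
  · funext z
    rcases z with x | n
    · exact hb0 x
    · exact h n
  · intro x
    have h2 := hb.inv (Sum.inl x)
    rw [hb0, hb0] at h2
    exact Sum.inl.inj h2
  · intro x hx
    apply hb.ne (Sum.inl x)
    rw [hb0, hx]

theorem isInv_of_map {N : Type*} {a : Ω → Ω} {c : N → N} (h : IsInv (Sum.map a c)) : IsInv a :=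
  ⟨fun x => Sum.inl.inj (h.inv (Sum.inl x)), fun x hx => h.ne (Sum.inl x) (congrArg Sum.inl hx)⟩

/-- relations in a sum -/
theorem rel_of_sum {N : Type*} {a b : Ω → Ω} {c d : N → N} (ha : IsInv (Sum.map a c))
    (hb : IsInv (Sum.map b d)) {x y : Ω}
    (h : Rel (Sum.map a c) (Sum.map b d) (Sum.inl x) (Sum.inl y)) : Rel a b x y := by
  have := Rel.mem_of_closed ha hb (C := fun z => match z with
    | Sum.inl y => Rel a b x y
    | Sum.inr _ => False) (fun z hz => by
      rcases z with z | z
      · exact hz.trans (rel_fst a b z)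
      · exact hz) (fun z hz => by
      rcases z with z | z
      · exact hz.trans (rel_snd a b z)
      · exact hz) h (rel_refl a b x)
  exact this

theorem isInv_end' : IsInv New.end := ⟨fun x => by simp [New.end], fun x h => by
  have := congrArg Prod.fst h
  revert this
  simp [New.end]⟩

theorem isInv_side' : IsInv New.side := ⟨fun x => by simp [New.side], fun x h => by
  have := congrArg Prod.snd h
  revert this
  simp [New.side]⟩

theorem isInv_map {N : Type*} {a : Ω → Ω} {c : N → N} (ha : IsInv a) (hc : IsInv c) :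
    IsInv (Sum.map a c) := by
  refine ⟨?_, ?_⟩
  · rintro (x | x)
    · exact congrArg Sum.inl (ha.inv x)
    · exact congrArg Sum.inr (hc.inv x)
  · rintro (x | x) h
    · exact ha.ne x (Sum.inl.inj h)
    · exact hc.ne x (Sum.inr.inj h)

/-- transport of a scheme of a graph to an abstract scheme -/
theorem abs_of_scheme {V' : Type*} {Ω' : Type*} {G : SimpleGraph V} {a' g' : Ω' → Ω'}
    {vtx' : Ω' → V'} (e : Flag G ≃ Ω') (ν : V → V') (hν : Function.Injective ν)
    (ha : ∀ f : Flag G, e f.along = a' (e f)) (hg : ∀ f : Flag G, e f.across = g' (e f))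
    (hv : ∀ f : Flag G, vtx' (e f) = ν f.1.fst) (S : Scheme G) :
    ∃ b' : Ω' → Ω', Abs g' b' vtx' ∧ norb Flag.along S.corner = norb a' b' ∧
      (Ori a' g' b' → S.Orientable) := by
  have hb : ∀ f : Flag G, e (S.corner f) = e (S.corner (e.symm (e f))) := fun f => by
    rw [Equiv.symm_apply_apply]
  refine ⟨fun x => e (S.corner (e.symm x)), ⟨⟨?_, ?_⟩, ⟨?_, ?_⟩, ?_, ?_, ?_⟩, ?_, ?_⟩
  · intro x
    obtain ⟨f, rfl⟩ := e.surjective x
    rw [← hg, ← hg]
    exact congrArg e (across_isInv.inv f)
  · intro x h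
    obtain ⟨f, rfl⟩ := e.surjective x
    rw [← hg] at h
    exact across_isInv.ne f (e.injective h)
  · intro x
    simp only [Equiv.symm_apply_apply, S.invol, Equiv.apply_symm_apply]
  · intro x h
    obtain ⟨f, rfl⟩ := e.surjective x
    simp only [Equiv.symm_apply_apply] at h
    exact S.ne f (e.injective h)
  · intro x
    obtain ⟨f, rfl⟩ := e.surjective x
    rw [← hg, hv, hv]
    rfl
  · intro x
    obtain ⟨f, rfl⟩ := e.surjective x
    simp only [Equiv.symm_apply_apply]
    rw [hv, hv, S.fst]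
  · intro x y h
    obtain ⟨f, rfl⟩ := e.surjective x
    obtain ⟨f', rfl⟩ := e.surjective y
    rw [hv, hv] at h
    exact (rel_equiv e (a := Flag.across) (b := S.corner) hg hb).1 (S.cyclic f f' (hν h))
  · exact norb_equiv e ha hb
  · rintro ⟨o, h1, h2, h3⟩
    refine ⟨fun f => o (e f), fun f => ⟨?_, ?_, ?_⟩⟩
    · change o (e f.along) = _
      rw [ha]
      exact h1 _
    · change o (e f.across) = _
      rw [hg]
      exact h2 _
    · change o (e (S.corner f)) = _
      rw [hb]
      exact h3 _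

end Pool.Agent.H64.Hop
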