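import Mathlib
import Pool.Agent.H64.Hop.Sw

set_option autoImplicit false

/-!
Deleting an edge from an abstract scheme.
-/

namespace Pool.Agent.H64.Hop

open SimpleGraph Pool.Agent.H20.Hop

variable {Ω V : Type*}

/-- orientations of a map which preserves the right summand can be changed there -/
theorem ori_flip_right {a g b : Ω → Ω} {c d e : New → New} {o : Ω ⊕ New → Bool}
    (h1 : Flips o (Sum.map a c)) (h2 : Flips o (Sum.map g d)) (h3 : Flips o (Sum.map b e)) :
    ∃ o' : Ω ⊕ New → Bool, Flips o' (Sum.map a c) ∧ Flips o' (Sum.map g d) ∧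
      Flips o' (Sum.map b e) ∧ (∀ x, o' (Sum.inl x) = o (Sum.inl x)) ∧
      ∀ n, o' (Sum.inr n) = !(o (Sum.inr n)) := by
  refine ⟨Sum.elim (fun x => o (Sum.inl x)) (fun n => !(o (Sum.inr n))), ?_, ?_, ?_,
    fun x => rfl, fun n => rfl⟩
  · rintro (x | n)
    · exact h1 (Sum.inl x)
    · exact congrArg (fun t => !t) (h1 (Sum.inr n))
  · rintro (x | n)
    · exact h2 (Sum.inl x)
    · exact congrArg (fun t => !t) (h2 (Sum.inr n))
  · rintro (x | n)
    · exact h3 (Sum.inl x)
    · exact congrArg (fun t => !t) (h3 (Sum.inr n))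

theorem ori_extend {a g b : Ω → Ω} (c : New → New) (hc : c = New.end ∨ c = New.side)
    (h : Ori a g b) :
    ∃ o : Ω ⊕ New → Bool, Flips o (Sum.map a New.end) ∧ Flips o (Sum.map g New.side) ∧
      Flips o (Sum.map b c) := by
  obtain ⟨o, h1, h2, h3⟩ := h
  refine ⟨Sum.elim o (fun n => xor n.1 n.2), ?_, ?_, ?_⟩
  · rintro (x | ⟨i, t⟩)
    · exact h1 x
    · change xor (!i) t = !(xor i t)
      cases i <;> cases t <;> rfl
  · rintro (x | ⟨i, t⟩)
    · exact h2 x
    · change xor i (!t) = !(xor i t)
      cases i <;> cases t <;> rfl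
  · rintro (x | ⟨i, t⟩)
    · exact h3 x
    · rcases hc with rfl | rfl
      · change xor (!i) t = !(xor i t)
        cases i <;> cases t <;> rfl
      · change xor i (!t) = !(xor i t)
        cases i <;> cases t <;> rfl

section

variable {a g : Ω → Ω} {b : Ω ⊕ New → Ω ⊕ New} {vtx : Ω → V} {u v : V}

/-- the flag of the new edge at the end `i` on the side `t` -/
abbrev nf (i t : Bool) : Ω ⊕ New := Sum.inr (i, t)

theorem nf_inj {i t i' t' : Bool} (h : (nf i t : Ω ⊕ New) = nf i' t') : i = i' ∧ t = t' := by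
  have h1 := Sum.inr.inj h
  exact ⟨congrArg Prod.fst h1, congrArg Prod.snd h1⟩

theorem vtx_nf (vtx : Ω → V) (u v : V) (i t : Bool) :
    vtxAdd vtx u v (nf i t) = if i then v else u := rfl

/-- the corner of a new flag: the other new flag or an old flag -/
theorem nf_corner (huv : u ≠ v) (hS : Abs (Sum.map g New.side) b (vtxAdd vtx u v)) (i t : Bool) :
    b (nf i t) = nf i (!t) ∨ ∃ x : Ω, b (nf i t) = Sum.inl x ∧ vtx x = if i then v else u := by
  rcases h : b (nf i t) with x | ⟨i', t'⟩
  · right
    refine ⟨x, rfl, ?_⟩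
    have h1 := hS.bv (nf i t)
    rw [h, vtx_nf] at h1
    exact h1
  · left
    have h1 := hS.bv (nf i t)
    rw [h] at h1
    change vtxAdd vtx u v (nf i' t') = vtxAdd vtx u v (nf i t) at h1
    rw [vtx_nf, vtx_nf] at h1
    have h2 : i' = i := by
      cases i <;> cases i' <;> simp at h1 ⊢
      · exact huv h1.symm
      · exact huv h1
    subst h2
    have h3 : t' = !t := by
      have h4 : t' ≠ t := by
        rintro rfl
        exact hS.bi.ne _ h
      cases t <;> cases t' <;> simp_all
    rw [h3]

/-- The construction: the two switches. -/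
noncomputable def cut1 (b : Ω ⊕ New → Ω ⊕ New) : Ω ⊕ New → Ω ⊕ New :=
  sw b (nf false true) (nf false false)

noncomputable def cut2 (b : Ω ⊕ New → Ω ⊕ New) : Ω ⊕ New → Ω ⊕ New :=
  sw (cut1 b) (nf true true) (nf true false)

theorem nf_ne {i t i' t' : Bool} (h : i ≠ i' ∨ t ≠ t') : (nf i t : Ω ⊕ New) ≠ nf i' t' := by
  intro h1
  obtain ⟨h2, h3⟩ := nf_inj h1
  rcases h with h | h
  · exact h h2
  · exact h h3

theorem cut1_inv (hb : IsInv b) : IsInv (cut1 b) := sw_inv' hb (nf_ne (Or.inr (by decide)))

theorem cut2_inv (hb : IsInv b) : IsInv (cut2 b) :=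
  sw_inv' (cut1_inv hb) (nf_ne (Or.inr (by decide)))

theorem cut1_false (b : Ω ⊕ New → Ω ⊕ New) (t : Bool) : cut1 b (nf false t) = nf false (!t) := by
  cases t
  · exact swv_q _ _ _
  · exact swv_p _ _ _

theorem cut1_true (huv : u ≠ v) (hS : Abs (Sum.map g New.side) b (vtxAdd vtx u v)) (t : Bool) :
    cut1 b (nf true t) = b (nf true t) := by
  have h : ∀ s, (nf true t : Ω ⊕ New) ≠ b (nf false s) := by
    intro s h
    have h1 := hS.bv (nf false s)
    rw [← h, vtx_nf, vtx_nf] at h1
    simp at h1
    exact huv h1.symm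
  exact swv_ne (nf_ne (Or.inl (by decide))) (nf_ne (Or.inl (by decide))) (h _) (h _)

theorem cut2_nf (huv : u ≠ v) (hS : Abs (Sum.map g New.side) b (vtxAdd vtx u v)) (i t : Bool) :
    cut2 b (nf i t) = nf i (!t) := by
  cases i
  · have h : ∀ s, (nf false t : Ω ⊕ New) ≠ cut1 b (nf true s) := by
      intro s h
      rw [cut1_true huv hS] at h
      have h1 := hS.bv (nf true s)
      rw [← h, vtx_nf, vtx_nf] at h1
      simp at h1
      exact huv h1
    unfold cut2
    rw [swv_ne (nf_ne (Or.inl (by decide))) (nf_ne (Or.inl (by decide))) (h _) (h _), cut1_false]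
  · cases t
    · exact swv_q _ _ _
    · exact swv_p _ _ _

theorem exists_cut (huv : u ≠ v) (hS : Abs (Sum.map g New.side) b (vtxAdd vtx u v)) :
    ∃ b0 : Ω → Ω, cut2 b = Sum.map b0 New.side ∧ IsInv b0 :=
  exists_map (cut2_inv hS.bi) (fun n => cut2_nf huv hS n.1 n.2)

/-- the value of a switch at a pair which is not switched -/
theorem sw_keep {Θ : Type*} {b : Θ → Θ} (hb : IsInv b) {p q x : Θ} (h1 : x ≠ p) (h2 : x ≠ q)
    (h3 : b x ≠ p) (h4 : b x ≠ q) : sw b p q x = b x := by
  refine swv_ne h1 h2 (fun h => h3 ?_) (fun h => h4 ?_)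
  · rw [h, hb.inv]
  · rw [h, hb.inv]

/-- old corners are kept -/
theorem cut2_keep (hS : Abs (Sum.map g New.side) b (vtxAdd vtx u v)) {x y : Ω}
    (h : b (Sum.inl x) = Sum.inl y) : cut2 b (Sum.inl x) = Sum.inl y := by
  have h1 : cut1 b (Sum.inl x) = Sum.inl y := by
    unfold cut1
    rw [sw_keep hS.bi (by simp) (by simp) (by rw [h]; simp) (by rw [h]; simp), h]
  unfold cut2
  rw [sw_keep (cut1_inv hS.bi) (by simp) (by simp) (by rw [h1]; simp) (by rw [h1]; simp), h1]

/-- the new corners -/
theorem cut2_new (huv : u ≠ v) (hS : Abs (Sum.map g New.side) b (vtxAdd vtx u v)) {x y : Ω}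
    {i t : Bool} (hx : b (nf i t) = Sum.inl x) (hy : b (nf i (!t)) = Sum.inl y) :
    cut2 b (Sum.inl x) = Sum.inl y := by
  have key : ∀ {x y : Ω}, ∀ i, b (nf i true) = Sum.inl x → b (nf i false) = Sum.inl y →
      cut2 b (Sum.inl x) = Sum.inl y ∧ cut2 b (Sum.inl y) = Sum.inl x := by
    intro x y i hx hy
    cases i
    · have h1 : cut1 b (Sum.inl x) = Sum.inl y := by
        unfold cut1
        rw [← hx, swv_bp hS.bi (by rw [hx]; simp), hy]
      have h2 : cut1 b (Sum.inl y) = Sum.inl x := by
        rw [← h1, (cut1_inv hS.bi).inv]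
      constructor
      · unfold cut2
        rw [sw_keep (cut1_inv hS.bi) (by simp) (by simp) (by rw [h1]; simp) (by rw [h1]; simp), h1]
      · unfold cut2
        rw [sw_keep (cut1_inv hS.bi) (by simp) (by simp) (by rw [h2]; simp) (by rw [h2]; simp), h2]
    · have h1 : cut2 b (Sum.inl x) = Sum.inl y := by
        unfold cut2
        rw [← hx, ← cut1_true huv hS, swv_bp (cut1_inv hS.bi), cut1_true huv hS, hy]
        rw [cut1_true huv hS, hx]
        simp
      refine ⟨h1, ?_⟩
      rw [← h1, (cut2_inv hS.bi).inv]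
  cases t
  · exact (key i hy hx).2
  · exact (key i hx hy).1

theorem cut_abs (huv : u ≠ v) (hS : Abs (Sum.map g New.side) b (vtxAdd vtx u v)) {b0 : Ω → Ω}
    (hb0 : cut2 b = Sum.map b0 New.side) (hi : IsInv b0) : Abs g b0 vtx := by
  have k1 : ∀ {x y : Ω}, b (Sum.inl x) = Sum.inl y → b0 x = y := by
    intro x y h
    have h1 := cut2_keep hS h
    rw [hb0] at h1
    exact Sum.inl.inj h1
  have k2 : ∀ {x y : Ω} {i t : Bool}, b (nf i t) = Sum.inl x → b (nf i (!t)) = Sum.inl y →
      b0 x = y := by
    intro x y i t hx hy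
    have h1 := cut2_new huv hS hx hy
    rw [hb0] at h1
    exact Sum.inl.inj h1
  have k3 : ∀ x, vtx (b0 x) = vtx x := by
    intro x
    have h1 : ∀ z, vtxAdd vtx u v (cut1 b z) = vtxAdd vtx u v z := sw_vtx hS.bv rfl
    have h2 : ∀ z, vtxAdd vtx u v (cut2 b z) = vtxAdd vtx u v z := sw_vtx h1 rfl
    have h3 := h2 (Sum.inl x)
    rw [hb0] at h3
    exact h3
  refine ⟨isInv_of_map hS.gi, hi, fun x => hS.gv (Sum.inl x), k3, fun x y hxy => ?_⟩
  have h := hS.star (Sum.inl x) (Sum.inl y) hxy
  have := Rel.mem_of_closed hS.gi hS.bi (C := fun z => match z with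
    | Sum.inl y => Rel g b0 x y
    | Sum.inr n => ∀ y, b (Sum.inr n) = Sum.inl y → Rel g b0 x y) ?_ ?_ h (rel_refl g b0 x)
  · exact this
  · rintro (z | ⟨i, t⟩) hz
    · exact Rel.trans hz (rel_fst g b0 z)
    · intro y' hy'
      change b (nf i (!t)) = Sum.inl y' at hy'
      rcases nf_corner huv hS i t with h1 | ⟨y, h1, -⟩
      · exfalso
        have h2 := hS.bi.inv (nf i t)
        rw [h1, hy'] at h2
        cases h2
      · have h3 := hz y h1
        have h4 := k2 h1 hy'
        rw [← h4]
        exact Rel.trans h3 (rel_snd g b0 y)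
  · rintro (z | ⟨i, t⟩) hz
    · rcases h1 : b (Sum.inl z) with y | n
      · have h2 := k1 h1
        change Rel g b0 x y
        rw [← h2]
        exact Rel.trans hz (rel_snd g b0 z)
      · intro y hy
        have h2 := hS.bi.inv (Sum.inl z)
        rw [h1, hy] at h2
        rw [Sum.inl.inj h2]
        exact hz
    · rcases h1 : b (Sum.inr (i, t)) with y | n
      · exact hz y h1
      · intro y hy
        exfalso
        have h2 := hS.bi.inv (Sum.inr (i, t))
        rw [h1, hy] at h2
        cases h2

/-- the classes after the second switch: one more, if there is another flag at the end -/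
theorem norb_cut2 [Finite Ω] (huv : u ≠ v) (ha : IsInv a)
    (hS : Abs (Sum.map g New.side) b (vtxAdd vtx u v)) (hx : ∃ x, vtx x = v) :
    norb (Sum.map a New.end) (cut2 b) = norb (Sum.map a New.end) (cut1 b) + 1 := by
  have hA : IsInv (Sum.map a New.end) := isInv_map ha isInv_end'
  have hB := cut1_inv hS.bi
  obtain ⟨b0, hb0, -⟩ := exists_cut huv hS
  -- the corner of the new flag is an old flag
  have hc : ∃ x' : Ω, b (nf true true) = Sum.inl x' := by
    rcases nf_corner huv hS true true with h1 | ⟨y, h1, -⟩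
    · exfalso
      obtain ⟨x, hx⟩ := hx
      have h2 := hS.star (nf true true) (Sum.inl x) hx.symm
      have := Rel.mem_of_closed hS.gi hS.bi (C := fun z => z = nf true true ∨ z = nf true false)
        (by
          rintro z (rfl | rfl)
          · exact Or.inr rfl
          · exact Or.inl rfl) (by
          rintro z (rfl | rfl)
          · exact Or.inr h1
          · left
            have h3 := hS.bi.inv (nf true true)
            rw [h1] at h3
            exact h3) h2 (Or.inl rfl)
      rcases this with h | h <;> cases h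
    · exact ⟨y, h1⟩
  obtain ⟨x', hx'⟩ := hc
  have hx1 : cut1 b (nf true true) = Sum.inl x' := by rw [cut1_true huv hS, hx']
  -- the two flags are in one face
  have hrel : Rel (Sum.map a New.end) (cut1 b) (nf true true) (nf true false) := by
    have h1 := rel_fst (Sum.map a New.end) (cut1 b) (nf true true)
    have h2 := rel_snd (Sum.map a New.end) (cut1 b) (nf false true)
    rw [cut1_false] at h2
    have h3 := rel_fst (Sum.map a New.end) (cut1 b) (nf false false)
    exact (h1.trans h2).trans h3
  obtain ⟨s, hsa, hsb⟩ := exists_sign hA hB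
  have hsep : ¬ Rel (Sum.map a New.end) (cut2 b) (nf true true) (Sum.inl x') := by
    rw [hb0]
    intro h
    exact not_rel_sum a b0 New.end New.side x' (true, true) h.symm
  by_cases hs : s (nf true true) = s (nf true false)
  · exfalso
    have h1 := norb_sw_same hA hB hsa hsb (nf_ne (Or.inr (by decide))) hs hrel
    apply hsep
    refine rel_of_norb_eq (fun x y h => rel_of_rel_sw' hrel h) h1 ?_
    rw [← hx1]
    exact rel_snd _ _ _
  · refine norb_sw_split hA hB hsa hsb ?_ hs hrel
    rw [hx1]
    simp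

/-- the orientation before the second switch -/
theorem ori_cut2 (huv : u ≠ v)
    (hS : Abs (Sum.map g New.side) b (vtxAdd vtx u v)) {b0 : Ω → Ω}
    (hb0 : cut2 b = Sum.map b0 New.side) (h : Ori a g b0) :
    Ori (Sum.map a New.end) (Sum.map g New.side) (cut1 b) := by
  obtain ⟨o, h1, h2, h3⟩ := ori_extend New.side (Or.inr rfl) h
  have hB := cut1_inv hS.bi
  rcases nf_corner huv hS true false with hc | ⟨x, hc, -⟩
  · -- no switch
    have h4 : cut1 b (nf true true) = nf true false := by
      rw [cut1_true huv hS, ← hS.bi.inv (nf true false), hc]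
      rfl
    have h5 : cut2 b = cut1 b := sw_self hB h4.symm
    rw [← h5, hb0]
    exact ⟨o, h1, h2, h3⟩
  · have h4 : cut1 b (nf true false) = Sum.inl x := by rw [cut1_true huv hS, hc]
    by_cases h5 : o (Sum.inl x) = !(o (nf true false))
    · refine ⟨o, h1, h2, flips_of_sw' hB (p := nf true true) (q := nf true false)
        (nf_ne (Or.inr (by decide))) ?_ ?_⟩
      · change Flips o (cut2 b)
        rw [hb0]
        exact h3
      · rw [h4]
        exact h5
    · obtain ⟨o', k1, k2, k3, k4, k5⟩ := ori_flip_right h1 h2 h3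
      refine ⟨o', k1, k2, flips_of_sw' hB (p := nf true true) (q := nf true false)
        (nf_ne (Or.inr (by decide))) ?_ ?_⟩
      · change Flips o' (cut2 b)
        rw [hb0]
        exact k3
      · rw [h4, k4, k5, Bool.not_not]
        cases e1 : o (Sum.inl x) <;> cases e2 : o (nf true false) <;> simp_all

/-- The edge is not a bridge. -/
theorem delete_cycle [Finite Ω] (huv : u ≠ v) (ha : IsInv a)
    (hS : Abs (Sum.map g New.side) b (vtxAdd vtx u v)) (hv : ∃ x, vtx x = v) :
    ∃ b0 : Ω → Ω, Abs g b0 vtx ∧ norb (Sum.map a New.end) b ≤ norb a b0 + 1 ∧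
      (norb (Sum.map a New.end) b ≤ norb a b0 ∨
        (Ori a g b0 → Ori (Sum.map a New.end) (Sum.map g New.side) b)) := by
  have hA : IsInv (Sum.map a New.end) := isInv_map ha isInv_end'
  obtain ⟨b0, hb0, hi⟩ := exists_cut huv hS
  have h1 := norb_cut2 huv ha hS hv
  have h2 : norb (Sum.map a New.end) (cut2 b) = norb a b0 + 1 := by
    rw [hb0, norb_sum, norb_new_side]
  have h3 : norb (Sum.map a New.end) b ≤ norb (Sum.map a New.end) (cut1 b) + 1 :=
    norb_le_sw hA hS.bi _ _
  refine ⟨b0, cut_abs huv hS hb0 hi, by omega, ?_⟩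
  by_cases h4 : norb (Sum.map a New.end) b ≤ norb a b0
  · exact Or.inl h4
  right
  intro ho
  have h5 : norb (Sum.map a New.end) (cut1 b) + 1 = norb (Sum.map a New.end) b := by omega
  obtain ⟨o, o1, o2, o3⟩ := ori_cut2 huv hS hb0 ho
  -- the two flags are in different faces
  have hq : (nf false false : Ω ⊕ New) ≠ b (nf false true) := by
    intro h
    have : cut1 b = b := sw_self hS.bi h
    rw [this] at h5
    omega
  have hpq : (nf false true : Ω ⊕ New) ≠ nf false false := nf_ne (Or.inr (by decide))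
  have hback : sw (cut1 b) (nf false true) (b (nf false true)) = b := sw_sw hS.bi hpq hq
  have hnr : ¬ Rel (Sum.map a New.end) b (nf false true) (nf false false) := by
    intro h
    obtain ⟨s, hsa, hsb⟩ := exists_sign hA hS.bi
    by_cases hs : s (nf false true) = s (nf false false)
    · have h6 : norb (Sum.map a New.end) (cut1 b) = norb (Sum.map a New.end) b :=
        norb_sw_same hA hS.bi hsa hsb hpq hs h
      omega
    · have h6 : norb (Sum.map a New.end) (cut1 b) = norb (Sum.map a New.end) b + 1 :=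
        norb_sw_split hA hS.bi hsa hsb hq hs h
      omega
  have hr : Rel (Sum.map a New.end) (cut1 b) (nf false true) (b (nf false true)) :=
    rel_sw_diff hA hS.bi hnr (rel_snd _ _ _)
  have ho2 : o (nf false true) ≠ o (b (nf false true)) := by
    intro h
    have h6 := norb_sw_same hA (cut1_inv hS.bi) o1 o3 (hS.bi.ne _).symm h hr
    rw [hback] at h6
    omega
  refine ⟨o, o1, o2, flips_of_sw' hS.bi (p := nf false true) (q := nf false false) hpq o3 ?_⟩
  -- `cut1 b` maps `b p0` to `b q0`
  have h7 : cut1 b (b (nf false true)) = b (nf false false) := swv_bp hS.bi hq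
  have h8 := o3 (b (nf false true))
  rw [h7] at h8
  have h9 := o3 (nf false true)
  rw [cut1_false] at h9
  change o (nf false false) = _ at h9
  rw [h8, h9]
  cases e1 : o (nf false true) <;> cases e2 : o (b (nf false true)) <;> simp_all

end

end Pool.Agent.H64.Hop
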