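import Mathlib
import Pool.Agent.H64.Hop.DelAbs

set_option autoImplicit false

/-!
Deleting a bridge from an abstract scheme.
-/

namespace Pool.Agent.H64.Hop

open SimpleGraph Pool.Agent.H20.Hop

variable {Ω V : Type*} {a g : Ω → Ω} {b : Ω ⊕ New → Ω ⊕ New} {vtx : Ω → V} {u v : V}

/-- if there is an old flag at the end, the corner of the new flag is an old flag -/
theorem nf_old (huv : u ≠ v) (hS : Abs (Sum.map g New.side) b (vtxAdd vtx u v)) (i t : Bool)
    (hx : ∃ x, vtx x = if i then v else u) :
    ∃ x' : Ω, b (nf i t) = Sum.inl x' ∧ vtx x' = if i then v else u := by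
  rcases nf_corner huv hS i t with h1 | h1
  · exfalso
    obtain ⟨x, hx⟩ := hx
    have h2 := hS.star (nf i t) (Sum.inl x) hx.symm
    have := Rel.mem_of_closed hS.gi hS.bi (C := fun z => z = nf i t ∨ z = nf i (!t))
      (by
        rintro z (rfl | rfl)
        · exact Or.inr rfl
        · left
          change nf i (!(!t)) = _
          rw [Bool.not_not]) (by
        rintro z (rfl | rfl)
        · exact Or.inr h1
        · left
          have h3 := hS.bi.inv (nf i t)
          rw [h1] at h3
          exact h3) h2 (Or.inl rfl)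
    rcases this with h | h <;> cases h
  · exact h1

/-- if there is no old flag at the end, the corner of the new flag is the other new flag -/
theorem nf_new (huv : u ≠ v) (hS : Abs (Sum.map g New.side) b (vtxAdd vtx u v)) (i t : Bool)
    (hx : ¬ ∃ x, vtx x = if i then v else u) : b (nf i t) = nf i (!t) := by
  rcases nf_corner huv hS i t with h1 | ⟨x, -, h1⟩
  · exact h1
  · exact absurd ⟨x, h1⟩ hx

/-- the side of `v` -/
def SideV (vtx : Ω → V) (κ : V → Prop) : Ω ⊕ New → Prop
  | Sum.inl y => κ (vtx y)
  | Sum.inr _ => True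

theorem sideV_a {κ : V → Prop} (hκ : ∀ x, κ (vtx (a x)) ↔ κ (vtx x)) (z : Ω ⊕ New) :
    SideV vtx κ (Sum.map a New.end z) ↔ SideV vtx κ z := by
  rcases z with z | z
  · exact hκ z
  · exact Iff.rfl

theorem sideV_g (hS : Abs (Sum.map g New.side) b (vtxAdd vtx u v)) {κ : V → Prop}
    (z : Ω ⊕ New) : SideV vtx κ (Sum.map g New.side z) ↔ SideV vtx κ z := by
  rcases z with z | z
  · have h : vtx (g z) = vtx z := hS.gv (Sum.inl z)
    change κ (vtx (g z)) ↔ κ (vtx z)
    rw [h]
  · exact Iff.rfl

theorem sideV_b (huv : u ≠ v) (hS : Abs (Sum.map g New.side) b (vtxAdd vtx u v)) {κ : V → Prop}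
    (hv : κ v) (z : Ω ⊕ New) : SideV vtx κ (cut1 b z) ↔ SideV vtx κ z := by
  have key : ∀ z, SideV vtx κ z → SideV vtx κ (cut1 b z) := by
    have hvt : ∀ z, vtxAdd vtx u v (cut1 b z) = vtxAdd vtx u v z := sw_vtx hS.bv rfl
    rintro (z | ⟨i, t⟩) hz
    · rcases h : cut1 b (Sum.inl z) with y | n
      · have h1 := hvt (Sum.inl z)
        rw [h] at h1
        change vtx y = vtx z at h1
        change κ (vtx y)
        rw [h1]
        exact hz
      · trivial
    · cases i
      · change SideV vtx κ (cut1 b (nf false t))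
        rw [cut1_false]
        trivial
      · change SideV vtx κ (cut1 b (nf true t))
        rw [cut1_true huv hS]
        rcases nf_corner huv hS true t with h1 | ⟨x, h1, h2⟩
        · rw [h1]
          trivial
        · rw [h1]
          change κ (vtx x)
          rw [h2]
          exact hv
  refine ⟨fun h => ?_, key z⟩
  have := key _ h
  rwa [(cut1_inv hS.bi).inv] at this

/-- the first switch separates the two sides of a bridge -/
theorem bridge_sep (huv : u ≠ v) (ha : IsInv a)
    (hS : Abs (Sum.map g New.side) b (vtxAdd vtx u v)) {κ : V → Prop}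
    (hκ : ∀ x, κ (vtx (a x)) ↔ κ (vtx x)) (hv : κ v) (hu : ¬ κ u) {x : Ω} (hx : vtx x = u) :
    ¬ Rel (Sum.map a New.end) (cut1 b) (nf false true) (Sum.inl x) := by
  intro h
  have := Rel.mem_of_closed (isInv_map ha isInv_end') (cut1_inv hS.bi) (C := SideV vtx κ)
    (fun z hz => (sideV_a hκ z).2 hz) (fun z hz => (sideV_b huv hS hv z).2 hz) h trivial
  apply hu
  rw [← hx]
  exact this

theorem norb_cut1_bridge [Finite Ω] (huv : u ≠ v) (ha : IsInv a)
    (hS : Abs (Sum.map g New.side) b (vtxAdd vtx u v)) {κ : V → Prop}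
    (hκ : ∀ x, κ (vtx (a x)) ↔ κ (vtx x)) (hv : κ v) (hu : ¬ κ u) (hx : ∃ x, vtx x = u) :
    norb (Sum.map a New.end) (cut1 b) = norb (Sum.map a New.end) b + 1 := by
  have hA : IsInv (Sum.map a New.end) := isInv_map ha isInv_end'
  obtain ⟨x, hx1, hx2⟩ := nf_old huv hS false true hx
  have hsep := bridge_sep huv ha hS hκ hv hu hx2
  have hq : (nf false false : Ω ⊕ New) ≠ b (nf false true) := by
    rw [hx1]
    simp
  have hpq : (nf false true : Ω ⊕ New) ≠ nf false false := nf_ne (Or.inr (by decide))
  have hrel : Rel (Sum.map a New.end) b (nf false true) (nf false false) := by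
    by_contra hn
    apply hsep
    rw [← hx1]
    exact rel_sw_diff hA hS.bi hn (rel_snd _ _ _)
  obtain ⟨s, hsa, hsb⟩ := exists_sign hA hS.bi
  by_cases hs : s (nf false true) = s (nf false false)
  · exfalso
    have h1 := norb_sw_same hA hS.bi hsa hsb hpq hs hrel
    apply hsep
    refine rel_of_norb_eq (fun x y h => rel_of_rel_sw' hrel h) h1 ?_
    rw [← hx1]
    exact rel_snd _ _ _
  · exact norb_sw_split hA hS.bi hsa hsb hq hs hrel

theorem ori_cut1_bridge (huv : u ≠ v)
    (hS : Abs (Sum.map g New.side) b (vtxAdd vtx u v)) {κ : V → Prop}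
    (hκ : ∀ x, κ (vtx (a x)) ↔ κ (vtx x)) (hv : κ v) (hu : ¬ κ u)
    (h : Ori (Sum.map a New.end) (Sum.map g New.side) (cut1 b)) :
    Ori (Sum.map a New.end) (Sum.map g New.side) b := by
  classical
  obtain ⟨o, o1, o2, o3⟩ := h
  have hpq : (nf false true : Ω ⊕ New) ≠ nf false false := nf_ne (Or.inr (by decide))
  rcases nf_corner huv hS false false with hc | ⟨x, hc, hx⟩
  · have h4 : b (nf false true) = nf false false := by
      rw [← hS.bi.inv (nf false false), hc]
      rfl
    have h5 : cut1 b = b := sw_self hS.bi h4.symm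
    rw [h5] at o3
    exact ⟨o, o1, o2, o3⟩
  · by_cases h5 : o (Sum.inl x) = !(o (nf false false))
    · refine ⟨o, o1, o2, flips_of_sw' hS.bi (p := nf false true) (q := nf false false) hpq o3 ?_⟩
      rw [hc]
      exact h5
    · have hnx : ¬ SideV vtx κ (Sum.inl x) := by
        intro h6
        apply hu
        have h7 : vtx x = u := hx
        rw [← h7]
        exact h6
      have hq0 : SideV vtx κ (nf false false) := trivial
      refine ⟨fun z => if SideV vtx κ z then !(o z) else o z, ?_, ?_,
        flips_of_sw' hS.bi (p := nf false true) (q := nf false false) hpq ?_ ?_⟩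
      · intro z
        simp only [sideV_a hκ z, o1 z]
        split_ifs <;> rfl
      · intro z
        simp only [sideV_g hS z, o2 z]
        split_ifs <;> rfl
      · intro z
        have h8 := o3 z
        have h9 := sideV_b huv hS hv z
        change (if SideV vtx κ (cut1 b z) then !(o (cut1 b z)) else o (cut1 b z)) = _
        simp only [h9, h8]
        split_ifs <;> rfl
      · rw [hc]
        simp only [if_neg hnx, if_pos hq0, Bool.not_not]
        cases e1 : o (Sum.inl x) <;> cases e2 : o (nf false false) <;> simp_all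

open Classical in
/-- The edge is a bridge. -/
theorem delete_bridge [Finite Ω] (huv : u ≠ v) (ha : IsInv a)
    (hS : Abs (Sum.map g New.side) b (vtxAdd vtx u v)) (κ : V → Prop)
    (hκ : ∀ x, κ (vtx (a x)) ↔ κ (vtx x)) (hv : κ v) (hu : ¬ κ u) :
    ∃ b0 : Ω → Ω, Abs g b0 vtx ∧ norb (Sum.map a New.end) b + 1 ≤
        norb a b0 + (if ∃ x, vtx x = u then 0 else 1) + (if ∃ x, vtx x = v then 0 else 1) ∧
      (Ori a g b0 → Ori (Sum.map a New.end) (Sum.map g New.side) b) := by
  have hA : IsInv (Sum.map a New.end) := isInv_map ha isInv_end'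
  obtain ⟨b0, hb0, hi⟩ := exists_cut huv hS
  have h2 : norb (Sum.map a New.end) (cut2 b) = norb a b0 + 1 := by
    rw [hb0, norb_sum, norb_new_side]
  refine ⟨b0, cut_abs huv hS hb0 hi, ?_,
    fun ho => ori_cut1_bridge huv hS hκ hv hu (ori_cut2 huv hS hb0 ho)⟩
  have h3 : norb (Sum.map a New.end) (cut2 b) =
      norb (Sum.map a New.end) (cut1 b) + (if ∃ x, vtx x = v then 1 else 0) := by
    by_cases hx : ∃ x, vtx x = v
    · rw [if_pos hx]
      exact norb_cut2 huv ha hS hx
    · rw [if_neg hx]
      have h4 : cut1 b (nf true true) = nf true false := by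
        rw [cut1_true huv hS]
        exact nf_new huv hS true true hx
      have h5 : cut2 b = cut1 b := sw_self (cut1_inv hS.bi) h4.symm
      rw [h5, add_zero]
  have h4 : norb (Sum.map a New.end) (cut1 b) =
      norb (Sum.map a New.end) b + (if ∃ x, vtx x = u then 1 else 0) := by
    by_cases hx : ∃ x, vtx x = u
    · rw [if_pos hx]
      exact norb_cut1_bridge huv ha hS hκ hv hu hx
    · rw [if_neg hx]
      have h4 : b (nf false true) = nf false false := nf_new huv hS false true hx
      have h5 : cut1 b = b := sw_self hS.bi h4.symm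
      rw [h5, add_zero]
  by_cases h5 : ∃ x, vtx x = u <;> by_cases h6 : ∃ x, vtx x = v <;>
    simp only [h5, h6, if_true, if_false] at h3 h4 ⊢ <;> omega

end Pool.Agent.H64.Hop
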