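import Mathlib
import Pool.Agent.H64.Hop.DelBr

set_option autoImplicit false

/-!
Contracting an edge in an abstract scheme.
-/

namespace Pool.Agent.H64.Hop

open SimpleGraph Pool.Agent.H20.Hop

variable {Ω V : Type*} {a g : Ω → Ω} {b : Ω ⊕ New → Ω ⊕ New} {vtx : Ω → V} {w : V} {A : Set Ω}

/-- the vertices after the contraction -/
def vtm (vtx : Ω → V) (w : V) : Ω ⊕ New → V := Sum.elim vtx (fun _ => w)

theorem split_false (vtx : Ω → V) (w : V) (A : Set Ω) (t : Bool) :
    vtxSplit vtx w A (nf false t) = some w := rfl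

theorem split_true (vtx : Ω → V) (w : V) (A : Set Ω) (t : Bool) :
    vtxSplit vtx w A (nf true t) = none := rfl

open Classical in
theorem split_inl (vtx : Ω → V) (w : V) (A : Set Ω) (x : Ω) :
    vtxSplit vtx w A (Sum.inl x) = if vtx x = w ∧ x ∉ A then none else some (vtx x) := by
  unfold vtxSplit
  rw [Sum.elim_inl]

theorem vtm_eq (vtx : Ω → V) (w : V) (A : Set Ω) (z : Ω ⊕ New) :
    vtm vtx w z = (vtxSplit vtx w A z).getD w := by
  classical
  rcases z with x | ⟨i, t⟩
  · rw [split_inl]
    change vtx x = _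
    split_ifs with h
    · exact h.1
    · rfl
  · cases i <;> rfl

theorem vtm_b (hS : Abs (Sum.map g New.side) b (vtxSplit vtx w A)) (z : Ω ⊕ New) :
    vtm vtx w (b z) = vtm vtx w z := by
  rw [vtm_eq vtx w A, vtm_eq vtx w A, hS.bv]

theorem vtm_g (hS : Abs (Sum.map g New.side) b (vtxSplit vtx w A)) (z : Ω ⊕ New) :
    vtm vtx w (Sum.map g New.side z) = vtm vtx w z := by
  rw [vtm_eq vtx w A, vtm_eq vtx w A, hS.gv]

/-- the first switch -/
noncomputable def cc1 (b : Ω ⊕ New → Ω ⊕ New) : Ω ⊕ New → Ω ⊕ New :=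
  sw b (nf false true) (nf true true)

/-- the second switch -/
noncomputable def cc2 (b : Ω ⊕ New → Ω ⊕ New) : Ω ⊕ New → Ω ⊕ New :=
  sw (cc1 b) (nf false false) (nf true false)

theorem cc1_inv (hb : IsInv b) : IsInv (cc1 b) := sw_inv' hb (nf_ne (Or.inl (by decide)))

theorem cc2_inv (hb : IsInv b) : IsInv (cc2 b) :=
  sw_inv' (cc1_inv hb) (nf_ne (Or.inl (by decide)))

theorem cc1_new (b : Ω ⊕ New → Ω ⊕ New) (i : Bool) : cc1 b (nf i true) = nf (!i) true := by
  cases i
  · exact swv_p _ _ _
  · exact swv_q _ _ _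

theorem cc2_new (hb : IsInv b) (i t : Bool) : cc2 b (nf i t) = nf (!i) t := by
  cases t
  · cases i
    · exact swv_p _ _ _
    · exact swv_q _ _ _
  · unfold cc2
    rw [sw_keep (cc1_inv hb) (nf_ne (Or.inr (by decide))) (nf_ne (Or.inr (by decide)))
      (by rw [cc1_new]; exact nf_ne (Or.inr (by decide)))
      (by rw [cc1_new]; exact nf_ne (Or.inr (by decide))), cc1_new]

theorem exists_cc (hb : IsInv b) : ∃ b0 : Ω → Ω, cc2 b = Sum.map b0 New.end ∧ IsInv b0 :=
  exists_map (cc2_inv hb) (fun n => cc2_new hb n.1 n.2)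

theorem vtm_cc1 (hS : Abs (Sum.map g New.side) b (vtxSplit vtx w A)) (z : Ω ⊕ New) :
    vtm vtx w (cc1 b z) = vtm vtx w z :=
  sw_vtx (vtm_b hS) (p := nf false true) (q := nf true true) rfl z

theorem vtm_cc2 (hS : Abs (Sum.map g New.side) b (vtxSplit vtx w A)) (z : Ω ⊕ New) :
    vtm vtx w (cc2 b z) = vtm vtx w z :=
  sw_vtx (vtm_cc1 hS) (p := nf false false) (q := nf true false) rfl z

theorem ends_ne (hS : Abs (Sum.map g New.side) b (vtxSplit vtx w A)) (s t : Bool) :
    (nf true t : Ω ⊕ New) ≠ b (nf false s) := by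
  intro h
  have h1 := hS.bv (nf false s)
  rw [← h, split_true, split_false] at h1
  cases h1

theorem ends_not_rel (hS : Abs (Sum.map g New.side) b (vtxSplit vtx w A)) (s t : Bool) :
    ¬ Rel (Sum.map g New.side) b (nf false s) (nf true t) := by
  intro h
  have h1 := hS.vtx_eq h
  rw [split_true, split_false] at h1
  cases h1

/-- all flags at the contracted vertex are in one class after the first switch -/
theorem rel_cc1_w [Finite Ω] (hS : Abs (Sum.map g New.side) b (vtxSplit vtx w A)) {x : Ω}
    (hx : vtx x = w) : Rel (Sum.map g New.side) (cc1 b) (Sum.inl x) (nf false false) := by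
  classical
  have h0 : ∀ {z z' : Ω ⊕ New}, vtxSplit vtx w A z = vtxSplit vtx w A z' →
      Rel (Sum.map g New.side) (cc1 b) z z' := fun h =>
    rel_sw_diff hS.gi hS.bi (ends_not_rel hS true true) (hS.star _ _ h)
  have h1 : Rel (Sum.map g New.side) (cc1 b) (nf true false) (nf false false) := by
    have e1 := rel_fst (Sum.map g New.side) (cc1 b) (nf true false)
    have e2 := rel_snd (Sum.map g New.side) (cc1 b) (nf true true)
    rw [cc1_new] at e2
    have e3 := rel_fst (Sum.map g New.side) (cc1 b) (nf false true)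
    exact (e1.trans e2).trans e3
  by_cases h2 : x ∈ A
  · refine h0 ?_
    rw [split_inl, if_neg (fun h => h.2 h2), hx, split_false]
  · refine (h0 ?_).trans h1
    rw [split_inl, if_pos ⟨hx, h2⟩, split_true]

/-- the old flags at the contracted vertex and the second switch -/
theorem cc1_eq_iff [Finite Ω] (hS : Abs (Sum.map g New.side) b (vtxSplit vtx w A)) :
    (nf true false : Ω ⊕ New) = cc1 b (nf false false) ↔ ¬ ∃ x, vtx x = w := by
  constructor
  · rintro h ⟨x, hx⟩
    have h1 := rel_cc1_w hS hx
    have hback : cc1 b (nf true false) = nf false false := by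
      rw [h, (cc1_inv hS.bi).inv]
    have := Rel.mem_of_closed hS.gi (cc1_inv hS.bi) (C := fun z => ∃ i t, z = (nf i t : Ω ⊕ New))
      (by
        rintro z ⟨i, t, rfl⟩
        exact ⟨i, !t, rfl⟩)
      (by
        rintro z ⟨i, t, rfl⟩
        cases t
        · cases i
          · exact ⟨true, false, h.symm⟩
          · exact ⟨false, false, hback⟩
        · exact ⟨!i, true, cc1_new b i⟩) h1.symm ⟨false, false, rfl⟩
    obtain ⟨i, t, h2⟩ := this
    cases h2
  · intro h
    have h1 := vtm_cc1 hS (nf false false)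
    rcases h2 : cc1 b (nf false false) with x | ⟨i, t⟩
    · exfalso
      rw [h2] at h1
      exact h ⟨x, h1⟩
    · cases t
      · cases i
        · exact absurd h2 ((cc1_inv hS.bi).ne _)
        · rfl
      · exfalso
        have h3 := cc1_new b i
        have h4 := (cc1_inv hS.bi).inv (nf false false)
        rw [h2] at h4
        change cc1 b (nf i true) = _ at h4
        rw [h3] at h4
        exact nf_ne (Or.inr (by decide)) h4

theorem cc_star [Finite Ω] (hS : Abs (Sum.map g New.side) b (vtxSplit vtx w A)) {b0 : Ω → Ω}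
    (hb0 : cc2 b = Sum.map b0 New.end) (x y : Ω) (hxy : vtx x = vtx y) : Rel g b0 x y := by
  classical
  have hI := cc1_inv hS.bi
  have hI2 := cc2_inv hS.bi
  have hG := hS.gi
  -- separation of the new flags
  have hsep : ∀ (y : Ω) (i t : Bool),
      ¬ Rel (Sum.map g New.side) (cc2 b) (Sum.inl y) (nf i t) := by
    intro y i t h
    rw [hb0] at h
    exact not_rel_sum g b0 New.side New.end y (i, t) h
  have hinv : ∀ {z z' : Ω ⊕ New}, Rel (Sum.map g New.side) (cc2 b) z z' →
      vtm vtx w z = vtm vtx w z' := by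
    intro z z' h
    exact Rel.mem_of_closed hG hI2 (C := fun z' => vtm vtx w z = vtm vtx w z')
      (fun z' hz => hz.trans (vtm_g hS z').symm) (fun z' hz => hz.trans (vtm_cc2 hS z').symm) h rfl
  have main : ∀ (y : Ω) (z : Ω ⊕ New), Rel (Sum.map g New.side) (cc1 b) (Sum.inl y) z →
      Rel (Sum.map g New.side) (cc2 b) (Sum.inl y) z ∨
        Rel (Sum.map g New.side) (cc2 b) (Sum.inl y) (cc1 b (nf false false)) := by
    intro y z h
    by_cases hx : Rel (Sum.map g New.side) (cc2 b) (Sum.inl y) (cc1 b (nf false false))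
    · exact Or.inr hx
    left
    refine Rel.mem_of_closed hG hI (C := fun z => Rel (Sum.map g New.side) (cc2 b) (Sum.inl y) z)
      (fun z hz => hz.trans (rel_fst _ _ _)) (fun z hz => ?_) h (rel_refl _ _ _)
    have h1 : cc2 b z = cc1 b z := by
      refine swv_ne ?_ ?_ ?_ ?_
      · rintro rfl
        exact hsep _ _ _ hz
      · rintro rfl
        exact hsep _ _ _ hz
      · rintro rfl
        exact hx hz
      · rintro rfl
        by_cases hq : (nf true false : Ω ⊕ New) = cc1 b (nf false false)
        · rw [hq, hI.inv] at hz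
          exact hsep _ _ _ hz
        · apply hx
          refine hz.trans ?_
          have h2 : cc2 b (cc1 b (nf true false)) = cc1 b (nf false false) :=
            swv_bq hI (nf_ne (Or.inl (by decide))) hq
          rw [← h2]
          exact rel_snd _ _ _
    rw [← h1]
    exact hz.trans (rel_snd _ _ _)
  have hfin : ∀ x y : Ω, Rel (Sum.map g New.side) (cc2 b) (Sum.inl x) (Sum.inl y) →
      Rel g b0 x y := by
    intro x y h
    rw [hb0] at h
    refine rel_of_sum hG ?_ h
    rw [← hb0]
    exact hI2
  by_cases hw : vtx x = w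
  · have hx : Rel (Sum.map g New.side) (cc2 b) (Sum.inl x) (cc1 b (nf false false)) := by
      rcases main x _ (rel_cc1_w hS hw) with h | h
      · exact absurd h (hsep _ _ _)
      · exact h
    have hy : Rel (Sum.map g New.side) (cc2 b) (Sum.inl y) (cc1 b (nf false false)) := by
      rcases main y _ (rel_cc1_w hS (hxy ▸ hw)) with h | h
      · exact absurd h (hsep _ _ _)
      · exact h
    exact hfin x y (hx.trans hy.symm)
  · have h1 : vtxSplit vtx w A (Sum.inl x) = vtxSplit vtx w A (Sum.inl y) := by
      rw [split_inl, split_inl, if_neg (fun h => hw h.1), if_neg (fun h => hw (hxy.trans h.1)), hxy]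
    have h2 : Rel (Sum.map g New.side) (cc1 b) (Sum.inl x) (Sum.inl y) :=
      rel_sw_diff hS.gi hS.bi (ends_not_rel hS true true) (hS.star _ _ h1)
    rcases main x _ h2 with h | h
    · exact hfin x y h
    · exfalso
      have h3 := hinv h
      rw [vtm_cc1 hS] at h3
      exact hw h3

theorem cc_abs [Finite Ω] (hS : Abs (Sum.map g New.side) b (vtxSplit vtx w A)) {b0 : Ω → Ω}
    (hb0 : cc2 b = Sum.map b0 New.end) (hi : IsInv b0) : Abs g b0 vtx := by
  refine ⟨isInv_of_map hS.gi, hi, fun x => vtm_g hS (Sum.inl x), fun x => ?_,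
    fun x y h => cc_star hS hb0 x y h⟩
  have h := vtm_cc2 hS (Sum.inl x)
  rw [hb0] at h
  exact h

theorem ori_cc2 [Finite Ω] (hS : Abs (Sum.map g New.side) b (vtxSplit vtx w A)) {b0 : Ω → Ω}
    (hb0 : cc2 b = Sum.map b0 New.end) (h : Ori a g b0) :
    Ori (Sum.map a New.end) (Sum.map g New.side) (cc1 b) := by
  obtain ⟨o, h1, h2, h3⟩ := ori_extend New.end (Or.inl rfl) h
  have hB := cc1_inv hS.bi
  have hpq : (nf false false : Ω ⊕ New) ≠ nf true false := nf_ne (Or.inl (by decide))
  by_cases hq : (nf true false : Ω ⊕ New) = cc1 b (nf false false)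
  · have h5 : cc2 b = cc1 b := sw_self hB hq
    rw [← h5, hb0]
    exact ⟨o, h1, h2, h3⟩
  · rcases hc : cc1 b (nf true false) with x | ⟨i, t⟩
    · by_cases h5 : o (Sum.inl x) = !(o (nf true false))
      · refine ⟨o, h1, h2, flips_of_sw' hB (p := nf false false) (q := nf true false) hpq ?_ ?_⟩
        · change Flips o (cc2 b)
          rw [hb0]
          exact h3
        · rw [hc]
          exact h5
      · obtain ⟨o', k1, k2, k3, k4, k5⟩ := ori_flip_right h1 h2 h3
        refine ⟨o', k1, k2, flips_of_sw' hB (p := nf false false) (q := nf true false) hpq ?_ ?_⟩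
        · change Flips o' (cc2 b)
          rw [hb0]
          exact k3
        · rw [hc, k4, k5, Bool.not_not]
          cases e1 : o (Sum.inl x) <;> cases e2 : o (nf true false) <;> simp_all
    · exfalso
      have h4 := hB.inv (nf true false)
      rw [hc] at h4
      cases t
      · cases i
        · change cc1 b (nf false false) = _ at h4
          exact hq h4.symm
        · exact hB.ne _ hc
      · change cc1 b (nf i true) = _ at h4
        rw [cc1_new] at h4
        exact nf_ne (Or.inr (by decide)) h4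

theorem ori_cc1 [Finite Ω] (hS : Abs (Sum.map g New.side) b (vtxSplit vtx w A))
    (h : Ori (Sum.map a New.end) (Sum.map g New.side) (cc1 b)) :
    Ori (Sum.map a New.end) (Sum.map g New.side) b := by
  obtain ⟨o, o1, o2, o3⟩ := h
  have hpq : (nf false true : Ω ⊕ New) ≠ nf true true := nf_ne (Or.inl (by decide))
  have hq : (nf true true : Ω ⊕ New) ≠ b (nf false true) := ends_ne hS true true
  have hnr := ends_not_rel hS true true
  have hn : norb (Sum.map g New.side) (cc1 b) + 1 = norb (Sum.map g New.side) b :=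
    norb_sw_diff hS.gi hS.bi hnr
  have hback : sw (cc1 b) (nf false true) (b (nf false true)) = b := sw_sw hS.bi hpq hq
  have hr : Rel (Sum.map g New.side) (cc1 b) (nf false true) (b (nf false true)) :=
    rel_sw_diff hS.gi hS.bi hnr (rel_snd _ _ _)
  have ho2 : o (nf false true) ≠ o (b (nf false true)) := by
    intro h
    have h6 := norb_sw_same hS.gi (cc1_inv hS.bi) o2 o3 (hS.bi.ne _).symm h hr
    rw [hback] at h6
    omega
  refine ⟨o, o1, o2, flips_of_sw' hS.bi (p := nf false true) (q := nf true true) hpq o3 ?_⟩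
  have h7 : cc1 b (b (nf false true)) = b (nf true true) := swv_bp hS.bi hq
  have h8 := o3 (b (nf false true))
  rw [h7] at h8
  have h9 := o3 (nf false true)
  rw [cc1_new] at h9
  change o (nf true true) = _ at h9
  rw [h8, h9]
  cases e1 : o (nf false true) <;> cases e2 : o (b (nf false true)) <;> simp_all

open Classical in
/-- Contracting an edge. -/
theorem contract_scheme [Finite Ω] (ha : IsInv a)
    (hS : Abs (Sum.map g New.side) b (vtxSplit vtx w A)) :
    ∃ b0 : Ω → Ω, Abs g b0 vtx ∧
      norb (Sum.map a New.end) b = norb a b0 + (if ∃ x, vtx x = w then 0 else 1) ∧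
      (Ori a g b0 → Ori (Sum.map a New.end) (Sum.map g New.side) b) := by
  have hA : IsInv (Sum.map a New.end) := isInv_map ha isInv_end'
  obtain ⟨b0, hb0, hi⟩ := exists_cc hS.bi
  refine ⟨b0, cc_abs hS hb0 hi, ?_, fun ho => ori_cc1 hS (ori_cc2 hS hb0 ho)⟩
  have h2 : norb (Sum.map a New.end) (cc2 b) = norb a b0 + 2 := by
    rw [hb0, norb_sum, norb_new_end]
  have h1 : norb (Sum.map a New.end) (cc1 b) = norb (Sum.map a New.end) b + 1 := by
    obtain ⟨s, hsa, hsb⟩ := exists_sign hA hS.bi
    refine norb_sw_split hA hS.bi hsa hsb (ends_ne hS true true) ?_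
      (rel_fst (Sum.map a New.end) b (nf false true))
    have h3 := hsa (nf false true)
    change s (nf true true) = _ at h3
    rw [h3]
    cases s (nf false true) <;> simp
  by_cases hx : ∃ x, vtx x = w
  · have hq : (nf true false : Ω ⊕ New) ≠ cc1 b (nf false false) := fun h =>
      (cc1_eq_iff hS).1 h hx
    have h3 : norb (Sum.map a New.end) (cc2 b) = norb (Sum.map a New.end) (cc1 b) + 1 := by
      obtain ⟨s, hsa, hsb⟩ := exists_sign hA (cc1_inv hS.bi)
      refine norb_sw_split hA (cc1_inv hS.bi) hsa hsb hq ?_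
        (rel_fst (Sum.map a New.end) (cc1 b) (nf false false))
      have h3 := hsa (nf false false)
      change s (nf true false) = _ at h3
      rw [h3]
      cases s (nf false false) <;> simp
    rw [if_pos hx]
    omega
  · have hq := (cc1_eq_iff hS).2 hx
    have h3 : cc2 b = cc1 b := sw_self (cc1_inv hS.bi) hq
    rw [h3] at h2
    rw [if_neg hx]
    omega

end Pool.Agent.H64.Hop
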