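import Mathlib
import Pool.Agent.H64.Hop.DelBr
import Pool.Agent.H64.Hop.Sum

set_option autoImplicit false

/-!
Embeddability in `N_k` is kept when an edge is deleted.
-/

namespace Pool.Agent.H64.Hop

open SimpleGraph Pool.Agent.H20.Hop

variable {V : Type*} {G : SimpleGraph V}

theorem reach_ne_adj {x y : V} (h : G.Reachable x y) (hne : x ≠ y) : ∃ w, G.Adj x w := by
  obtain ⟨p⟩ := h
  cases p with
  | nil => exact absurd rfl hne
  | cons h _ => exact ⟨_, h⟩

open Classical in
/-- isolated vertices after a deletion -/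
theorem iso_del_le [Finite V] {u v : V} (huv : G.Adj u v) :
    Nat.card {x : V // ∀ w, ¬ G.Adj x w} +
      (if ∃ w, (G.deleteEdges {s(u, v)}).Adj u w then 0 else 1) +
      (if ∃ w, (G.deleteEdges {s(u, v)}).Adj v w then 0 else 1) ≤
      Nat.card {x : V // ∀ w, ¬ (G.deleteEdges {s(u, v)}).Adj x w} := by
  have e1 : Nat.card {x : V // ∀ w, ¬ G.Adj x w} = ({x : V | ∀ w, ¬ G.Adj x w}).ncard := rfl
  have e2 : Nat.card {x : V // ∀ w, ¬ (G.deleteEdges {s(u, v)}).Adj x w} =
    ({x : V | ∀ w, ¬ (G.deleteEdges {s(u, v)}).Adj x w}).ncard := rfl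
  rw [e1, e2]
  have hsub : {x : V | ∀ w, ¬ G.Adj x w} ⊆ {x : V | ∀ w, ¬ (G.deleteEdges {s(u, v)}).Adj x w} :=
    fun x hx w hw => hx w (del_adj_iff.1 hw).1
  have hu : u ∉ {x : V | ∀ w, ¬ G.Adj x w} := fun h => h v huv
  have hv : v ∉ {x : V | ∀ w, ¬ G.Adj x w} := fun h => h u huv.symm
  by_cases h1 : ∃ w, (G.deleteEdges {s(u, v)}).Adj u w
  · by_cases h2 : ∃ w, (G.deleteEdges {s(u, v)}).Adj v w
    · rw [if_pos h1, if_pos h2]
      exact Set.ncard_le_ncard hsub
    · rw [if_pos h1, if_neg h2]
      push Not at h2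
      rw [add_zero, ← Set.ncard_insert_of_notMem hv]
      exact Set.ncard_le_ncard (Set.insert_subset h2 hsub)
  · by_cases h2 : ∃ w, (G.deleteEdges {s(u, v)}).Adj v w
    · rw [if_neg h1, if_pos h2]
      push Not at h1
      rw [add_zero, ← Set.ncard_insert_of_notMem hu]
      exact Set.ncard_le_ncard (Set.insert_subset h1 hsub)
    · rw [if_neg h1, if_neg h2]
      push Not at h1 h2
      have hv' : v ∉ insert u {x : V | ∀ w, ¬ G.Adj x w} := by
        rintro (h | h)
        · exact huv.ne h.symm
        · exact hv h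
      rw [← Set.ncard_insert_of_notMem hu, ← Set.ncard_insert_of_notMem hv']
      exact Set.ncard_le_ncard (Set.insert_subset h2 (Set.insert_subset h1 hsub))

/-- reachability and one edge -/
theorem reach_del {u v x y : V} (h : G.Reachable x y) :
    (G.deleteEdges {s(u, v)}).Reachable x y ∨
      ((G.deleteEdges {s(u, v)}).Reachable x u ∧ (G.deleteEdges {s(u, v)}).Reachable y v) ∨
      ((G.deleteEdges {s(u, v)}).Reachable x v ∧ (G.deleteEdges {s(u, v)}).Reachable y u) := by
  obtain ⟨p⟩ := h
  induction p with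
  | nil => exact Or.inl (Reachable.refl _)
  | @cons a b c hab p ih =>
    by_cases hn : delE u v a b
    · rcases hn with ⟨h1, h2⟩ | ⟨h1, h2⟩
      · rw [h2] at ih
        rw [h1]
        rcases ih with h | ⟨_, h⟩ | ⟨_, h⟩
        · exact Or.inr (Or.inl ⟨Reachable.refl _, h.symm⟩)
        · exact Or.inr (Or.inl ⟨Reachable.refl _, h⟩)
        · exact Or.inl h.symm
      · rw [h2] at ih
        rw [h1]
        rcases ih with h | ⟨_, h⟩ | ⟨_, h⟩
        · exact Or.inr (Or.inr ⟨Reachable.refl _, h.symm⟩)
        · exact Or.inl h.symm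
        · exact Or.inr (Or.inr ⟨Reachable.refl _, h⟩)
    · have h1 : (G.deleteEdges {s(u, v)}).Reachable a b := (del_adj_iff.2 ⟨hab, hn⟩).reachable
      rcases ih with h | ⟨h, h'⟩ | ⟨h, h'⟩
      · exact Or.inl (h1.trans h)
      · exact Or.inr (Or.inl ⟨h1.trans h, h'⟩)
      · exact Or.inr (Or.inr ⟨h1.trans h, h'⟩)

/-- the number of components grows by at most one -/
theorem card_comp_del_le [Finite V] (u v : V) :
    Nat.card (G.deleteEdges {s(u, v)}).ConnectedComponent ≤
      Nat.card G.ConnectedComponent + 1 := by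
  classical
  have f1 : Finite G.ConnectedComponent := Quot.finite _
  rw [← Finite.card_option]
  refine Nat.card_le_card_of_injective (fun C =>
    if C = (G.deleteEdges {s(u, v)}).connectedComponentMk v then none
    else some (C.map (SimpleGraph.Hom.ofLE (SimpleGraph.deleteEdges_le _)))) ?_
  intro C D h
  induction C using SimpleGraph.ConnectedComponent.ind with
  | h x =>
    induction D using SimpleGraph.ConnectedComponent.ind with
    | h y =>
      simp only at h
      by_cases h1 : (G.deleteEdges {s(u, v)}).connectedComponentMk x =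
          (G.deleteEdges {s(u, v)}).connectedComponentMk v
      · by_cases h2 : (G.deleteEdges {s(u, v)}).connectedComponentMk y =
            (G.deleteEdges {s(u, v)}).connectedComponentMk v
        · rw [h1, h2]
        · rw [if_pos h1, if_neg h2] at h
          cases h
      · by_cases h2 : (G.deleteEdges {s(u, v)}).connectedComponentMk y =
            (G.deleteEdges {s(u, v)}).connectedComponentMk v
        · rw [if_neg h1, if_pos h2] at h
          cases h
        · rw [if_neg h1, if_neg h2] at h
          have h3 : G.connectedComponentMk x = G.connectedComponentMk y := Option.some.inj h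
          rcases reach_del (u := u) (v := v) (SimpleGraph.ConnectedComponent.exact h3) with
            h4 | ⟨_, h4⟩ | ⟨h4, _⟩
          · exact SimpleGraph.ConnectedComponent.sound h4
          · exact absurd (SimpleGraph.ConnectedComponent.sound h4) h2
          · exact absurd (SimpleGraph.ConnectedComponent.sound h4) h1

/-- deleting an edge keeps the embeddability -/
theorem embeds_del [Finite V] {u v : V} (huv : G.Adj u v) {k : ℕ} (h : EmbedsN G k) :
    EmbedsN (G.deleteEdges {s(u, v)}) k := by
  classical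
  obtain ⟨S, hS⟩ := h
  obtain ⟨e, he1, he2, he3⟩ := flagDel_exists huv
  obtain ⟨b, hb, hbn, hbo⟩ := abs_of_scheme e id Function.injective_id he1 he2 he3 S
  have hE := card_edge_del huv
  have hI := iso_del_le huv
  have hex : ∀ x : V, (∃ f : Flag (G.deleteEdges {s(u, v)}), f.1.fst = x) ↔
      ∃ w, (G.deleteEdges {s(u, v)}).Adj x w := by
    intro x
    constructor
    · rintro ⟨f, rfl⟩
      exact ⟨_, f.1.adj⟩
    · rintro ⟨w, hw⟩
      exact ⟨(⟨(x, w), hw⟩, true), rfl⟩
  by_cases hr : (G.deleteEdges {s(u, v)}).Reachable u v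
  · have hu := reach_ne_adj hr huv.ne
    have hv := reach_ne_adj hr.symm huv.ne.symm
    rw [if_pos hu, if_pos hv] at hI
    have hC := card_comp_del hr
    obtain ⟨b0, hb0, h1, h2⟩ := delete_cycle huv.ne along_isInv hb ((hex v).2 hv)
    obtain ⟨S', hn', ho'⟩ := scheme_of_equiv (G := G.deleteEdges {s(u, v)})
      (a' := Flag.along) (Equiv.refl _) id Function.injective_id (fun f => rfl) (fun f => rfl)
      (fun f => rfl) hb0
    refine ⟨S', ?_⟩
    unfold Scheme.EulerGenusLE at hS ⊢
    rw [Scheme.numFaces_eq] at hS ⊢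
    rw [hn']
    rw [hbn] at hS
    rcases hS with hS | ⟨hS, hSo⟩
    · left
      push_cast at hS ⊢
      omega
    · rcases h2 with h2 | h2
      · left
        push_cast at hS ⊢
        omega
      · right
        refine ⟨?_, fun h3 => hSo (hbo (h2 (ho' h3)))⟩
        push_cast at hS ⊢
        omega
  · have hC := card_comp_del_le (G := G) u v
    obtain ⟨b0, hb0, h1, h2⟩ := delete_bridge huv.ne along_isInv hb
      (fun x => (G.deleteEdges {s(u, v)}).Reachable v x)
      (fun f => ⟨fun h => h.trans f.1.adj.symm.reachable, fun h => h.trans f.1.adj.reachable⟩)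
      (Reachable.refl _) (fun h => hr h.symm)
    obtain ⟨S', hn', ho'⟩ := scheme_of_equiv (G := G.deleteEdges {s(u, v)})
      (a' := Flag.along) (Equiv.refl _) id Function.injective_id (fun f => rfl) (fun f => rfl)
      (fun f => rfl) hb0
    simp only [hex] at h1
    refine ⟨S', ?_⟩
    unfold Scheme.EulerGenusLE at hS ⊢
    rw [Scheme.numFaces_eq] at hS ⊢
    rw [hn']
    rw [hbn] at hS
    rcases hS with hS | ⟨hS, hSo⟩
    · left
      push_cast at hS ⊢
      omega
    · right
      refine ⟨?_, fun h3 => hSo (hbo (h2 (ho' h3)))⟩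
      push_cast at hS ⊢
      omega

end Pool.Agent.H64.Hop
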