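import Mathlib
import Pool.Agent.H64.Hop.ConAbs
import Pool.Agent.H64.Hop.DelG
import Pool.Agent.H20.Hop.ContrB

set_option autoImplicit false

/-!
Embeddability in `N_k` is kept when an edge is contracted.
-/

namespace Pool.Agent.H64.Hop

open SimpleGraph Pool.Agent.H20.Hop

variable {V : Type*} {G : SimpleGraph V}

open Classical in
theorem iso_con_le [Finite V] {u v : V} (huv : G.Adj u v) :
    Nat.card {x : V // ∀ w, ¬ G.Adj x w} +
      (if ∃ w, (contr G u v).Adj ⟨u, huv.ne⟩ w then 0 else 1) ≤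
      Nat.card {x : {x : V // x ≠ v} // ∀ w, ¬ (contr G u v).Adj x w} := by
  have hxv : ∀ x : V, (∀ w, ¬ G.Adj x w) → x ≠ v := fun x h h1 => h u (h1 ▸ huv.symm)
  have hxu : ∀ x : V, (∀ w, ¬ G.Adj x w) → x ≠ u := fun x h h1 => h v (h1 ▸ huv)
  have hiso : ∀ (x : V) (h : ∀ w, ¬ G.Adj x w), ∀ w, ¬ (contr G u v).Adj ⟨x, hxv x h⟩ w := by
    rintro x h w ⟨-, h1 | ⟨h1, -⟩ | ⟨-, h1⟩⟩
    · exact h _ h1
    · exact hxu x h h1
    · exact h _ h1.symm
  by_cases hu : ∃ w, (contr G u v).Adj ⟨u, huv.ne⟩ w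
  · rw [if_pos hu, add_zero]
    refine Nat.card_le_card_of_injective
      (fun x : {x : V // ∀ w, ¬ G.Adj x w} =>
        (⟨⟨x.1, hxv x.1 x.2⟩, hiso x.1 x.2⟩ :
          {x : {x : V // x ≠ v} // ∀ w, ¬ (contr G u v).Adj x w})) ?_
    intro x y h
    exact Subtype.ext (congrArg (fun z => z.1.1) h)
  · rw [if_neg hu, ← Finite.card_option]
    push Not at hu
    refine Nat.card_le_card_of_injective
      (fun x : Option {x : V // ∀ w, ¬ G.Adj x w} => x.elim
        (⟨⟨u, huv.ne⟩, hu⟩ : {x : {x : V // x ≠ v} // ∀ w, ¬ (contr G u v).Adj x w})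
        (fun x => ⟨⟨x.1, hxv x.1 x.2⟩, hiso x.1 x.2⟩)) ?_
    rintro (_ | x) (_ | y) h
    · rfl
    · exact absurd (congrArg (fun z => z.1.1) h) (hxu y.1 y.2).symm
    · exact absurd (congrArg (fun z => z.1.1) h) (hxu x.1 x.2)
    · exact congrArg some (Subtype.ext (congrArg (fun z => z.1.1) h))

/-- contracting an edge without common neighbours -/
theorem embeds_con0 [Finite V] {u v : V} (huv : G.Adj u v)
    (hno : ∀ z, G.Adj u z → ¬ G.Adj v z) {k : ℕ} (h : EmbedsN G k) :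
    EmbedsN (contr G u v) k := by
  classical
  obtain ⟨S, hS⟩ := h
  have hfin : Finite (Flag (contr G u v)) := by
    have := Fintype.ofFinite V
    infer_instance
  obtain ⟨e, he1, he2, he3⟩ := flagCon_exists huv hno
  obtain ⟨b, hb, hbn, hbo⟩ := abs_of_scheme e (nu v) (nu_injective v) he1 he2 he3 S
  have hE := card_edge_con huv hno
  have hC := card_comp_con huv
  have hV := card_vert_con (V := V) v
  have hI := iso_con_le huv
  have hex : (∃ f : Flag (contr G u v), f.1.fst = ⟨u, huv.ne⟩) ↔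
      ∃ w, (contr G u v).Adj ⟨u, huv.ne⟩ w := by
    constructor
    · rintro ⟨f, hf⟩
      exact ⟨f.1.snd, hf ▸ f.1.adj⟩
    · rintro ⟨w, hw⟩
      exact ⟨(⟨(⟨u, huv.ne⟩, w), hw⟩, true), rfl⟩
  obtain ⟨b0, hb0, h1, h2⟩ := contract_scheme along_isInv hb
  obtain ⟨S', hn', ho'⟩ := scheme_of_equiv (G := contr G u v)
    (a' := Flag.along) (Equiv.refl _) id Function.injective_id (fun f => rfl) (fun f => rfl)
    (fun f => rfl) hb0
  simp only [hex] at h1
  refine ⟨S', ?_⟩
  unfold Scheme.EulerGenusLE at hS ⊢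
  rw [Scheme.numFaces_eq] at hS ⊢
  rw [hn']
  rw [hbn] at hS
  rcases hS with hS | ⟨hS, hSo⟩
  · left
    push_cast at hS ⊢
    omega
  · right
    refine ⟨?_, fun h3 => hSo (hbo (h2 (ho' h3)))⟩
    push_cast at hS ⊢
    omega

/-- an edge to a common neighbour can be deleted before the contraction -/
theorem contr_del {u v z : V} (huv : G.Adj u v) (huz : G.Adj u z) (hvz : G.Adj v z) :
    contr (G.deleteEdges {s(v, z)}) u v = contr G u v := by
  ext x y
  have hx := x.2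
  have hy := y.2
  change (x ≠ y ∧ ((G.deleteEdges {s(v, z)}).Adj x.1 y.1 ∨
      (x.1 = u ∧ (G.deleteEdges {s(v, z)}).Adj v y.1) ∨
      (y.1 = u ∧ (G.deleteEdges {s(v, z)}).Adj v x.1))) ↔
    (x ≠ y ∧ (G.Adj x.1 y.1 ∨ (x.1 = u ∧ G.Adj v y.1) ∨ (y.1 = u ∧ G.Adj v x.1)))
  refine and_congr_right (fun _ => ?_)
  constructor
  · rintro (h | ⟨h1, h⟩ | ⟨h1, h⟩)
    · exact Or.inl (del_adj_iff.1 h).1
    · exact Or.inr (Or.inl ⟨h1, (del_adj_iff.1 h).1⟩)
    · exact Or.inr (Or.inr ⟨h1, (del_adj_iff.1 h).1⟩)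
  · have key : ∀ {a b : V}, a ≠ v → b ≠ v → G.Adj a b → (G.deleteEdges {s(v, z)}).Adj a b := by
      intro a b ha hb hab
      refine del_adj_iff.2 ⟨hab, ?_⟩
      rintro (⟨h1, _⟩ | ⟨_, h1⟩)
      · exact ha h1
      · exact hb h1
    rintro (h | ⟨h1, h⟩ | ⟨h1, h⟩)
    · exact Or.inl (key hx hy h)
    · by_cases hz : y.1 = z
      · left
        rw [h1, hz]
        exact key huv.ne hvz.ne.symm huz
      · refine Or.inr (Or.inl ⟨h1, del_adj_iff.2 ⟨h, ?_⟩⟩)
        rintro (⟨_, h2⟩ | ⟨_, h2⟩)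
        · exact hz h2
        · exact hy h2
    · by_cases hz : x.1 = z
      · left
        rw [h1, hz]
        exact key hvz.ne.symm huv.ne huz.symm
      · refine Or.inr (Or.inr ⟨h1, del_adj_iff.2 ⟨h, ?_⟩⟩)
        rintro (⟨_, h2⟩ | ⟨_, h2⟩)
        · exact hz h2
        · exact hx h2

/-- contracting an edge keeps the embeddability -/
theorem embeds_con [Finite V] {u v : V} (huv : G.Adj u v) {k : ℕ} (h : EmbedsN G k) :
    EmbedsN (contr G u v) k := by
  induction hn : Nat.card G.edgeSet using Nat.strong_induction_on generalizing G with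
  | _ n ih =>
    by_cases hno : ∀ z, G.Adj u z → ¬ G.Adj v z
    · exact embeds_con0 huv hno h
    · push Not at hno
      obtain ⟨z, huz, hvz⟩ := hno
      have h1 : (G.deleteEdges {s(v, z)}).Adj u v := by
        refine del_adj_iff.2 ⟨huv, ?_⟩
        rintro (⟨h1, _⟩ | ⟨h1, _⟩)
        · exact huv.ne h1
        · exact huz.ne h1
      have h2 := card_edge_del hvz
      rw [← contr_del huv huz hvz]
      exact ih (Nat.card (G.deleteEdges {s(v, z)}).edgeSet) (by omega) h1 (embeds_del hvz h) rfl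

end Pool.Agent.H64.Hop
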