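import Mathlib
import Pool.Agent.H64.Hop.ConG
import Pool.Agent.H64.Hop.Up

set_option autoImplicit false

/-!
Embeddability in `N_k` is kept by isomorphisms and when an isolated vertex is deleted.
-/

namespace Pool.Agent.H64.Hop

open SimpleGraph Pool.Agent.H20.Hop

variable {V W : Type*} {G : SimpleGraph V}

theorem embeds_iso [Finite V] [Finite W] {H : SimpleGraph W} (φ : G ≃g H) {k : ℕ}
    (h : EmbedsN G k) : EmbedsN H k := by
  obtain ⟨S, hS | ⟨hS, hS'⟩⟩ := h
  · obtain ⟨S', h1, -⟩ := scheme_iso φ S hS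
    exact ⟨S', Or.inl h1⟩
  · obtain ⟨S', h1, h2⟩ := scheme_iso φ S hS
    exact ⟨S', Or.inr ⟨h1, fun h => hS' (h2 h)⟩⟩

theorem reach_isolated' {x y : V} (hx : ∀ w, ¬ G.Adj x w) (h : G.Reachable x y) : x = y := by
  by_contra hne
  obtain ⟨w, hw⟩ := reach_ne_adj h hne
  exact hx w hw

theorem count_isolated [Finite V] {v : V} (hv : ∀ w, ¬ G.Adj v w) :
    Nat.card V = Nat.card {x : V | x ≠ v} + 1 ∧
    Nat.card G.edgeSet = Nat.card (G.induce {x | x ≠ v}).edgeSet ∧
    Nat.card {x : V // ∀ w, ¬ G.Adj x w} =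
      Nat.card {x : {x : V | x ≠ v} // ∀ w, ¬ (G.induce {x | x ≠ v}).Adj x w} + 1 ∧
    Nat.card G.ConnectedComponent =
      Nat.card (G.induce {x | x ≠ v}).ConnectedComponent + 1 := by
  classical
  have hv1 : ∀ {x y : V}, G.Adj x y → x ≠ v := by
    rintro x y h rfl
    exact hv y h
  have hv2 : ∀ {x y : V}, G.Adj x y → y ≠ v := by
    rintro x y h rfl
    exact hv x h.symm
  refine ⟨card_vert_con v, ?_, ?_, ?_⟩
  · symm
    refine Nat.card_congr (Equiv.ofBijective
      (SimpleGraph.Embedding.mapEdgeSet (SimpleGraph.Embedding.induce {x | x ≠ v})) ⟨?_, ?_⟩)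
    · exact (SimpleGraph.Embedding.mapEdgeSet _).injective
    · rintro ⟨s, hs⟩
      induction s with
      | h x y =>
        have hxy : G.Adj x y := hs
        refine ⟨⟨s(⟨x, hv1 hxy⟩, ⟨y, hv2 hxy⟩), hxy⟩, ?_⟩
        apply Subtype.ext
        rfl
  · have h1 : {x : V | ∀ w, ¬ G.Adj x w} = insert v (Subtype.val ''
        {x : {x : V | x ≠ v} | ∀ w, ¬ (G.induce {x | x ≠ v}).Adj x w}) := by
      ext x
      simp only [Set.mem_ofPred_eq, Set.mem_insert_iff, Set.mem_image]
      constructor
      · intro h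
        by_cases hx : x = v
        · exact Or.inl hx
        · exact Or.inr ⟨⟨x, hx⟩, fun w hw => h w.1 hw, rfl⟩
      · rintro (rfl | ⟨x, hx, rfl⟩)
        · exact hv
        · intro w hw
          exact hx ⟨w, hv2 hw⟩ hw
    have h2 : Nat.card {x : V // ∀ w, ¬ G.Adj x w} = ({x : V | ∀ w, ¬ G.Adj x w}).ncard := rfl
    have h3 : Nat.card {x : {x : V | x ≠ v} // ∀ w, ¬ (G.induce {x | x ≠ v}).Adj x w} =
      ({x : {x : V | x ≠ v} | ∀ w, ¬ (G.induce {x | x ≠ v}).Adj x w}).ncard := rfl
    rw [h2, h3, h1, Set.ncard_insert_of_notMem ?_ (Set.toFinite _),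
      Set.ncard_image_of_injective _ Subtype.val_injective]
    rintro ⟨x, -, hx⟩
    exact x.2 hx
  · have hreach : ∀ x y, G.Reachable x y → ∀ hx : x ≠ v, ∃ hy : y ≠ v,
        (G.induce {x | x ≠ v}).Reachable ⟨x, hx⟩ ⟨y, hy⟩ := by
      rintro x y ⟨p⟩
      induction p with
      | nil => exact fun hx => ⟨hx, SimpleGraph.Reachable.refl _⟩
      | @cons x z y hadj p ih =>
        intro hx
        obtain ⟨hy, h1⟩ := ih (hv2 hadj)
        refine ⟨hy, SimpleGraph.Reachable.trans ?_ h1⟩
        have h2 : (G.induce {x | x ≠ v}).Adj ⟨x, hx⟩ ⟨z, hv2 hadj⟩ := hadj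
        exact h2.reachable
    rw [← Finite.card_option]
    symm
    let f : Option (G.induce {x | x ≠ v}).ConnectedComponent → G.ConnectedComponent :=
      fun C => C.elim (G.connectedComponentMk v)
        (fun C => C.map (SimpleGraph.Embedding.induce {x | x ≠ v}).toHom)
    have hv0 : ∀ x : {x : V | x ≠ v}, G.connectedComponentMk v ≠ G.connectedComponentMk x.1 := by
      intro x h
      exact x.2 (reach_isolated' hv (SimpleGraph.ConnectedComponent.exact h)).symm
    refine Nat.card_congr (Equiv.ofBijective f ⟨?_, ?_⟩)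
    · rintro (_ | C) (_ | D) h
      · rfl
      · exfalso
        induction D using SimpleGraph.ConnectedComponent.ind with
        | h y => exact hv0 y h
      · exfalso
        induction C using SimpleGraph.ConnectedComponent.ind with
        | h y => exact hv0 y h.symm
      · congr 1
        induction C using SimpleGraph.ConnectedComponent.ind with
        | h x =>
          induction D using SimpleGraph.ConnectedComponent.ind with
          | h y =>
            have h' : G.Reachable x.1 y.1 := by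
              have h0 : G.connectedComponentMk x.1 = G.connectedComponentMk y.1 := h
              exact SimpleGraph.ConnectedComponent.exact h0
            obtain ⟨_, h1⟩ := hreach x.1 y.1 h' x.2
            exact SimpleGraph.ConnectedComponent.sound h1
    · intro C
      induction C using SimpleGraph.ConnectedComponent.ind with
      | h x =>
        by_cases hx : x = v
        · refine ⟨none, ?_⟩
          rw [hx]
          rfl
        · exact ⟨some ((G.induce {x | x ≠ v}).connectedComponentMk ⟨x, hx⟩), rfl⟩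

theorem embeds_isol [Finite V] {v : V} (hv : ∀ w, ¬ G.Adj v w) {k : ℕ}
    (h : EmbedsN G k) : EmbedsN (G.induce {x | x ≠ v}) k := by
  classical
  obtain ⟨S, hS⟩ := h
  have hv1 : ∀ {x y : V}, G.Adj x y → x ≠ v := by
    rintro x y h rfl
    exact hv y h
  have hv2 : ∀ {x y : V}, G.Adj x y → y ≠ v := by
    rintro x y h rfl
    exact hv x h.symm
  let e : Flag G ≃ Flag (G.induce {x | x ≠ v}) :=
    { toFun := fun f => (⟨(⟨f.1.fst, hv1 f.1.adj⟩, ⟨f.1.snd, hv2 f.1.adj⟩), f.1.adj⟩, f.2)
      invFun := fun f => (⟨(f.1.fst.1, f.1.snd.1), f.1.adj⟩, f.2)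
      left_inv := fun f => rfl
      right_inv := fun f => rfl }
  obtain ⟨b, hb, hbn, hbo⟩ := abs_of_scheme (a' := Flag.along) (g' := Flag.across)
    (vtx' := fun f : Flag (G.induce {x | x ≠ v}) => (f.1.fst : V)) e id
    Function.injective_id (fun f => rfl) (fun f => rfl) (fun f => rfl) S
  obtain ⟨S', hn', ho'⟩ := scheme_of_equiv (G := G.induce {x | x ≠ v}) (a' := Flag.along)
    (Equiv.refl _) (fun x : {x : V | x ≠ v} => (x : V)) Subtype.val_injective (fun f => rfl)
    (fun f => rfl) (fun f => rfl) hb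
  obtain ⟨hV, hE, hI, hC⟩ := count_isolated hv
  have key : ∀ g : ℕ, S.EulerGenusLE g → S'.EulerGenusLE g := by
    intro g hg
    unfold Scheme.EulerGenusLE at hg ⊢
    rw [S.numFaces_eq, hbn, hV, hE, hI, hC] at hg
    rw [S'.numFaces_eq, hn']
    push_cast at hg ⊢
    linarith
  refine ⟨S', ?_⟩
  rcases hS with h | ⟨h, ho⟩
  · exact Or.inl (key _ h)
  · exact Or.inr ⟨key _ h, fun h3 => ho (hbo (ho' h3))⟩

end Pool.Agent.H64.Hop
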