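import Mathlib
import Pool.Agent.H64.Hop.Isol

set_option autoImplicit false

/-!
Embeddability in `N_k` is closed under minors.
-/

namespace Pool.Agent.H64.Hop

open SimpleGraph Pool.Agent.H20.Hop

universe v₀ w₀

variable {V : Type v₀} {W : Type w₀} {G : SimpleGraph V} {H : SimpleGraph W}

theorem conPr_mem {B : W → Set V} (hB2 : ∀ w w', w ≠ w' → Disjoint (B w) (B w'))
    {u v : V} (huv : G.Adj u v) {w : W} (hu : u ∈ B w) (hv : v ∈ B w) {w' : W} {p : V}
    (hp : p ∈ B w') : (conPr huv.ne p).1 ∈ B w' := by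
  by_cases h : p = v
  · rw [h, conPr_self]
    have hw : w' = w := by
      by_contra hne
      exact Set.disjoint_left.1 (hB2 w' w hne) (h ▸ hp) hv
    rw [hw]
    exact hu
  · rw [conPr_ne _ h]
    exact hp

/-- contraction of an edge in a branch set -/
theorem minor_contr {B : W → Set V} (hB1 : ∀ w, (G.induce (B w)).Connected)
    (hB2 : ∀ w w', w ≠ w' → Disjoint (B w) (B w'))
    (hB3 : ∀ w w', H.Adj w w' → ∃ x ∈ B w, ∃ y ∈ B w', G.Adj x y)
    {u v : V} (huv : G.Adj u v) {w : W} (hu : u ∈ B w) (hv : v ∈ B w) :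
    IsMinor H (contr G u v) := by
  have hmem : ∀ {w' : W} {p : V}, p ∈ B w' → (conPr huv.ne p).1 ∈ B w' :=
    fun hp => conPr_mem hB2 huv hu hv hp
  refine ⟨fun w' => {t | t.1 ∈ B w'}, ?_, ?_, ?_⟩
  · intro w'
    obtain ⟨p0⟩ := (hB1 w').nonempty
    have hne : Nonempty ({t : {x : V // x ≠ v} | t.1 ∈ B w'} : Set {x : V // x ≠ v}) :=
      ⟨⟨conPr huv.ne p0.1, hmem p0.2⟩⟩
    have key : ∀ p q : B w', (G.induce (B w')).Reachable p q →
        ((contr G u v).induce {t : {x : V // x ≠ v} | t.1 ∈ B w'}).Reachable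
          (⟨conPr huv.ne p.1, hmem p.2⟩ :
            ({t : {x : V // x ≠ v} | t.1 ∈ B w'} : Set {x : V // x ≠ v}))
          (⟨conPr huv.ne q.1, hmem q.2⟩ :
            ({t : {x : V // x ≠ v} | t.1 ∈ B w'} : Set {x : V // x ≠ v})) := by
      rintro p q ⟨r⟩
      induction r with
      | nil => exact Reachable.refl _
      | @cons a b c hab r ih =>
        refine Reachable.trans ?_ ih
        have hab' : G.Adj a.1 b.1 := hab
        by_cases hn : isUV u v a.1 b.1
        · have h1 : conPr huv.ne a.1 = conPr huv.ne b.1 := by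
            rcases hn with ⟨h1, h2⟩ | ⟨h1, h2⟩
            · rw [h1, h2, conPr_self, conPr_ne _ huv.ne]
            · rw [h1, h2, conPr_self, conPr_ne _ huv.ne]
          have h2 : (⟨conPr huv.ne a.1, hmem a.2⟩ :
              ({t : {x : V // x ≠ v} | t.1 ∈ B w'} : Set {x : V // x ≠ v})) =
              ⟨conPr huv.ne b.1, hmem b.2⟩ := Subtype.ext h1
          rw [h2]
        · apply SimpleGraph.Adj.reachable
          rw [SimpleGraph.induce_adj]
          exact contr_adj_conPr huv hab' hn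
    refine ⟨?_⟩
    intro s t
    have h := key ⟨s.1.1, s.2⟩ ⟨t.1.1, t.2⟩ ((hB1 w').preconnected _ _)
    have e1 : (⟨conPr huv.ne s.1.1, hmem s.2⟩ :
        ({t : {x : V // x ≠ v} | t.1 ∈ B w'} : Set {x : V // x ≠ v})) = s :=
      Subtype.ext (conPr_val huv.ne s.1)
    have e2 : (⟨conPr huv.ne t.1.1, hmem t.2⟩ :
        ({t : {x : V // x ≠ v} | t.1 ∈ B w'} : Set {x : V // x ≠ v})) = t :=
      Subtype.ext (conPr_val huv.ne t.1)
    rw [e1, e2] at h
    exact h
  · intro w1 w2 hw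
    rw [Set.disjoint_left]
    intro t h1 h2
    exact Set.disjoint_left.1 (hB2 w1 w2 hw) h1 h2
  · intro w1 w2 hw
    obtain ⟨x, hx, y, hy, hxy⟩ := hB3 w1 w2 hw
    refine ⟨conPr huv.ne x, hmem hx, conPr huv.ne y, hmem hy, contr_adj_conPr huv hxy ?_⟩
    have hne := hw.ne
    have hin : ∀ {z : V} {w' : W}, z ∈ B w' → z ∈ B w → w' = w := by
      intro z w' h1 h2
      by_contra hne
      exact Set.disjoint_left.1 (hB2 w' w hne) h1 h2
    rintro (⟨h1, h2⟩ | ⟨h1, h2⟩)
    · exact hne ((hin hx (h1 ▸ hu)).trans (hin hy (h2 ▸ hv)).symm)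
    · exact hne ((hin hx (h1 ▸ hv)).trans (hin hy (h2 ▸ hu)).symm)

theorem conn_single (G : SimpleGraph V) (w : V) : (G.induce {w}).Connected := by
  have : Nonempty ({w} : Set V) := ⟨⟨w, rfl⟩⟩
  refine ⟨fun a b => ?_⟩
  have hab : a = b := Subtype.ext (a.2.trans b.2.symm)
  rw [hab]

/-- a subgraph (with an injection of the vertices) is a minor -/
theorem isMinor_of_inj {β : W → V} (hβ : Function.Injective β)
    (h : ∀ w w', H.Adj w w' → G.Adj (β w) (β w')) : IsMinor H G := by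
  refine ⟨fun w => {β w}, fun w => conn_single G _, ?_, ?_⟩
  · intro w w' hw
    rw [Set.disjoint_singleton]
    exact fun h => hw (hβ h)
  · intro w w' hw
    exact ⟨_, rfl, _, rfl, h w w' hw⟩

/-- the first step from a graph to a minor -/
theorem minor_cases (hm : IsMinor H G) :
    (∃ u v, G.Adj u v ∧ IsMinor H (contr G u v)) ∨
    (∃ u v, G.Adj u v ∧ IsMinor H (G.deleteEdges {s(u, v)})) ∨
    (∃ v, (∀ w, ¬ G.Adj v w) ∧ IsMinor H (G.induce {x | x ≠ v})) ∨ Nonempty (H ≃g G) := by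
  obtain ⟨B, hB1, hB2, hB3⟩ := hm
  by_cases h1 : ∃ w, ∃ x ∈ B w, ∃ y ∈ B w, x ≠ y
  · left
    obtain ⟨w, x, hx, y, hy, hxy⟩ := h1
    have h2 : (G.induce (B w)).Reachable ⟨x, hx⟩ ⟨y, hy⟩ := (hB1 w).preconnected _ _
    obtain ⟨z, hz⟩ := reach_ne_adj h2 (fun h => hxy (congrArg Subtype.val h))
    have hxz : G.Adj x z.1 := hz
    exact ⟨x, z.1, hxz, minor_contr hB1 hB2 hB3 hxz hx z.2⟩
  right
  push Not at h1
  have hne : ∀ w, ∃ x, x ∈ B w := fun w => by
    obtain ⟨p⟩ := (hB1 w).nonempty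
    exact ⟨p.1, p.2⟩
  choose β hβ using hne
  have hinj : Function.Injective β := by
    intro w w' h
    by_contra hne
    exact Set.disjoint_left.1 (hB2 w w' hne) (hβ w) (h ▸ hβ w')
  have hadj : ∀ w w', H.Adj w w' → G.Adj (β w) (β w') := by
    intro w w' h
    obtain ⟨x, hx, y, hy, hxy⟩ := hB3 w w' h
    rw [h1 w (β w) (hβ w) x hx, h1 w' (β w') (hβ w') y hy]
    exact hxy
  by_cases h2 : ∃ x y, G.Adj x y ∧ ¬ ∃ w w', H.Adj w w' ∧ β w = x ∧ β w' = y
  · left
    obtain ⟨x, y, hxy, hno⟩ := h2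
    refine ⟨x, y, hxy, isMinor_of_inj hinj (fun w w' h => del_adj_iff.2 ⟨hadj w w' h, ?_⟩)⟩
    rintro (⟨e1, e2⟩ | ⟨e1, e2⟩)
    · exact hno ⟨w, w', h, e1, e2⟩
    · exact hno ⟨w', w, h.symm, e2, e1⟩
  push Not at h2
  right
  by_cases h3 : ∃ v, ∀ w, β w ≠ v
  · left
    obtain ⟨v, hv⟩ := h3
    refine ⟨v, fun y hy => ?_, ?_⟩
    · obtain ⟨w, w', _, e1, _⟩ := h2 v y hy
      exact hv w e1
    · refine isMinor_of_inj (β := fun w => (⟨β w, hv w⟩ : {x : V | x ≠ v}))
        (fun w w' h => hinj (congrArg Subtype.val h)) (fun w w' h => hadj w w' h)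
  · right
    push Not at h3
    refine ⟨⟨Equiv.ofBijective β ⟨hinj, h3⟩, ?_⟩⟩
    intro a b
    change G.Adj (β a) (β b) ↔ H.Adj a b
    constructor
    · intro h
      obtain ⟨w, w', hw, e1, e2⟩ := h2 _ _ h
      rw [← hinj e1, ← hinj e2]
      exact hw
    · exact hadj a b

theorem card_edge_con_lt [Finite V] {u v : V} (huv : G.Adj u v) :
    Nat.card (contr G u v).edgeSet < Nat.card G.edgeSet := by
  induction hn : Nat.card G.edgeSet using Nat.strong_induction_on generalizing G with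
  | _ n ih =>
    by_cases hno : ∀ z, G.Adj u z → ¬ G.Adj v z
    · have := card_edge_con huv hno
      omega
    · push Not at hno
      obtain ⟨z, huz, hvz⟩ := hno
      have h1 : (G.deleteEdges {s(v, z)}).Adj u v := by
        refine del_adj_iff.2 ⟨huv, ?_⟩
        rintro (⟨h1, _⟩ | ⟨h1, _⟩)
        · exact huv.ne h1
        · exact huz.ne h1
      have h2 := card_edge_del hvz
      rw [← contr_del huv huz hvz]
      have := ih (Nat.card (G.deleteEdges {s(v, z)}).edgeSet) (by omega) h1 rfl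
      omega

/-- Embeddability in `N_k` is closed under minors. -/
theorem embeds_minor [Finite W] {k : ℕ} : ∀ (n : ℕ) (V : Type v₀) (_ : Finite V)
    (G : SimpleGraph V), Nat.card V + Nat.card G.edgeSet = n → IsMinor H G → EmbedsN G k →
      EmbedsN H k := by
  intro n
  induction n using Nat.strong_induction_on with
  | _ n ih =>
    intro V hV G hn hm hG
    rcases minor_cases hm with ⟨u, v, huv, h⟩ | ⟨u, v, huv, h⟩ | ⟨v, hv, h⟩ | ⟨⟨φ⟩⟩
    · have h1 := card_edge_con_lt huv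
      have h2 := card_vert_con (V := V) v
      exact ih _ (by omega) {x : V // x ≠ v} inferInstance (contr G u v) rfl h
        (embeds_con huv hG)
    · have h1 := card_edge_del huv
      exact ih _ (by omega) V hV (G.deleteEdges {s(u, v)}) rfl h (embeds_del huv hG)
    · obtain ⟨h1, h2, -, -⟩ := count_isolated hv
      exact ih _ (by omega) {x : V | x ≠ v} inferInstance (G.induce {x | x ≠ v}) rfl h
        (embeds_isol hv hG)
    · exact embeds_iso φ.symm hG

/-- Embeddability in `N_k` is closed under minors. -/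
theorem EmbedsN.minor [Finite V] [Finite W] {k : ℕ} (hG : EmbedsN G k) (hm : IsMinor H G) :
    EmbedsN H k := embeds_minor _ V inferInstance G rfl hm hG

/-- Single operations are enough for a minor-minimal obstruction. -/
theorem isObstruction_of {V : Type} [Finite V] {G : SimpleGraph V} {k : ℕ}
    (h1 : ¬ EmbedsN G k) (h2 : ∀ v, ∃ w, G.Adj v w)
    (h3 : ∀ u v, G.Adj u v → EmbedsN (G.deleteEdges {s(u, v)}) k)
    (h4 : ∀ u v, G.Adj u v → EmbedsN (contr G u v) k) : IsObstruction G k := by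
  refine ⟨h1, fun W H hW hm hiso => ?_⟩
  rcases minor_cases hm with ⟨u, v, huv, h⟩ | ⟨u, v, huv, h⟩ | ⟨v, hv, h⟩ | ⟨⟨φ⟩⟩
  · exact EmbedsN.minor (h4 u v huv) h
  · exact EmbedsN.minor (h3 u v huv) h
  · obtain ⟨w, hw⟩ := h2 v
    exact absurd hw (hv w)
  · exact hiso.elim φ

/-- Single deletions are enough for all proper subgraphs. -/
theorem subgraph_of [Finite V] {k : ℕ} (h2 : ∀ v, ∃ w, G.Adj v w)
    (h3 : ∀ u v, G.Adj u v → EmbedsN (G.deleteEdges {s(u, v)}) k) (H : G.Subgraph)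
    (hH : H ≠ ⊤) : EmbedsN H.coe k := by
  have h1 : ∃ u v, G.Adj u v ∧ ¬ H.Adj u v := by
    by_contra hn
    push Not at hn
    apply hH
    rw [eq_top_iff]
    refine ⟨fun v _ => ?_, fun u v huv => hn u v huv⟩
    obtain ⟨w, hw⟩ := h2 v
    exact H.edge_vert (hn v w hw)
  obtain ⟨u, v, huv, hno⟩ := h1
  have : Finite H.verts := inferInstance
  refine EmbedsN.minor (h3 u v huv) (isMinor_of_inj (β := fun x : H.verts => x.1)
    Subtype.val_injective (fun x y hxy => del_adj_iff.2 ⟨H.adj_sub hxy, ?_⟩))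
  have hxy' : H.Adj x.1 y.1 := hxy
  rintro (⟨e1, e2⟩ | ⟨e1, e2⟩)
  · rw [e1, e2] at hxy'
    exact hno hxy'
  · rw [e1, e2] at hxy'
    exact hno hxy'.symm

end Pool.Agent.H64.Hop
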