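import Mathlib
import Pool.Agent.H64.Hop.Auto

set_option autoImplicit false

/-!
Disjoint unions of copies of `H14`.
-/

namespace Pool.Agent.H64.Hop

open SimpleGraph Pool.Agent.H20.Hop

/-- vertices of `n + 1` copies -/
def Vt : ℕ → Type
  | 0 => Fin 14
  | n + 1 => Fin 14 ⊕ Vt n

/-- `n + 1` disjoint copies of `H14` -/
def Gt : (n : ℕ) → SimpleGraph (Vt n)
  | 0 => H14
  | n + 1 => H14 ⊕g Gt n

instance Vt.finite : (n : ℕ) → Finite (Vt n)
  | 0 => inferInstanceAs (Finite (Fin 14))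
  | n + 1 => by
    have := Vt.finite n
    exact inferInstanceAs (Finite (Fin 14 ⊕ Vt n))

theorem Gt_low : ∀ n, Low (Gt n) (4 * n + 4)
  | 0 => low_H14
  | n + 1 => by
    have h := Low.sum low_H14 (Gt_low n)
    have e : 4 + (4 * n + 4) = 4 * (n + 1) + 4 := by ring
    rw [e] at h
    exact h

theorem Gt_upN : ∀ n, UpN (Gt n) (4 * n + 4)
  | 0 => upN_A
  | n + 1 => by
    have h := UpN.sum_right upN_A.up (Gt_upN n)
    have e : 4 + (4 * n + 4) = 4 * (n + 1) + 4 := by ring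
    rw [e] at h
    exact h

theorem Gt_del : ∀ (n : ℕ) (u v : Vt n), (Gt n).Adj u v →
    Up ((Gt n).deleteEdges {s(u, v)}) (4 * n + 2)
  | 0, u, v, h => up_del h
  | n + 1, Sum.inl u, Sum.inl v, h => by
    have h1 : H14.Adj u v := sum_adj_inl.1 h
    have h2 := Up.sum (up_del h1) (Gt_upN n).up
    have e : 2 + (4 * n + 4) = 4 * (n + 1) + 2 := by ring
    rw [e, ← del_sum_left] at h2
    exact h2
  | n + 1, Sum.inr u, Sum.inr v, h => by
    have h1 : (Gt n).Adj u v := sum_adj_inr.1 h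
    have h2 := Up.sum upN_A.up (Gt_del n u v h1)
    have e : 4 + (4 * n + 2) = 4 * (n + 1) + 2 := by ring
    rw [e, ← del_sum_right] at h2
    exact h2
  | n + 1, Sum.inl u, Sum.inr v, h => by
    change (H14 ⊕g Gt n).Adj _ _ at h
    simp at h
  | n + 1, Sum.inr u, Sum.inl v, h => by
    change (H14 ⊕g Gt n).Adj _ _ at h
    simp at h

theorem Gt_delN : ∀ (n : ℕ) (u v : Vt (n + 1)), (Gt (n + 1)).Adj u v →
    UpN ((Gt (n + 1)).deleteEdges {s(u, v)}) (4 * (n + 1) + 2)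
  | n, Sum.inl u, Sum.inl v, h => by
    have h1 : H14.Adj u v := sum_adj_inl.1 h
    have h2 := UpN.sum_right (up_del h1) (Gt_upN n)
    have e : 2 + (4 * n + 4) = 4 * (n + 1) + 2 := by ring
    rw [e, ← del_sum_left] at h2
    exact h2
  | n, Sum.inr u, Sum.inr v, h => by
    have h1 : (Gt n).Adj u v := sum_adj_inr.1 h
    have h2 := UpN.sum_left upN_A (Gt_del n u v h1)
    have e : 4 + (4 * n + 2) = 4 * (n + 1) + 2 := by ring
    rw [e, ← del_sum_right] at h2
    exact h2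
  | n, Sum.inl u, Sum.inr v, h => by
    change (H14 ⊕g Gt n).Adj _ _ at h
    simp at h
  | n, Sum.inr u, Sum.inl v, h => by
    change (H14 ⊕g Gt n).Adj _ _ at h
    simp at h

theorem Gt_contr : ∀ (n : ℕ) (u v : Vt n), (Gt n).Adj u v →
    UpN (contr (Gt n) u v) (4 * n + 3)
  | 0, u, v, h => upN_contr h
  | n + 1, Sum.inl u, Sum.inl v, h => by
    have h1 : H14.Adj u v := sum_adj_inl.1 h
    have h2 := UpN.sum_left (upN_contr h1) (Gt_upN n).up
    have e : 3 + (4 * n + 4) = 4 * (n + 1) + 3 := by ring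
    rw [e] at h2
    exact UpN.iso (contrSumLeft H14 (Gt n) u v) h2
  | n + 1, Sum.inr u, Sum.inr v, h => by
    have h1 : (Gt n).Adj u v := sum_adj_inr.1 h
    have h2 := UpN.sum_left upN_A (Gt_contr n u v h1).up
    have e : 4 + (4 * n + 3) = 4 * (n + 1) + 3 := by ring
    rw [e] at h2
    exact UpN.iso (contrSumRight H14 (Gt n) u v) h2
  | n + 1, Sum.inl u, Sum.inr v, h => by
    change (H14 ⊕g Gt n).Adj _ _ at h
    simp at h
  | n + 1, Sum.inr u, Sum.inl v, h => by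
    change (H14 ⊕g Gt n).Adj _ _ at h
    simp at h

/-- The facts about `m ≥ 2` copies. -/
theorem copies (m : ℕ) (hm : 2 ≤ m) : ∃ (V : Type) (_ : Finite V) (G : SimpleGraph V),
    ¬ EmbedsN G (4 * m - 1) ∧
    (∀ u v, G.Adj u v → EmbedsN (G.deleteEdges {s(u, v)}) (4 * m - 2)) ∧
    (∀ u v, G.Adj u v → EmbedsN (contr G u v) (4 * m - 1)) := by
  obtain ⟨n, rfl⟩ : ∃ n, m = n + 2 := ⟨m - 2, by omega⟩
  refine ⟨Vt (n + 1), Vt.finite (n + 1), Gt (n + 1), ?_, ?_, ?_⟩
  · exact (Gt_low (n + 1)).not_embeds (by omega)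
  · intro u v h
    have h1 := Gt_delN n u v h
    have e : 4 * (n + 2) - 2 = 4 * (n + 1) + 2 := by omega
    rw [e]
    exact h1.embeds
  · intro u v h
    have h1 := Gt_contr (n + 1) u v h
    have e : 4 * (n + 2) - 1 = 4 * (n + 1) + 3 := by omega
    rw [e]
    exact h1.embeds

end Pool.Agent.H64.Hop
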