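import Mathlib
import Pool.Agent.H64.Hop.Copies
import Pool.Agent.H64.Hop.Closed

set_option autoImplicit false

/-!
Disjoint unions of copies of `H14`: all statements.
-/

namespace Pool.Agent.H64.Hop

open SimpleGraph Pool.Agent.H20.Hop

theorem nb_inl {V W : Type*} (A : SimpleGraph V) (B : SimpleGraph W) (v : V) :
    ((A ⊕g B).neighborSet (Sum.inl v)).ncard = (A.neighborSet v).ncard := by
  have h : (A ⊕g B).neighborSet (Sum.inl v) = Sum.inl '' (A.neighborSet v) := by
    ext x
    rcases x with x | x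
    · simp [SimpleGraph.mem_neighborSet]
    · simp [SimpleGraph.mem_neighborSet]
  rw [h, Set.ncard_image_of_injective _ Sum.inl_injective]

theorem nb_inr {V W : Type*} (A : SimpleGraph V) (B : SimpleGraph W) (v : W) :
    ((A ⊕g B).neighborSet (Sum.inr v)).ncard = (B.neighborSet v).ncard := by
  have h : (A ⊕g B).neighborSet (Sum.inr v) = Sum.inr '' (B.neighborSet v) := by
    ext x
    rcases x with x | x
    · simp [SimpleGraph.mem_neighborSet]
    · simp [SimpleGraph.mem_neighborSet]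
  rw [h, Set.ncard_image_of_injective _ Sum.inr_injective]

theorem Gt_reg : ∀ (n : ℕ) (v : Vt n), ((Gt n).neighborSet v).ncard = 4
  | 0, v => nbset_ncard v
  | n + 1, Sum.inl v => (nb_inl H14 (Gt n) v).trans (nbset_ncard v)
  | n + 1, Sum.inr v => (nb_inr H14 (Gt n) v).trans (Gt_reg n v)

/-- The facts about `m ≥ 2` copies. -/
theorem copies_full (m : ℕ) (hm : 2 ≤ m) : ∃ (V : Type) (_ : Finite V) (G : SimpleGraph V),
    (∀ v, (G.neighborSet v).ncard = 4) ∧ IsObstruction G (4 * m - 1) ∧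
    ¬ EmbedsN G (4 * m - 2) ∧ ∀ H : G.Subgraph, H ≠ ⊤ → EmbedsN H.coe (4 * m - 2) := by
  obtain ⟨n, rfl⟩ : ∃ n, m = n + 2 := ⟨m - 2, by omega⟩
  have hf := Vt.finite (n + 1)
  have hlow := Gt_low (n + 1)
  have hreg := Gt_reg (n + 1)
  have hnb : ∀ v, ∃ w, (Gt (n + 1)).Adj v w := by
    intro v
    have h1 : ((Gt (n + 1)).neighborSet v).Nonempty := by
      rw [← Set.ncard_pos, hreg v]
      norm_num
    exact h1
  have hdel : ∀ (u v : Vt (n + 1)), (Gt (n + 1)).Adj u v →
      EmbedsN ((Gt (n + 1)).deleteEdges {s(u, v)}) (4 * (n + 2) - 2) := by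
    intro u v h
    have h1 := Gt_delN n u v h
    have e : 4 * (n + 2) - 2 = 4 * (n + 1) + 2 := by omega
    rw [e]
    exact h1.embeds
  refine ⟨Vt (n + 1), hf, Gt (n + 1), hreg, ?_, hlow.not_embeds (by omega),
    fun H hH => subgraph_of hnb hdel H hH⟩
  refine isObstruction_of (hlow.not_embeds (by omega)) hnb ?_ ?_
  · intro u v h
    have h1 := (Gt_delN n u v h).mono (g' := 4 * (n + 2) - 1) (by omega)
    exact h1.embeds
  · intro u v h
    have h1 := Gt_contr (n + 1) u v h
    have e : 4 * (n + 2) - 1 = 4 * (n + 1) + 3 := by omega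
    rw [e]
    exact h1.embeds

end Pool.Agent.H64.Hop
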